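import Pool.Agent.H8.CB.Defs

/-!
# Row Num: the numerical inequality

`fac`: `T ^ T ≤ 3 ^ T * T !` by induction: `(T + 1) ^ (T + 1) = (T + 1) * (T + 1) ^ T` and
`(T + 1) ^ T ≤ 3 * T ^ T` since `(1 + 1 / T) ^ T ≤ exp 1 < 3` (`Real.add_one_le_exp`,
`Real.exp_one_lt_d9`; `T = 0` separately).
`num`: `C := ((2 * m * k) ^ 2).choose T`. `C * T ! ≤ ((2 * m * k) ^ 2) ^ T` (`Nat.choose_le_pow_div` or
`Nat.descFactorial_le_pow`, `Nat.descFactorial_eq_factorial_mul_choose`). So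
`C * 4 ^ T * T ^ T ≤ (4 * m ^ 2 * k ^ 2) ^ T * 4 ^ T * 3 ^ T = (48 * m ^ 2 * k ^ 2) ^ T ≤ (h * T) ^ T`,
because `48 * m ^ 2 * k ^ 2 ≤ h * T`: `T = (m - 1) * k`, `240 * k ≤ m - 1` and `m ^ 2 ≤ 5 * h`
(as `m ^ 2 ≤ 4 * h + 3` and `m ≥ 1280`), so `h * T ≥ (m ^ 2 / 5) * 240 * k * k`. Cancel `T ^ T > 0`:
`C * 4 ^ T ≤ h ^ T`. With `T ≤ 2 * m ^ 2` the hypothesis gives
`h ^ T * h ^ (2 * m ^ 2 - T) ≤ L * (4 ^ m * C) * 2 ^ T * h ^ (2 * m ^ 2 - T)`; cancel the power of `h > 0`: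
`C * 4 ^ T ≤ h ^ T ≤ L * 4 ^ m * C * 2 ^ T`, and `C > 0` (as `T ≤ (2 * m * k) ^ 2`), so
`2 ^ T ≤ L * 4 ^ m = L * 2 ^ (2 * m)`.
-/

namespace Pool.Agent.H8.CB

theorem num_step {T : ℕ} (hT : 1 ≤ T) : (T + 1) ^ T ≤ 3 * T ^ T := by
  have hT0 : (0 : ℝ) < T := by exact_mod_cast hT
  have h1 : ((T : ℝ) + 1) ^ T ≤ 3 * (T : ℝ) ^ T := by
    have h2 : (T : ℝ) + 1 = T * (1 + 1 / T) := by field_simp
    have h3 : (1 + 1 / (T : ℝ)) ^ T ≤ Real.exp 1 := by
      have h4 : 1 + 1 / (T : ℝ) ≤ Real.exp (1 / T) := by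
        have := Real.add_one_le_exp (1 / (T : ℝ))
        linarith
      calc (1 + 1 / (T : ℝ)) ^ T ≤ Real.exp (1 / T) ^ T := pow_le_pow_left₀ (by positivity) h4 T
        _ = Real.exp (T * (1 / T)) := (Real.exp_nat_mul _ _).symm
        _ = Real.exp 1 := by
            congr 1
            field_simp
    have h5 : Real.exp 1 ≤ 3 := by
      have := Real.exp_one_lt_d9
      linarith
    have h6 : 0 < (T : ℝ) ^ T := by positivity
    rw [h2, mul_pow]
    nlinarith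
  exact_mod_cast h1

theorem fac (T : ℕ) : T ^ T ≤ 3 ^ T * T.factorial := by
  induction T with
  | zero => simp
  | succ T ih =>
    rcases Nat.eq_zero_or_pos T with h0 | h0
    · subst h0
      simp
    · have h1 := num_step h0
      calc (T + 1) ^ (T + 1) = (T + 1) ^ T * (T + 1) := pow_succ _ _
        _ ≤ (3 * T ^ T) * (T + 1) := Nat.mul_le_mul_right _ h1
        _ ≤ (3 * (3 ^ T * T.factorial)) * (T + 1) :=
            Nat.mul_le_mul_right _ (Nat.mul_le_mul_left _ ih)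
        _ = 3 ^ (T + 1) * (T + 1).factorial := by
            rw [Nat.factorial_succ, pow_succ]
            ring

theorem num {m k h T L : ℕ} (hp : Par m k h T)
    (hL : h ^ (2 * m ^ 2) ≤
      L * (4 ^ m * ((2 * m * k) ^ 2).choose T) * (2 ^ T * h ^ (2 * m ^ 2 - T))) :
    2 ^ T ≤ L * 2 ^ (2 * m) := by
  obtain ⟨hk, hm, hh, hT⟩ := hp
  have hm1280 : 1280 ≤ m := by omega
  have hkm : k ≤ m := by omega
  have hT0 : 0 < T := by
    rw [hT]
    exact Nat.mul_pos (by omega) (by omega)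
  have hTm : T ≤ m * m := by
    rw [hT]
    exact Nat.mul_le_mul (by omega) hkm
  have hm2 : m * m = m ^ 2 := (sq m).symm
  have hmm : m ^ 2 ≤ 4 * h + 3 := by omega
  have hbig : 1280 * 1280 ≤ m * m := Nat.mul_le_mul hm1280 hm1280
  have h5 : m ^ 2 ≤ 5 * h := by omega
  have hpos : 0 < h := by omega
  have hC1 : ((2 * m * k) ^ 2).choose T * T.factorial ≤ ((2 * m * k) ^ 2) ^ T := by
    have e := Nat.descFactorial_eq_factorial_mul_choose ((2 * m * k) ^ 2) T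
    have f := Nat.descFactorial_le_pow ((2 * m * k) ^ 2) T
    rw [e] at f
    rw [mul_comm]
    exact f
  have hTC : T ≤ (2 * m * k) ^ 2 := by
    refine hTm.trans ?_
    have : m ≤ 2 * m * k := by nlinarith
    rw [sq]
    exact Nat.mul_le_mul this this
  have hC0 : 0 < ((2 * m * k) ^ 2).choose T := Nat.choose_pos hTC
  generalize ((2 * m * k) ^ 2).choose T = C at *
  have h2 : C * 4 ^ T * T ^ T ≤ (48 * m ^ 2 * k ^ 2) ^ T := by
    calc C * 4 ^ T * T ^ T ≤ C * 4 ^ T * (3 ^ T * T.factorial) := Nat.mul_le_mul_left _ (fac T)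
      _ = (C * T.factorial) * (4 ^ T * 3 ^ T) := by ring
      _ ≤ ((2 * m * k) ^ 2) ^ T * (4 ^ T * 3 ^ T) := Nat.mul_le_mul_right _ hC1
      _ = (48 * m ^ 2 * k ^ 2) ^ T := by
          rw [← mul_pow, ← mul_pow]
          congr 1
          ring
  have h3 : 48 * m ^ 2 * k ^ 2 ≤ h * T := by
    have e1 : 240 * k ≤ m - 1 := by omega
    calc 48 * m ^ 2 * k ^ 2 ≤ 48 * (5 * h) * k ^ 2 :=
          Nat.mul_le_mul_right _ (Nat.mul_le_mul_left _ h5)
      _ = h * ((240 * k) * k) := by ring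
      _ ≤ h * ((m - 1) * k) := Nat.mul_le_mul_left _ (Nat.mul_le_mul_right _ e1)
      _ = h * T := by rw [hT]
  have h4 : C * 4 ^ T ≤ h ^ T := by
    have e1 : C * 4 ^ T * T ^ T ≤ h ^ T * T ^ T := by
      refine h2.trans ?_
      rw [← mul_pow]
      exact Nat.pow_le_pow_left h3 T
    exact Nat.le_of_mul_le_mul_right e1 (Nat.pow_pos hT0)
  have h6 : h ^ T ≤ L * (4 ^ m * C) * 2 ^ T := by
    have e0 : 2 * m ^ 2 = T + (2 * m ^ 2 - T) := by omega
    have e1 : h ^ T * h ^ (2 * m ^ 2 - T) ≤ (L * (4 ^ m * C) * 2 ^ T) * h ^ (2 * m ^ 2 - T) := by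
      rw [← pow_add, ← e0]
      refine hL.trans (le_of_eq ?_)
      ring
    exact Nat.le_of_mul_le_mul_right e1 (Nat.pow_pos hpos)
  have h7 : 2 ^ T * (C * 2 ^ T) ≤ L * 2 ^ (2 * m) * (C * 2 ^ T) := by
    have e1 : (4 : ℕ) ^ T = 2 ^ T * 2 ^ T := by
      rw [← mul_pow]
      norm_num
    have e2 : (4 : ℕ) ^ m = 2 ^ (2 * m) := by
      rw [pow_mul]
      norm_num
    calc 2 ^ T * (C * 2 ^ T) = C * 4 ^ T := by
          rw [e1]
          ring
      _ ≤ L * (4 ^ m * C) * 2 ^ T := h4.trans h6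
      _ = L * 2 ^ (2 * m) * (C * 2 ^ T) := by
          rw [e2]
          ring
  exact Nat.le_of_mul_le_mul_right h7 (Nat.mul_pos hC0 (Nat.pow_pos (by norm_num)))

end Pool.Agent.H8.CB

/-!
# Row Asa: the sizes of the two sides compared with `N ^ (1 - ε)`

Let `K` be an integer with `256 ≤ K` and `8 ≤ ε * K`, and `m = K * k`. So `2 * k ≤ (ε / 4) * m` and
`k ≤ (ε / 4) * m`. We may assume `ε ≤ 1` (otherwise replace `ε` by `1`: `N ^ (1 - ε) ≤ N ^ 0` as `1 ≤ N`;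
or treat the case `1 - ε ≤ 0` separately: the left side is at most `1`). From `N ≤ m ^ (2 * m + 2)`:
`N ^ (1 - ε) ≤ exp ((1 - ε) * (2 * m + 2) * log m)`.
First claim: `m ^ 2 / 2 ≥ m ^ 2 / 4` (real division on the right), so the right side is at least
`exp ((m - k) * (2 * log m - log 4)) ≥ exp ((1 - ε / 4) * m * (2 * log m - 2))`. The difference of the
exponents is at least
`(3 / 2) * ε * m * log m - 2 * m - 2 * log m ≥ 0` once `ε * log m ≥ 4`, because `log m ≤ m`.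
Second claim: `m / 2 ≥ m / 4` (real division on the right), right side at least
`exp (2 * (m - 2 * k) * (log m - log 4)) ≥ exp ((1 - ε / 4) * m * (2 * log m - 4))`, and the difference
is at least `(3 / 2) * ε * m * log m - 4 * m - 2 * log m ≥ 0` once `ε * log m ≥ 4`.
Choose `k₀` so large that `ε * log (K * k₀) ≥ 4` (`Real.tendsto_log_atTop` and
`Filter.eventually_atTop`, or `k₀ = ⌈exp (4 / ε)⌉₊`) and `1 ≤ k₀`.
-/

namespace Pool.Agent.H8.CB

/-- the two elementary inequalities between the exponents -/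
private theorem Asa_lin {ε L m : ℝ} (h0 : 0 < ε) (h1 : ε < 1) (hL : 4 ≤ ε * L) (hL0 : 0 ≤ L)
    (hLm : L ≤ m) :
    (1 - ε) * ((2 * m + 2) * L) ≤ (1 - ε / 4) * m * (2 * L - 2) ∧
    (1 - ε) * ((2 * m + 2) * L) ≤ (1 - ε / 4) * m * (2 * L - 4) := by
  have hm : 0 ≤ m := hL0.trans hLm
  have h2 : 4 * m ≤ ε * L * m := mul_le_mul_of_nonneg_right hL hm
  have h3 : 0 ≤ ε * m := mul_nonneg h0.le hm
  have h4 : 0 ≤ ε * L := by linarith
  constructor <;> nlinarith [h2, h3, h4]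

theorem sides {ε : ℝ} (hε : 0 < ε) {K : ℕ} (hK : 256 ≤ K) (hK2 : 8 ≤ ε * K) :
    ∃ k₀ : ℕ, ∀ k m N : ℕ, k₀ ≤ k → m = K * k → N ≤ m ^ (2 * m + 2) → 1 ≤ N →
      (N : ℝ) ^ (1 - ε) ≤ (((m ^ 2 / 2) ^ (m - k) : ℕ) : ℝ) ∧
      (N : ℝ) ^ (1 - ε) ≤ (((m / 2) ^ (2 * (m - 2 * k)) : ℕ) : ℝ) := by
  refine ⟨max 1 ⌈Real.exp (4 / ε)⌉₊, fun k m N hk hm hN hN1 => ?_⟩
  have hk1 : 1 ≤ k := (le_max_left _ _).trans hk
  have hk2 : Real.exp (4 / ε) ≤ (k : ℝ) :=
    (Nat.le_ceil _).trans (by exact_mod_cast (le_max_right _ _).trans hk)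
  have hm256 : 256 ≤ m := by
    rw [hm]
    exact hK.trans (Nat.le_mul_of_pos_right _ hk1)
  have hkm : k ≤ m := by
    rw [hm]
    exact Nat.le_mul_of_pos_left _ (by omega)
  have hN1' : (1 : ℝ) ≤ (N : ℝ) := by exact_mod_cast hN1
  have hpos1 : 0 < m ^ 2 / 2 := by
    have h1 : 2 ≤ m ^ 2 := by nlinarith
    exact Nat.div_pos h1 (by norm_num)
  have hpos2 : 0 < m / 2 := Nat.div_pos (by omega) (by norm_num)
  rcases le_or_gt 1 ε with h1 | h1
  · have h2 : (N : ℝ) ^ (1 - ε) ≤ 1 :=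
      Real.rpow_le_one_of_one_le_of_nonpos hN1' (by linarith)
    refine ⟨h2.trans ?_, h2.trans ?_⟩
    · exact_mod_cast Nat.one_le_pow _ _ hpos1
    · exact_mod_cast Nat.one_le_pow _ _ hpos2
  -- the main case
  have hmr : (256 : ℝ) ≤ (m : ℝ) := by exact_mod_cast hm256
  have hm0 : (0 : ℝ) < (m : ℝ) := by linarith
  have hlog : 4 / ε ≤ Real.log m := by
    rw [Real.le_log_iff_exp_le hm0]
    exact hk2.trans (by exact_mod_cast hkm)
  have hL : 4 ≤ ε * Real.log m := by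
    rw [div_le_iff₀ hε] at hlog
    linarith
  have hL0 : 0 ≤ Real.log m := Real.log_nonneg (by linarith)
  have hLm : Real.log m ≤ m := (Real.log_le_sub_one_of_pos hm0).trans (by linarith)
  have hL4 : 4 ≤ Real.log m := by nlinarith
  obtain ⟨hA, hB⟩ := Asa_lin hε h1 hL hL0 hLm
  have hkε : 8 * (k : ℝ) ≤ ε * m := by
    rw [hm]
    push_cast
    have : (0 : ℝ) ≤ k := Nat.cast_nonneg k
    nlinarith
  have hk0 : (0 : ℝ) ≤ k := Nat.cast_nonneg k
  have hlog4 : Real.log 4 ≤ 2 := by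
    have h2 : Real.log 4 = 2 * Real.log 2 := by
      rw [show (4 : ℝ) = 2 ^ 2 by norm_num, Real.log_pow]
      norm_num
    have h3 := Real.log_two_lt_d9
    linarith
  have hNe : (N : ℝ) ^ (1 - ε) ≤ Real.exp ((1 - ε) * ((2 * m + 2) * Real.log m)) := by
    have h2 : (N : ℝ) ≤ Real.exp ((2 * m + 2) * Real.log m) := by
      have h3 : (N : ℝ) ≤ (m : ℝ) ^ (2 * m + 2) := by exact_mod_cast hN
      refine h3.trans (le_of_eq ?_)
      rw [show ((2 : ℝ) * m + 2) = ((2 * m + 2 : ℕ) : ℝ) by push_cast; ring, Real.exp_nat_mul,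
        Real.exp_log hm0]
    refine (Real.rpow_le_rpow (by linarith) h2 (by linarith)).trans (le_of_eq ?_)
    rw [← Real.exp_mul]
    congr 1
    ring
  constructor
  · refine hNe.trans ?_
    have h2 : ((m : ℝ) ^ 2 / 4) ≤ ((m ^ 2 / 2 : ℕ) : ℝ) := by
      have h3 : m ^ 2 ≤ 2 * (m ^ 2 / 2) + 1 := by omega
      have h4 : (m : ℝ) ^ 2 ≤ 2 * ((m ^ 2 / 2 : ℕ) : ℝ) + 1 := by exact_mod_cast h3
      nlinarith
    have h3 : ((m : ℝ) ^ 2 / 4) ^ (m - k) ≤ (((m ^ 2 / 2) ^ (m - k) : ℕ) : ℝ) := by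
      rw [Nat.cast_pow]
      exact pow_le_pow_left₀ (by positivity) h2 _
    refine le_trans ?_ h3
    have h4 : (m : ℝ) ^ 2 / 4 = Real.exp (2 * Real.log m - Real.log 4) := by
      rw [Real.exp_sub, Real.exp_log (by norm_num : (0 : ℝ) < 4),
        show (2 : ℝ) * Real.log m = ((2 : ℕ) : ℝ) * Real.log m by norm_num, Real.exp_nat_mul,
        Real.exp_log hm0]
    rw [h4, ← Real.exp_nat_mul, Real.exp_le_exp, Nat.cast_sub hkm]
    refine hA.trans ?_
    have h5 : (1 - ε / 4) * (m : ℝ) ≤ (m : ℝ) - k := by nlinarith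
    have h6 : (0 : ℝ) ≤ 2 * Real.log m - 2 := by linarith
    calc (1 - ε / 4) * (m : ℝ) * (2 * Real.log m - 2)
        ≤ ((m : ℝ) - k) * (2 * Real.log m - 2) := mul_le_mul_of_nonneg_right h5 h6
      _ ≤ ((m : ℝ) - k) * (2 * Real.log m - Real.log 4) := by
          refine mul_le_mul_of_nonneg_left (by linarith) ?_
          have : (k : ℝ) ≤ m := by exact_mod_cast hkm
          linarith
  · refine hNe.trans ?_
    have h2 : ((m : ℝ) / 4) ≤ ((m / 2 : ℕ) : ℝ) := by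
      have h3 : m ≤ 2 * (m / 2) + 1 := by omega
      have h4 : (m : ℝ) ≤ 2 * ((m / 2 : ℕ) : ℝ) + 1 := by exact_mod_cast h3
      linarith
    have h3 : ((m : ℝ) / 4) ^ (2 * (m - 2 * k)) ≤ (((m / 2) ^ (2 * (m - 2 * k)) : ℕ) : ℝ) := by
      rw [Nat.cast_pow]
      exact pow_le_pow_left₀ (by positivity) h2 _
    refine le_trans ?_ h3
    have h4 : (m : ℝ) / 4 = Real.exp (Real.log m - Real.log 4) := by
      rw [Real.exp_sub, Real.exp_log (by norm_num : (0 : ℝ) < 4), Real.exp_log hm0]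
    have hkm2 : 2 * k ≤ m := by
      rw [hm]
      exact Nat.mul_le_mul_right _ (by omega)
    have h7 : (((2 * (m - 2 * k) : ℕ)) : ℝ) = 2 * ((m : ℝ) - 2 * k) := by
      push_cast [Nat.cast_sub hkm2]
      ring
    rw [h4, ← Real.exp_nat_mul, Real.exp_le_exp, h7]
    refine hB.trans ?_
    have h5 : (1 - ε / 4) * (m : ℝ) ≤ (m : ℝ) - 2 * k := by nlinarith
    have h6 : (0 : ℝ) ≤ 2 * Real.log m - 4 := by linarith
    have h8 : (0 : ℝ) ≤ (m : ℝ) - 2 * k := by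
      have : ((2 * k : ℕ) : ℝ) ≤ m := by exact_mod_cast hkm2
      push_cast at this
      linarith
    calc (1 - ε / 4) * (m : ℝ) * (2 * Real.log m - 4)
        ≤ ((m : ℝ) - 2 * k) * (2 * Real.log m - 4) := mul_le_mul_of_nonneg_right h5 h6
      _ ≤ 2 * ((m : ℝ) - 2 * k) * (Real.log m - Real.log 4) := by nlinarith

end Pool.Agent.H8.CB

/-!
# Row Asb: the lower bound in terms of `N`

`m = K * k`, `5 ≤ k`, `256 ≤ K`. From the hypothesis `2 ^ ((m - 1) * k) ≤ L * 2 ^ (2 * m)`. Since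
`(m - 1) * k ≥ 4 * m` (`k ≥ 5`, `m ≥ 5`) and `m - 1 ≥ m / 2`, in real numbers
`L ≥ 2 ^ ((m - 1) * k - 2 * m) ≥ 2 ^ (((m - 1) * k) / 2) ≥ 2 ^ (m * k / 4) = exp (log 2 * m ^ 2 / (4 * K))`.
On the other hand `log N ≤ (2 * m + 2) * log m ≤ 3 * m * log m`, and `log N ≥ 2 * m * log m ≥ m`, so
`log (log N) ≥ log m > 0`, hence `0 ≤ log N / log (log N) ≤ 3 * m`, and its square is at most
`9 * m ^ 2`. So `c * (log N / log (log N)) ^ 2 ≤ log 2 * m ^ 2 / (4 * K)` for `c = log 2 / (36 * K)`.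
-/

namespace Pool.Agent.H8.CB

theorem final_bound {K k m N L : ℕ} (hK : 256 ≤ K) (hk : 5 ≤ k) (hm : m = K * k)
    (h1 : m ^ (2 * m) ≤ N) (h2 : N ≤ m ^ (2 * m + 2))
    (hL : 2 ^ ((m - 1) * k) ≤ L * 2 ^ (2 * m)) :
    Real.exp (Real.log 2 / (36 * K) * (Real.log N / Real.log (Real.log N)) ^ 2) ≤ (L : ℝ) := by
  have hm0 : 1280 ≤ m := by
    rw [hm]
    calc 1280 = 256 * 5 := by norm_num
      _ ≤ K * k := Nat.mul_le_mul hK hk
  -- the exponent
  obtain ⟨m', rfl⟩ : ∃ m', m = m' + 1 := ⟨m - 1, by omega⟩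
  have e1 : m' + 1 - 1 = m' := by omega
  rw [e1] at hL
  have hk4 : 4 * (m' + 1) ≤ m' * k := by
    calc 4 * (m' + 1) ≤ m' * 5 := by omega
      _ ≤ m' * k := Nat.mul_le_mul_left _ hk
  obtain ⟨e, he⟩ : ∃ e, m' * k = e + 2 * (m' + 1) := ⟨m' * k - 2 * (m' + 1), by omega⟩
  have hL2 : 2 ^ e ≤ L := by
    rw [he, pow_add] at hL
    exact Nat.le_of_mul_le_mul_right hL (by positivity)
  have he4 : (m' + 1) * k ≤ 4 * e := by
    have h3 : (m' + 1) * k ≤ 2 * (m' * k) := by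
      have : k ≤ m' * k := Nat.le_mul_of_pos_left k (by omega)
      nlinarith
    omega
  have hKpos : (0 : ℝ) < K := by
    have : 0 < K := by omega
    exact_mod_cast this
  obtain ⟨m, hmm⟩ : ∃ m : ℕ, m = m' + 1 := ⟨_, rfl⟩
  rw [← hmm] at hm hm0 h1 h2 he4
  have hmR : (1280 : ℝ) ≤ m := by exact_mod_cast hm0
  have hmpos : (0 : ℝ) < m := by linarith
  have hlog2 : 0 < Real.log 2 := Real.log_pos (by norm_num)
  have hlm : 1 ≤ Real.log m := by
    rw [Real.le_log_iff_exp_le hmpos]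
    have := Real.exp_one_lt_d9
    linarith
  have hNpos : (0 : ℝ) < N := by
    have : 0 < N := lt_of_lt_of_le (by positivity) h1
    exact_mod_cast this
  have hN1 : 2 * m * Real.log m ≤ Real.log N := by
    have h3 : ((m : ℝ)) ^ (2 * m) ≤ N := by exact_mod_cast h1
    have h4 := Real.log_le_log (by positivity) h3
    rw [Real.log_pow] at h4
    push_cast at h4
    exact h4
  have hN2 : Real.log N ≤ 3 * m * Real.log m := by
    have h3 : (N : ℝ) ≤ (m : ℝ) ^ (2 * m + 2) := by exact_mod_cast h2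
    have h4 := Real.log_le_log hNpos h3
    rw [Real.log_pow] at h4
    push_cast at h4
    refine h4.trans ?_
    refine mul_le_mul_of_nonneg_right ?_ (by linarith)
    linarith
  have hN3 : (m : ℝ) ≤ Real.log N := by nlinarith
  have hll : Real.log m ≤ Real.log (Real.log N) := Real.log_le_log hmpos hN3
  have hll0 : 0 < Real.log (Real.log N) := by linarith
  have hr0 : 0 ≤ Real.log N / Real.log (Real.log N) := div_nonneg (by linarith) hll0.le
  have hr : Real.log N / Real.log (Real.log N) ≤ 3 * m := by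
    rw [div_le_iff₀ hll0]
    exact hN2.trans (mul_le_mul_of_nonneg_left hll (by positivity))
  have hr2 : (Real.log N / Real.log (Real.log N)) ^ 2 ≤ (3 * m) ^ 2 := pow_le_pow_left₀ hr0 hr 2
  have hmain : Real.log 2 / (36 * K) * (Real.log N / Real.log (Real.log N)) ^ 2 ≤ e * Real.log 2 := by
    have h3 : Real.log 2 / (36 * K) * (Real.log N / Real.log (Real.log N)) ^ 2 ≤
        Real.log 2 / (36 * K) * (3 * m) ^ 2 := mul_le_mul_of_nonneg_left hr2 (by positivity)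
    refine h3.trans ?_
    have h4 : (m : ℝ) * k ≤ 4 * e := by exact_mod_cast he4
    have h5 : (m : ℝ) = K * k := by exact_mod_cast hm
    have h6 : Real.log 2 / (36 * K) * (3 * m) ^ 2 = Real.log 2 * (m * k) / 4 := by
      have h7 : (3 * (m : ℝ)) ^ 2 = 9 * m * (K * k) := by
        rw [← h5]; ring
      rw [h7]
      field_simp
      ring
    rw [h6]
    nlinarith
  refine (Real.exp_le_exp.2 hmain).trans ?_
  have h8 : Real.exp (e * Real.log 2) = (2 : ℝ) ^ e := by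
    rw [← Real.log_pow, Real.exp_log (by positivity)]
  rw [h8]
  exact_mod_cast hL2

end Pool.Agent.H8.CB
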