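import Pool.Agent.H8.CB.Defs

/-!
# Row Bas: basic facts on hits, blocked lines, overwriting

All immediate from the definitions (`cd`, `cell`, `Hit`, `Full`, `F`, `ov`, `Blk`).
`blk_mono`: if `r` is blocked for `O` and `x` lies on no blocked line, then `x` is not on `r`, so
`r` is still not hit by `insert x O`, and the other lines of its group are still hit.
`card_line`: the cells on the line `r` of side `s` are `cell s r r'` for `r' : R m`, and
`Fintype.card (R m) = m * m`. `card_hit`: the set of the hit lines of side `s` is the image of `O`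
under `fun x => cd x s`.
`card_blk`: the map `r ↦ r.1` is injective on the blocked lines of side `s` (if `(i,a)` and `(i,b)`
are blocked and `a ≠ b` then `(i,b)` is hit, because `(i,a)` is blocked, a contradiction).
`single`: if `F (ov {z} ρ)` then some group `(s,i)` is full for a subset of `insert z ρ.O`; the group
has a line `(i,a)` not hit by `ρ.O`, hence `cd z s = (i,a)`, and every other line of the group is not
hit through `z`, so it is hit by `ρ.O`: so `(i,a)` is blocked, contradiction.
-/

namespace Pool.Agent.H8.CB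

variable {m : ℕ}

theorem cd_cell (s : Bool) (r r' : R m) : cd (cell s r r') s = r := by
  cases s <;> rfl

theorem cd_cell_other (s : Bool) (r r' : R m) : cd (cell s r r') (!s) = r' := by
  cases s <;> rfl

theorem cell_cd (s : Bool) (x : W m) : cell s (cd x s) (cd x (!s)) = x := by
  cases s <;> rfl

theorem cell_inj (s : Bool) (r : R m) : Function.Injective (cell s r) := by
  intro a b h
  have h1 := congrArg (fun x => cd x (!s)) h
  simp only [cd_cell_other] at h1
  exact h1

theorem eq_of_cd {x y : W m} (s : Bool) (h : cd x s = cd y s) (h' : cd x (!s) = cd y (!s)) :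
    x = y := by
  rw [← cell_cd s x, ← cell_cd s y, h, h']

theorem Hit.mono {Z Z' : Finset (W m)} (h : Z ⊆ Z') {s : Bool} {r : R m} (hr : Hit Z s r) :
    Hit Z' s r := by
  obtain ⟨x, hx, hx'⟩ := hr
  exact ⟨x, h hx, hx'⟩

theorem F_mono {Z Z' : Finset (W m)} (h : Z ⊆ Z') (hF : F Z) : F Z' := by
  obtain ⟨s, i, hi⟩ := hF
  exact ⟨s, i, fun a => (hi a).mono h⟩

theorem hit_insert {Z : Finset (W m)} {x : W m} {s : Bool} {r : R m} :
    Hit (insert x Z) s r ↔ cd x s = r ∨ Hit Z s r := by
  constructor
  · rintro ⟨y, hy, hy'⟩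
    rcases Finset.mem_insert.1 hy with h | h
    · subst h
      exact Or.inl hy'
    · exact Or.inr ⟨y, h, hy'⟩
  · rintro (h | ⟨y, hy, hy'⟩)
    · exact ⟨x, Finset.mem_insert_self _ _, h⟩
    · exact ⟨y, Finset.mem_insert_of_mem hy, hy'⟩

theorem hit_union {Z Z' : Finset (W m)} {s : Bool} {r : R m} :
    Hit (Z ∪ Z') s r ↔ Hit Z s r ∨ Hit Z' s r := by
  constructor
  · rintro ⟨y, hy, hy'⟩
    rcases Finset.mem_union.1 hy with h | h
    · exact Or.inl ⟨y, h, hy'⟩
    · exact Or.inr ⟨y, h, hy'⟩
  · rintro (⟨y, hy, hy'⟩ | ⟨y, hy, hy'⟩)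
    · exact ⟨y, Finset.mem_union_left _ hy, hy'⟩
    · exact ⟨y, Finset.mem_union_right _ hy, hy'⟩

theorem ov_mono {Z Z' : Finset (W m)} (h : Z ⊆ Z') (ρ : St m) : ov Z ρ ⊆ ov Z' ρ := by
  unfold ov
  exact Finset.union_subset_union_left (Finset.sdiff_subset_sdiff h (Finset.Subset.refl _))

theorem ov_subset (Z : Finset (W m)) (ρ : St m) : ov Z ρ ⊆ Z ∪ ρ.O := by
  unfold ov
  exact Finset.union_subset_union_left Finset.sdiff_subset

theorem hit_ov_of {Z : Finset (W m)} {ρ : St m} {s : Bool} {r : R m} (h : Hit ρ.O s r) :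
    Hit (ov Z ρ) s r := by
  refine h.mono ?_
  unfold ov
  exact Finset.subset_union_right

theorem mem_U {O : Finset (W m)} {s : Bool} {i a : Fin m} : a ∈ U O s i ↔ ¬ Hit O s (i, a) := by
  classical
  unfold U
  rw [Finset.mem_filter]
  exact ⟨fun h => h.2, fun h => ⟨Finset.mem_univ _, h⟩⟩

/-- an unhit line of a group with at least two unhit lines is not blocked -/
theorem not_blk_of_open {O : Finset (W m)} {s : Bool} {i : Fin m} (h : 2 ≤ (U O s i).card)
    (a : Fin m) : ¬ Blk O s (i, a) := by
  rintro ⟨_, h2⟩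
  obtain ⟨b, hb, hba⟩ := Finset.exists_mem_ne (by omega : 1 < (U O s i).card) a
  exact mem_U.1 hb (h2 b hba)

/-- the group of an unhit line that is not blocked has at least two unhit lines -/
theorem open_of_not_blk {O : Finset (W m)} {s : Bool} {r : R m} (h : ¬ Hit O s r)
    (hb : ¬ Blk O s r) : 2 ≤ (U O s r.1).card := by
  have h1 : ∃ a, a ≠ r.2 ∧ ¬ Hit O s (r.1, a) := by
    by_contra hc
    push Not at hc
    exact hb ⟨h, hc⟩
  obtain ⟨a, ha, ha'⟩ := h1
  exact Finset.one_lt_card.2 ⟨a, mem_U.2 ha', r.2, mem_U.2 h, ha⟩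

theorem blk_mono {O : Finset (W m)} {x : W m} (hx : ∀ s, ¬ Blk O s (cd x s)) {s : Bool} {r : R m}
    (h : Blk O s r) : Blk (insert x O) s r := by
  constructor
  · intro h1
    rcases hit_insert.1 h1 with h2 | h2
    · exact hx s (by rw [h2]; exact h)
    · exact h.1 h2
  · intro a ha
    exact hit_insert.2 (Or.inr (h.2 a ha))

theorem card_R : Fintype.card (R m) = m ^ 2 := by
  rw [Fintype.card_prod, Fintype.card_fin, pow_two]

theorem card_line (s : Bool) (r : R m) :
    (Finset.univ.filter (fun x : W m => cd x s = r)).card = m ^ 2 := by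
  have h : Finset.univ.filter (fun x : W m => cd x s = r) = Finset.univ.image (cell s r) := by
    ext x
    rw [Finset.mem_filter, Finset.mem_image]
    constructor
    · rintro ⟨_, hx⟩
      refine ⟨cd x (!s), Finset.mem_univ _, ?_⟩
      rw [← hx, cell_cd]
    · rintro ⟨r', _, hx⟩
      refine ⟨Finset.mem_univ _, ?_⟩
      rw [← hx, cd_cell]
  rw [h, Finset.card_image_of_injective _ (cell_inj s r), Finset.card_univ, card_R]

open Classical in
theorem card_hit (O : Finset (W m)) (s : Bool) :
    (Finset.univ.filter (fun r : R m => Hit O s r)).card ≤ O.card := by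
  refine le_trans (Finset.card_le_card ?_) (Finset.card_image_le (s := O) (f := fun x => cd x s))
  intro r hr
  obtain ⟨x, hx, hx'⟩ := (Finset.mem_filter.1 hr).2
  exact Finset.mem_image.2 ⟨x, hx, hx'⟩

open Classical in
theorem card_blk (O : Finset (W m)) (s : Bool) :
    (Finset.univ.filter (fun r : R m => Blk O s r)).card ≤ m := by
  have h : (Finset.univ.filter (fun r : R m => Blk O s r)).card ≤ (Finset.univ : Finset (Fin m)).card := by
    refine Finset.card_le_card_of_injOn (fun r => r.1) (fun _ _ => Finset.mem_univ _) ?_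
    intro r hr r' hr' hrr
    have h1 : Blk O s r := (Finset.mem_filter.1 hr).2
    have h2 : Blk O s r' := (Finset.mem_filter.1 hr').2
    have hrr' : r.1 = r'.1 := hrr
    by_contra hne
    have h3 : r.2 ≠ r'.2 := fun h3 => hne (Prod.ext hrr' h3)
    have h4 := h2.2 r.2 h3
    rw [← hrr'] at h4
    exact h1.1 h4
  rwa [Finset.card_univ, Fintype.card_fin] at h

/-- a single cell on no blocked line completes no group -/
theorem single {ρ : St m} (h1 : ∀ s i, ∃ a, ¬ Hit ρ.O s (i, a)) {z : W m}
    (hz : ∀ s, ¬ Blk ρ.O s (cd z s)) {Z : Finset (W m)} (hZ : Z ⊆ {z}) : ¬ F (ov Z ρ) := by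
  intro hF
  have h2 : ov Z ρ ⊆ insert z ρ.O := by
    intro x hx
    rcases Finset.mem_union.1 (ov_subset Z ρ hx) with h | h
    · have h3 := Finset.mem_singleton.1 (hZ h)
      rw [h3]
      exact Finset.mem_insert_self _ _
    · exact Finset.mem_insert_of_mem h
  obtain ⟨s, i, hi⟩ := F_mono h2 hF
  obtain ⟨a, ha⟩ := h1 s i
  have h3 : cd z s = (i, a) := by
    rcases hit_insert.1 (hi a) with h | h
    · exact h
    · exact absurd h ha
  apply hz s
  rw [h3]
  refine ⟨ha, fun b hb => ?_⟩
  rcases hit_insert.1 (hi b) with h | h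
  · rw [h3] at h
    exact absurd (congrArg Prod.snd h).symm hb
  · exact h

end Pool.Agent.H8.CB

/-!
# Row Cls: how many groups are closed, poor, or rich

Notation: for a side `s` the number of hit lines is at most `O.card` (`card_hit`), and it is the sum
over the groups `i` of `m - (U O s i).card` (`Finset.card_eq_sum_card_fiberwise` or
`Fintype.card_sigma`; it suffices that the sum is at most the number of hit lines: map
`(i, a)` with `a ∉ U O s i` to the hit line `(i, a)`). So `sum_U`.
`closed_card`: each closed group has exactly one unhit line (`h1`), so it contributes `m - 1` to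
the sum, hence `(m - 1) * #closed ≤ O.card ≤ (m - 1) * k`, and `m - 1 > 0`.
`poor_card`: a poor group (`2 * |U| < m`) contributes more than `m / 2`, i.e. `2 * (m - |U|) > m`, so
`m * #poor ≤ 2 * O.card ≤ 2 * (m - 1) * k ≤ 2 * m * k`.
`exists_rich`: otherwise each of the `m` groups contributes at least `k + 1`, hence
`m * (k + 1) ≤ (m - 1) * k`, impossible.
-/

namespace Pool.Agent.H8.CB

variable {m k h T : ℕ}

theorem card_U_le (O : Finset (W m)) (s : Bool) (i : Fin m) : (U O s i).card ≤ m := by
  classical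
  have h := Finset.card_le_univ (U O s i)
  rwa [Fintype.card_fin] at h

theorem sum_U (O : Finset (W m)) (s : Bool) :
    ∑ i : Fin m, (m - (U O s i).card) ≤ O.card := by
  classical
  have h1 : ∀ i : Fin m, m - (U O s i).card =
      ∑ a : Fin m, if Hit O s (i, a) then 1 else 0 := by
    intro i
    have h2 := Finset.card_filter_add_card_filter_not (s := (Finset.univ : Finset (Fin m)))
      (fun a => Hit O s (i, a))
    rw [Finset.card_univ, Fintype.card_fin] at h2
    rw [← Finset.card_filter]
    have h3 : (U O s i).card = (Finset.univ.filter (fun a => ¬ Hit O s (i, a))).card := by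
      unfold U
      congr!
    rw [h3]
    omega
  rw [Finset.sum_congr rfl fun i _ => h1 i]
  rw [← Fintype.sum_prod_type' (f := fun (i a : Fin m) => if Hit O s (i, a) then 1 else 0)]
  rw [← Finset.card_filter]
  have h4 : (Finset.univ.filter (fun x : Fin m × Fin m => Hit O s (x.1, x.2))) ⊆
      O.image (fun x => cd x s) := by
    intro p hp
    rw [Finset.mem_filter] at hp
    obtain ⟨x, hx, hxe⟩ := hp.2
    exact Finset.mem_image.2 ⟨x, hx, hxe⟩
  exact (Finset.card_le_card h4).trans Finset.card_image_le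

theorem Cls_mpos (hp : Par m k h T) : 2 ≤ m := by
  have h1 := hp.hk
  have h2 := hp.hm
  omega

theorem closed_card (hp : Par m k h T) {O : Finset (W m)} (h1 : ∀ s i, ∃ a, ¬ Hit O s (i, a))
    (hO : O.card ≤ T) (s : Bool) :
    (Finset.univ.filter (fun i : Fin m => ¬ 2 ≤ (U O s i).card)).card ≤ k := by
  classical
  have hm := Cls_mpos hp
  have hU : ∀ i, 1 ≤ (U O s i).card := by
    intro i
    obtain ⟨a, ha⟩ := h1 s i
    exact Finset.card_pos.2 ⟨a, by
      unfold U
      exact Finset.mem_filter.2 ⟨Finset.mem_univ _, ha⟩⟩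
  have h2 : (m - 1) * (Finset.univ.filter (fun i : Fin m => ¬ 2 ≤ (U O s i).card)).card ≤
      ∑ i : Fin m, (m - (U O s i).card) := by
    calc (m - 1) * (Finset.univ.filter (fun i : Fin m => ¬ 2 ≤ (U O s i).card)).card
        = ∑ i ∈ Finset.univ.filter (fun i : Fin m => ¬ 2 ≤ (U O s i).card), (m - 1) := by
          rw [Finset.sum_const, smul_eq_mul, mul_comm]
      _ ≤ ∑ i ∈ Finset.univ.filter (fun i : Fin m => ¬ 2 ≤ (U O s i).card), (m - (U O s i).card) := by
          refine Finset.sum_le_sum fun i hi => ?_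
          have h3 := (Finset.mem_filter.1 hi).2
          have h4 := hU i
          omega
      _ ≤ ∑ i : Fin m, (m - (U O s i).card) :=
          Finset.sum_le_sum_of_subset (Finset.filter_subset _ _)
  have h5 : (m - 1) * (Finset.univ.filter (fun i : Fin m => ¬ 2 ≤ (U O s i).card)).card ≤ (m - 1) * k := by
    refine h2.trans ((sum_U O s).trans (hO.trans ?_))
    rw [hp.hT]
  exact Nat.le_of_mul_le_mul_left h5 (by omega)

theorem poor_card (hp : Par m k h T) {O : Finset (W m)} (hO : O.card ≤ T) (s : Bool) :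
    (Finset.univ.filter (fun i : Fin m => 2 * (U O s i).card < m)).card ≤ 2 * k := by
  classical
  have hm := Cls_mpos hp
  have h2 : m * (Finset.univ.filter (fun i : Fin m => 2 * (U O s i).card < m)).card ≤
      2 * ∑ i : Fin m, (m - (U O s i).card) := by
    calc m * (Finset.univ.filter (fun i : Fin m => 2 * (U O s i).card < m)).card
        = ∑ i ∈ Finset.univ.filter (fun i : Fin m => 2 * (U O s i).card < m), m := by
          rw [Finset.sum_const, smul_eq_mul, mul_comm]
      _ ≤ ∑ i ∈ Finset.univ.filter (fun i : Fin m => 2 * (U O s i).card < m), 2 * (m - (U O s i).card) := by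
          refine Finset.sum_le_sum fun i hi => ?_
          have h3 := (Finset.mem_filter.1 hi).2
          omega
      _ ≤ ∑ i : Fin m, 2 * (m - (U O s i).card) :=
          Finset.sum_le_sum_of_subset (Finset.filter_subset _ _)
      _ = 2 * ∑ i : Fin m, (m - (U O s i).card) := (Finset.mul_sum _ _ _).symm
  have h6 : (m - 1) * k ≤ m * k := Nat.mul_le_mul_right k (by omega)
  have h5 : m * (Finset.univ.filter (fun i : Fin m => 2 * (U O s i).card < m)).card ≤ m * (2 * k) := by
    have h7 := (sum_U O s).trans hO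
    rw [hp.hT] at h7
    have h8 : m * (2 * k) = 2 * (m * k) := by ring
    omega
  exact Nat.le_of_mul_le_mul_left h5 (by omega)

theorem exists_rich (hp : Par m k h T) {O : Finset (W m)} (hO : O.card ≤ T) (s : Bool) :
    ∃ i : Fin m, m ≤ (U O s i).card + k := by
  classical
  have hm := Cls_mpos hp
  by_contra hcon
  push Not at hcon
  have h2 : m * (k + 1) ≤ ∑ i : Fin m, (m - (U O s i).card) := by
    calc m * (k + 1) = ∑ _i : Fin m, (k + 1) := by
          rw [Finset.sum_const, Finset.card_univ, Fintype.card_fin, smul_eq_mul]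
      _ ≤ _ := by
          refine Finset.sum_le_sum fun i _ => ?_
          have := hcon i
          omega
  have h7 := h2.trans ((sum_U O s).trans hO)
  rw [hp.hT] at h7
  have h6 : (m - 1) * k ≤ m * k := Nat.mul_le_mul_right k (by omega)
  have h8 : m * (k + 1) = m * k + m := by ring
  omega

end Pool.Agent.H8.CB

/-!
# Row Unr: many unread cells on every line that is not hit and not blocked

`fre ρ s r`: the unread cells on the line `r` of side `s` whose other line is not blocked.
`fre_card`: the `m ^ 2` cells of the line (`card_line`) are: read with the other line not blocked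
(`cnt ρ s r ≤ t s r < h` of them), with the other line blocked (at most `m`, by `card_blk` and
injectivity of `fun x => cd x (!s)` on the line, `eq_of_cd`), and `fre ρ s r`. So
`m ^ 2 ≤ (fre ρ s r).card + h + m`; `Par` gives `4 * h ≤ m ^ 2` and `m ≥ 1280`.
`fre2_card`: the cells of `fre ρ s r` whose other line is not hit: one loses at most
`card_hit ≤ ρ.O.card ≤ T` more, and `T ≤ m * k ≤ m ^ 2 / 256`. So at least
`m ^ 2 - m ^ 2 / 4 - m - m ^ 2 / 256 > m ^ 2 / 2`.
`fre_avoid`: for every `c : Fin m → Fin m` at least `m ^ 2 / 2` cells of `fre ρ s r` have their other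
line not of the form `(j, c j)` (at most `m` cells are lost, again by injectivity).
`fre_core`: a cell of `fre ρ s r` is unread, its lines are not blocked, and `r` is not hit.
-/

namespace Pool.Agent.H8.CB

variable {m k h T : ℕ}

open Classical in
/-- the unread cells on the line `r` of side `s` whose other line is not blocked. -/
noncomputable def fre (ρ : St m) (s : Bool) (r : R m) : Finset (W m) :=
  Finset.univ.filter (fun x => cd x s = r ∧ x ∉ ρ.S ∧ ¬ Blk ρ.O (!s) (cd x (!s)))

theorem fre_card {t : Bool → R m → ℕ} {ρ : St m} (ht : ∀ s r, t s r < h)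
    (hg : Good t ρ) {s : Bool} {r : R m} (hu : ¬ Hit ρ.O s r) (hb : ¬ Blk ρ.O s r) :
    m ^ 2 ≤ (fre ρ s r).card + h + m := by
  classical
  have h1 : (Finset.univ.filter (fun x : W m => cd x s = r)) ⊆
      fre ρ s r ∪ ρ.S.filter (fun x => cd x s = r ∧ ¬ Blk ρ.O (!s) (cd x (!s))) ∪
        Finset.univ.filter (fun x => cd x s = r ∧ Blk ρ.O (!s) (cd x (!s))) := by
    intro x hx
    have hx1 : cd x s = r := (Finset.mem_filter.1 hx).2
    by_cases hB : Blk ρ.O (!s) (cd x (!s))
    · exact Finset.mem_union_right _ (Finset.mem_filter.2 ⟨Finset.mem_univ _, hx1, hB⟩)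
    · by_cases hS : x ∈ ρ.S
      · exact Finset.mem_union_left _ (Finset.mem_union_right _ (Finset.mem_filter.2 ⟨hS, hx1, hB⟩))
      · refine Finset.mem_union_left _ (Finset.mem_union_left _ ?_)
        unfold fre
        exact Finset.mem_filter.2 ⟨Finset.mem_univ _, hx1, hS, hB⟩
  have h2 := Finset.card_le_card h1
  rw [card_line] at h2
  have h3 : (Finset.univ.filter
      (fun x : W m => cd x s = r ∧ Blk ρ.O (!s) (cd x (!s)))).card ≤ m := by
    refine le_trans ?_ (card_blk ρ.O (!s))
    refine Finset.card_le_card_of_injOn (fun x => cd x (!s)) ?_ ?_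
    · intro x hx
      have hx' := (Finset.mem_filter.1 hx).2
      exact Finset.mem_filter.2 ⟨Finset.mem_univ _, hx'.2⟩
    · intro x hx y hy hxy
      have hx' := (Finset.mem_filter.1 hx).2
      have hy' := (Finset.mem_filter.1 hy).2
      exact eq_of_cd s (hx'.1.trans hy'.1.symm) hxy
  have h4 : (ρ.S.filter (fun x => cd x s = r ∧ ¬ Blk ρ.O (!s) (cd x (!s)))).card ≤ t s r :=
    hg.2.2 s r hu hb
  have h5 := ht s r
  have h6 := Finset.card_union_le
    (fre ρ s r ∪ ρ.S.filter (fun x => cd x s = r ∧ ¬ Blk ρ.O (!s) (cd x (!s))))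
    (Finset.univ.filter (fun x => cd x s = r ∧ Blk ρ.O (!s) (cd x (!s))))
  have h7 := Finset.card_union_le (fre ρ s r)
    (ρ.S.filter (fun x => cd x s = r ∧ ¬ Blk ρ.O (!s) (cd x (!s))))
  omega

open Classical in
theorem fre2_card (hp : Par m k h T) {t : Bool → R m → ℕ} {ρ : St m} (ht : ∀ s r, t s r < h)
    (hg : Good t ρ) (hO : ρ.O.card ≤ T) {s : Bool} {r : R m} (hu : ¬ Hit ρ.O s r)
    (hb : ¬ Blk ρ.O s r) :
    m ^ 2 < 2 * ((fre ρ s r).filter (fun x => ¬ Hit ρ.O (!s) (cd x (!s)))).card := by
  have h1 := fre_card ht hg hu hb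
  have h2 : ((fre ρ s r).filter (fun x => Hit ρ.O (!s) (cd x (!s)))).card ≤ ρ.O.card := by
    refine le_trans ?_ (card_hit ρ.O (!s))
    refine Finset.card_le_card_of_injOn (fun x => cd x (!s)) ?_ ?_
    · intro x hx
      have hx' := (Finset.mem_filter.1 hx).2
      exact Finset.mem_filter.2 ⟨Finset.mem_univ _, hx'⟩
    · intro x hx y hy hxy
      have hx' := (Finset.mem_filter.1 (Finset.mem_filter.1 hx).1).2
      have hy' := (Finset.mem_filter.1 (Finset.mem_filter.1 hy).1).2
      exact eq_of_cd s (hx'.1.trans hy'.1.symm) hxy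
  have h3 := Finset.card_filter_add_card_filter_not (s := fre ρ s r)
    (fun x => Hit ρ.O (!s) (cd x (!s)))
  have hk := hp.hk
  have hm := hp.hm
  have hh := hp.hh
  have hT := hp.hT
  have h4 : (m - 1) * k ≤ m * k := Nat.mul_le_mul_right _ (Nat.sub_le _ _)
  have h5 : 256 * (m * k) ≤ m ^ 2 := by nlinarith
  have h6 : 1280 * m ≤ m ^ 2 := by nlinarith
  have h7 : 4 * (m ^ 2 / 4) ≤ m ^ 2 := Nat.mul_div_le _ _
  have h8 : 0 < m := by omega
  have h9 : 0 < m ^ 2 := by positivity
  rw [← hT] at h4
  omega

open Classical in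
theorem fre_avoid (hp : Par m k h T) {t : Bool → R m → ℕ} {ρ : St m} (ht : ∀ s r, t s r < h)
    (hg : Good t ρ) {s : Bool} {r : R m} (hu : ¬ Hit ρ.O s r) (hb : ¬ Blk ρ.O s r)
    (c : Fin m → Fin m) :
    m ^ 2 / 2 ≤ ((fre ρ s r).filter
      (fun x => (cd x (!s)).2 ≠ c (cd x (!s)).1)).card := by
  have h1 := fre_card ht hg hu hb
  have h2 : ((fre ρ s r).filter (fun x => (cd x (!s)).2 = c (cd x (!s)).1)).card ≤ m := by
    have h : ((fre ρ s r).filter (fun x => (cd x (!s)).2 = c (cd x (!s)).1)).card ≤
        (Finset.univ : Finset (Fin m)).card := by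
      refine Finset.card_le_card_of_injOn (fun x => (cd x (!s)).1)
        (fun _ _ => Finset.mem_univ _) ?_
      intro x hx y hy hxy
      have hx' := Finset.mem_filter.1 hx
      have hy' := Finset.mem_filter.1 hy
      have hx2 := (Finset.mem_filter.1 hx'.1).2
      have hy2 := (Finset.mem_filter.1 hy'.1).2
      have hxy' : (cd x (!s)).1 = (cd y (!s)).1 := hxy
      have hq : (cd x (!s)).2 = (cd y (!s)).2 := by
        rw [hx'.2, hy'.2, hxy']
      exact eq_of_cd s (hx2.1.trans hy2.1.symm) (Prod.ext hxy' hq)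
    rwa [Finset.card_univ, Fintype.card_fin] at h
  have h3 := Finset.card_filter_add_card_filter_not (s := fre ρ s r)
    (fun x => (cd x (!s)).2 = c (cd x (!s)).1)
  have hk := hp.hk
  have hm := hp.hm
  have hh := hp.hh
  have h6 : 1280 * m ≤ m ^ 2 := by nlinarith
  have h7 : 4 * (m ^ 2 / 4) ≤ m ^ 2 := Nat.mul_div_le _ _
  have h8 : 2 * (m ^ 2 / 2) ≤ m ^ 2 := Nat.mul_div_le _ _
  have h10 : ((fre ρ s r).filter (fun x => ¬ (cd x (!s)).2 = c (cd x (!s)).1)).card =
      ((fre ρ s r).filter (fun x => (cd x (!s)).2 ≠ c (cd x (!s)).1)).card := rfl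
  omega

theorem fre_core {ρ : St m} {s : Bool} {r : R m} (hu : ¬ Hit ρ.O s r) (hb : ¬ Blk ρ.O s r)
    {x : W m} (hx : x ∈ fre ρ s r) : Core ρ x ∧ cd x s = r := by
  classical
  unfold fre at hx
  obtain ⟨h1, h2, h3⟩ := (Finset.mem_filter.1 hx).2
  refine ⟨⟨h2, ?_, s, ?_⟩, h1⟩
  · intro s'
    by_cases hs : s' = s
    · rw [hs, h1]
      exact hb
    · have hs' : s' = !s := by
        cases s <;> cases s' <;> simp_all
      rw [hs']
      exact h3
  · rw [h1]
    exact hu

end Pool.Agent.H8.CB
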