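import Pool.Agent.H8.CB.Stmt

/-!
# The grid function and the adversary states
-/

namespace Pool.Agent.H8.CB

/-- A line: (group, index in the group). There are `m * m` rows and `m * m` columns. -/
abbrev R (m : ℕ) := Fin m × Fin m

/-- A cell of the grid: (row, column). -/
abbrev W (m : ℕ) := R m × R m

variable {m : ℕ}

/-- the line of side `s` through the cell `x` (`false` rows, `true` columns). -/
def cd (x : W m) (s : Bool) : R m := if s then x.2 else x.1

/-- the cell on the line `r` of side `s` and on the line `r'` of the other side. -/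
def cell (s : Bool) (r r' : R m) : W m := if s then (r', r) else (r, r')

/-- `Z` hits the line `r` of side `s`. -/
def Hit (Z : Finset (W m)) (s : Bool) (r : R m) : Prop := ∃ x ∈ Z, cd x s = r

/-- all the lines of the group `i` of side `s` are hit. -/
def Full (Z : Finset (W m)) (s : Bool) (i : Fin m) : Prop := ∀ a : Fin m, Hit Z s (i, a)

/-- the grid function. -/
def F (Z : Finset (W m)) : Prop := ∃ s i, Full Z s i

/-- the minterms: for a side `s`, a group `i` and a choice `g`, one cell on each line of the group. -/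
def mint (s : Bool) (i : Fin m) (g : Fin m → R m) : Finset (W m) :=
  Finset.univ.image (fun a => cell s (i, a) (g a))

/-- the maxterms: one line of each group, union. -/
def maxt (g : Bool → Fin m → Fin m) : Finset (W m) :=
  Finset.univ.filter (fun x => ∃ s, (cd x s).2 = g s (cd x s).1)

/-- the hypergraph of all minterms. -/
def AA (m : ℕ) : Finset (Finset (W m)) :=
  Finset.univ.image (fun p : Bool × Fin m × (Fin m → R m) => mint p.1 p.2.1 p.2.2)

/-- the hypergraph of all maxterms. -/
def XX (m : ℕ) : Finset (Finset (W m)) :=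
  Finset.univ.image (fun g : Bool → Fin m → Fin m => maxt g)

/-- A state: the set `S` of the cells that have been read and the set `O` of the ones. -/
structure St (m : ℕ) where
  S : Finset (W m)
  O : Finset (W m)

/-- the total assignment `Z` overwritten by the state. -/
def ov (Z : Finset (W m)) (ρ : St m) : Finset (W m) := (Z \ ρ.S) ∪ ρ.O

/-- the line `r` of side `s` is blocked: it is the only line of its group that is not hit. -/
def Blk (O : Finset (W m)) (s : Bool) (r : R m) : Prop :=
  ¬ Hit O s r ∧ ∀ a, a ≠ r.2 → Hit O s (r.1, a)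

open Classical in
/-- the lines of the group `i` of side `s` that are not hit. -/
noncomputable def U (O : Finset (W m)) (s : Bool) (i : Fin m) : Finset (Fin m) :=
  Finset.univ.filter (fun a => ¬ Hit O s (i, a))

open Classical in
/-- the number of cells on the line `r` of side `s` that have been read and whose other line is not
blocked. -/
noncomputable def cnt (ρ : St m) (s : Bool) (r : R m) : ℕ :=
  (ρ.S.filter (fun x => cd x s = r ∧ ¬ Blk ρ.O (!s) (cd x (!s)))).card

/-- the invariant. -/
def Good (t : Bool → R m → ℕ) (ρ : St m) : Prop :=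
  ρ.O ⊆ ρ.S ∧ (∀ s i, ∃ a, ¬ Hit ρ.O s (i, a)) ∧
  ∀ s r, ¬ Hit ρ.O s r → ¬ Blk ρ.O s r → cnt ρ s r ≤ t s r

/-- the answer of the adversary with clocks `t`. -/
def ans (t : Bool → R m → ℕ) (ρ : St m) (x : W m) : Prop :=
  x ∈ ρ.O ∨ (x ∉ ρ.S ∧ (∀ s, ¬ Blk ρ.O s (cd x s)) ∧
    ∃ s, ¬ Hit ρ.O s (cd x s) ∧ cnt ρ s (cd x s) = t s (cd x s))

/-- answer one. -/
def one (ρ : St m) (x : W m) : St m := ⟨insert x ρ.S, insert x ρ.O⟩

/-- answer zero on all the cells of `Y` that are not yet read. -/
def zer (ρ : St m) (Y : Finset (W m)) : St m := ⟨ρ.S ∪ Y, ρ.O⟩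

/-- a core cell of the state: unread, on no blocked line, and on some line that is not hit. -/
def Core (ρ : St m) (x : W m) : Prop :=
  x ∉ ρ.S ∧ (∀ s, ¬ Blk ρ.O s (cd x s)) ∧ ∃ s, ¬ Hit ρ.O s (cd x s)

/-- The subproblem `Q` is compatible with the state. -/
def Compat (Q : Sub (W m)) (ρ : St m) : Prop :=
  ∀ Z : Finset (W m), (∀ D ∈ Q.1, D ⊆ Z → F (ov Z ρ)) ∧ (∀ D ∈ Q.2, Disjoint D Z → ¬ F (ov Z ρ))

/-- the parameters. -/
structure Par (m k h T : ℕ) : Prop where
  hk : 5 ≤ k
  hm : 256 * k ≤ m
  hh : h = m ^ 2 / 4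
  hT : T = (m - 1) * k

end Pool.Agent.H8.CB
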