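import Pool.Agent.H8.CB.Base

/-!
# Row Dua: `XX m` is the transversal hypergraph of `AA m`

`trans_AA`: a set `S` meets every member of `AA m` iff for all `s, i` it contains a whole line of
the group `(s, i)`. If for every `a` there is a cell `x a` on the line `(i, a)` (side `s`) that is not
in `S`, then `mint s i (fun a => cd (x a) (!s))` consists of the cells `x a` (`cell_cd`) and does not
meet `S`. Conversely the member `mint s i g` has the cell `cell s (i, a) (g a)` on each line `(i, a)`.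
`maxt_le`: let `maxt g ⊆ maxt g'`, `2 ≤ m`. Given `s, i`, choose `b ≠ g' (!s) i` and the cell
`x = cell s (i, g s i) (i, b)`. It is in `maxt g`, so in `maxt g'`, so `g s i = g' s i` (the other
alternative is `b = g' (!s) i`).
`isTr_AA`: by `trans_AA` (and choice) the sets meeting all members of `AA m` are those that contain
some `maxt g`. A minimal one is equal to the `maxt g` it contains (which itself meets all
members). And `maxt g` is minimal: a smaller one would contain some `maxt g'`, `g' = g` by `maxt_le`.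
`card_XX`: `maxt` is injective, and there are `(m ^ m) ^ 2` functions `Bool → Fin m → Fin m`.
-/

namespace Pool.Agent.H8.CB

variable {m : ℕ}

theorem trans_AA (S : Finset (W m)) : (∀ E ∈ AA m, ∃ v ∈ E, v ∈ S) ↔
    ∀ s (i : Fin m), ∃ a : Fin m, ∀ x : W m, cd x s = (i, a) → x ∈ S := by
  constructor
  · intro h s i
    by_contra hc
    push Not at hc
    choose x hx hxS using hc
    have hE : mint s i (fun a => cd (x a) (!s)) ∈ AA m :=
      Finset.mem_image.2 ⟨(s, i, fun a => cd (x a) (!s)), Finset.mem_univ _, rfl⟩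
    obtain ⟨v, hv, hvS⟩ := h _ hE
    obtain ⟨a, _, ha⟩ := Finset.mem_image.1 hv
    have h1 : cell s (i, a) (cd (x a) (!s)) = x a := by
      rw [← hx a, cell_cd]
    rw [h1] at ha
    exact hxS a (by rw [ha]; exact hvS)
  · intro h E hE
    obtain ⟨⟨s, i, g⟩, _, rfl⟩ := Finset.mem_image.1 hE
    obtain ⟨a, ha⟩ := h s i
    exact ⟨cell s (i, a) (g a), Finset.mem_image.2 ⟨a, Finset.mem_univ _, rfl⟩, ha _ (cd_cell _ _ _)⟩

theorem Dua_mem {g : Bool → Fin m → Fin m} {x : W m} :
    x ∈ maxt g ↔ ∃ s, (cd x s).2 = g s (cd x s).1 := by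
  unfold maxt
  rw [Finset.mem_filter]
  exact ⟨fun h => h.2, fun h => ⟨Finset.mem_univ _, h⟩⟩

theorem maxt_le (hm : 2 ≤ m) {g g' : Bool → Fin m → Fin m} (h : maxt g ⊆ maxt g') : g = g' := by
  funext s i
  obtain ⟨b, hb⟩ : ∃ b : Fin m, b ≠ g' (!s) i := by
    have : Nontrivial (Fin m) := Fin.nontrivial_iff_two_le.2 hm
    exact exists_ne _
  have h1 : cell s (i, g s i) (i, b) ∈ maxt g := Dua_mem.2 ⟨s, by rw [cd_cell]⟩
  obtain ⟨s', hs'⟩ := Dua_mem.1 (h h1)
  rcases (by cases s <;> cases s' <;> simp : s' = s ∨ s' = !s) with e | e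
  · subst e
    rw [cd_cell] at hs'
    exact hs'
  · subst e
    rw [cd_cell_other] at hs'
    exact absurd hs' hb

theorem Dua_iff (S : Finset (W m)) : (∀ E ∈ AA m, ∃ v ∈ E, v ∈ S) ↔
    ∃ g : Bool → Fin m → Fin m, maxt g ⊆ S := by
  rw [trans_AA]
  constructor
  · intro h
    choose g hg using h
    refine ⟨g, fun x hx => ?_⟩
    obtain ⟨s, hs⟩ := Dua_mem.1 hx
    exact hg s (cd x s).1 x (Prod.ext rfl hs)
  · rintro ⟨g, hg⟩ s i
    exact ⟨g s i, fun x hx => hg (Dua_mem.2 ⟨s, by rw [hx]⟩)⟩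

theorem isTr_AA (hm : 2 ≤ m) : IsTr (AA m) (XX m) := by
  intro S
  constructor
  · intro hS
    obtain ⟨g, _, rfl⟩ := Finset.mem_image.1 hS
    refine ⟨(Dua_iff _).2 ⟨g, Finset.Subset.refl _⟩, fun S' hS' hc => ?_⟩
    obtain ⟨g', hg'⟩ := (Dua_iff _).1 hc
    have h1 := maxt_le hm (hg'.trans hS'.1)
    rw [h1] at hg'
    exact hS'.2 hg'
  · rintro ⟨h1, h2⟩
    obtain ⟨g, hg⟩ := (Dua_iff _).1 h1
    by_cases hc : S ⊆ maxt g
    · exact Finset.mem_image.2 ⟨g, Finset.mem_univ _, Finset.Subset.antisymm hg hc⟩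
    · exact absurd ((Dua_iff _).2 ⟨g, Finset.Subset.refl _⟩) (h2 _ ⟨hg, hc⟩)

theorem card_XX (hm : 2 ≤ m) : (XX m).card = m ^ (2 * m) := by
  unfold XX
  rw [Finset.card_image_of_injective, Finset.card_univ]
  · rw [Fintype.card_fun, Fintype.card_fun, Fintype.card_fin, Fintype.card_bool, ← pow_mul, mul_comm]
  · intro g g' h
    exact maxt_le hm (le_of_eq h)

end Pool.Agent.H8.CB

/-!
# Row Dub: `AA m` is the transversal hypergraph of `XX m`

`trans_XX`: a set `S` meets every member of `XX m` iff `F S`. If `F S` with the full group `(s, i)`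
and `g` is given, then `S` hits the line `(i, g s i)`, whose cells are in `maxt g`. If `¬ F S` choose
for every `(s, i)` a line `(i, g s i)` that is not hit by `S`; then `maxt g` does not meet `S`.
`F_iff`: `F S` iff `S` contains some `mint s i g`: choose a cell of `S` on each line `(i, a)` and let
`g a` be its other line (`cell_cd`).
`card_mint`: `a ↦ cell s (i, a) (g a)` is injective (`cd_cell`), so `(mint s i g).card = m`.
`isTr_XX`: a minimal `S` with `F S` contains some `mint s i g`, and is equal to it since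
`F (mint s i g)`. Conversely if `S' ⊂ mint s i g` and `F S'`, then `S'` contains a `mint s' i' g'`, which
has `m` elements, but `S'.card < m`.
`card_AA`: the image of a type with `2 * (m * (m ^ 2) ^ m)` elements.
-/

namespace Pool.Agent.H8.CB

variable {m : ℕ}

theorem trans_XX (S : Finset (W m)) : (∀ E ∈ XX m, ∃ v ∈ E, v ∈ S) ↔ F S := by
  constructor
  · intro h
    by_contra hF
    have h1 : ∀ (s : Bool) (i : Fin m), ∃ a : Fin m, ¬ Hit S s (i, a) := by
      intro s i
      by_contra hc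
      push Not at hc
      exact hF ⟨s, i, hc⟩
    choose g hg using h1
    obtain ⟨v, hv, hvS⟩ := h (maxt g) (Finset.mem_image_of_mem _ (Finset.mem_univ _))
    obtain ⟨s, hs⟩ := (Finset.mem_filter.1 hv).2
    refine hg s (cd v s).1 ⟨v, hvS, ?_⟩
    rw [← hs]
  · rintro ⟨s, i, hf⟩ E hE
    obtain ⟨g, _, rfl⟩ := Finset.mem_image.1 hE
    obtain ⟨x, hx, hxs⟩ := hf (g s i)
    refine ⟨x, Finset.mem_filter.2 ⟨Finset.mem_univ _, s, ?_⟩, hx⟩
    rw [hxs]

theorem F_iff (S : Finset (W m)) : F S ↔ ∃ s i g, mint s i g ⊆ S := by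
  constructor
  · rintro ⟨s, i, hf⟩
    choose x hx hxs using hf
    refine ⟨s, i, fun a => cd (x a) (!s), ?_⟩
    intro y hy
    obtain ⟨a, _, rfl⟩ := Finset.mem_image.1 hy
    rw [← hxs a, cell_cd]
    exact hx a
  · rintro ⟨s, i, g, hg⟩
    refine ⟨s, i, fun a => ⟨cell s (i, a) (g a), ?_, cd_cell s _ _⟩⟩
    exact hg (Finset.mem_image_of_mem _ (Finset.mem_univ a))

theorem card_mint (s : Bool) (i : Fin m) (g : Fin m → R m) : (mint s i g).card = m := by
  unfold mint
  rw [Finset.card_image_of_injective, Finset.card_univ, Fintype.card_fin]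
  intro a b hab
  have h1 := congrArg (fun x => cd x s) hab
  simp only [cd_cell] at h1
  exact (Prod.mk.inj h1).2

theorem isTr_XX : IsTr (XX m) (AA m) := by
  intro S
  constructor
  · intro hS
    obtain ⟨⟨s, i, g⟩, _, rfl⟩ := Finset.mem_image.1 hS
    refine ⟨(trans_XX _).2 ((F_iff _).2 ⟨s, i, g, Finset.Subset.refl _⟩), ?_⟩
    intro S' hS' h
    obtain ⟨s', i', g', hsub⟩ := (F_iff _).1 ((trans_XX _).1 h)
    have h1 := Finset.card_le_card hsub
    have h2 := Finset.card_lt_card hS'
    rw [card_mint] at h1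
    have h3 : (mint s i g).card = m := card_mint s i g
    simp only at h2
    omega
  · rintro ⟨h1, h2⟩
    obtain ⟨s, i, g, hsub⟩ := (F_iff _).1 ((trans_XX _).1 h1)
    have h3 : mint s i g = S := by
      by_contra hne
      exact h2 (mint s i g) (hsub.ssubset_of_ne hne)
        ((trans_XX _).2 ((F_iff _).2 ⟨s, i, g, Finset.Subset.refl _⟩))
    rw [← h3]
    exact Finset.mem_image.2 ⟨⟨s, i, g⟩, Finset.mem_univ _, rfl⟩

theorem card_AA : (AA m).card ≤ 2 * (m * (m ^ 2) ^ m) := by
  unfold AA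
  refine Finset.card_image_le.trans (le_of_eq ?_)
  rw [Finset.card_univ, Fintype.card_prod, Fintype.card_prod, Fintype.card_bool, Fintype.card_fin,
    Fintype.card_fun, card_R, Fintype.card_fin]

end Pool.Agent.H8.CB
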