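import Mathlib

/-!
# Branching with caching, splitting and oracles for the dualization problem (definitions)

`V` is a finite vertex set and a hypergraph is a `Finset (Finset V)`. A subproblem is a pair
`Q = (Q.1, Q.2)` of hypergraphs on `V`; to solve it means to certify `Complete Q`.
-/

namespace Pool.Agent.H8.CB

variable {V : Type}

/-- `S` is a minimal transversal of `A`. -/
def IsMinTransversal (A : Finset (Finset V)) (S : Finset V) : Prop :=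
  (∀ E ∈ A, ∃ v ∈ E, v ∈ S) ∧ ∀ S' : Finset V, S' ⊂ S → ¬ ∀ E ∈ A, ∃ v ∈ E, v ∈ S'

/-- `X = tr(A)`. -/
def IsTr (A X : Finset (Finset V)) : Prop := ∀ S : Finset V, S ∈ X ↔ IsMinTransversal A S

/-- A subproblem. -/
abbrev Sub (V : Type) := Finset (Finset V) × Finset (Finset V)

/-- Every set `Z` of vertices contains a member of `Q.1` or misses a member of `Q.2`.
(If every member of `Q.1` meets every member of `Q.2`, this says that `Q` is a dual pair.) -/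
def Complete (Q : Sub V) : Prop :=
  ∀ Z : Finset V, (∃ E ∈ Q.1, E ⊆ Z) ∨ ∃ T ∈ Q.2, Disjoint T Z

/-- The subproblems that are solved by the oracle, at no cost: the trivial ones, and all
correct ones in which one of the two sides has fewer than `s` members. -/
def Free (s : ℝ) (Q : Sub V) : Prop :=
  ∅ ∈ Q.1 ∨ ∅ ∈ Q.2 ∨ (Complete Q ∧ ((Q.1.card : ℝ) < s ∨ (Q.2.card : ℝ) < s))

/-- Branching on the vertex `x`: `Q0` is (a weakening of) the restriction of `Q` to the sets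
that do not contain `x`, and `Q1` of the restriction to the sets that contain `x`. -/
def Branch [DecidableEq V] (Q Q0 Q1 : Sub V) (x : V) : Prop :=
  (∀ D ∈ Q0.1, ∃ E ∈ Q.1, x ∉ E ∧ E ⊆ D) ∧ (∀ D ∈ Q0.2, ∃ T ∈ Q.2, T.erase x ⊆ D) ∧
  (∀ D ∈ Q1.1, ∃ E ∈ Q.1, E.erase x ⊆ D) ∧ (∀ D ∈ Q1.2, ∃ T ∈ Q.2, x ∉ T ∧ T ⊆ D)

/-- No vertex occurs both in `Q0` and in `Q1`. -/
def Apart (Q0 Q1 : Sub V) : Prop :=
  ∀ D0 : Finset V, (D0 ∈ Q0.1 ∨ D0 ∈ Q0.2) → ∀ D1 : Finset V, (D1 ∈ Q1.1 ∨ D1 ∈ Q1.2) →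
    Disjoint D0 D1

/-- `Q` splits into the subproblems `Q0` and `Q1` on disjoint vertex sets (disjunction). -/
def OrSplit [DecidableEq V] (Q Q0 Q1 : Sub V) : Prop :=
  Apart Q0 Q1 ∧ (∀ D ∈ Q0.1 ∪ Q1.1, ∃ E ∈ Q.1, E ⊆ D) ∧
  (∀ D0 ∈ Q0.2, ∀ D1 ∈ Q1.2, ∃ T ∈ Q.2, T ⊆ D0 ∪ D1)

/-- `Q` splits into the subproblems `Q0` and `Q1` on disjoint vertex sets (conjunction). -/
def AndSplit [DecidableEq V] (Q Q0 Q1 : Sub V) : Prop :=
  Apart Q0 Q1 ∧ (∀ D0 ∈ Q0.1, ∀ D1 ∈ Q1.1, ∃ E ∈ Q.1, E ⊆ D0 ∪ D1) ∧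
  (∀ D ∈ Q0.2 ∪ Q1.2, ∃ T ∈ Q.2, T ⊆ D)

/-- The subproblem `Q` is available at step `i`: it is solved by the oracle, or it has been
solved at an earlier step. -/
def Avail {L : ℕ} (s : ℝ) (P : Fin L → Sub V) (i : Fin L) (Q : Sub V) : Prop :=
  Free s Q ∨ ∃ j, j < i ∧ P j = Q

/-- `P 0, P 1, ..., P (L-1)` is a run: each subproblem is solved by the oracle or is reduced,
by branching on some vertex or by splitting, to two subproblems that are available. -/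
def IsRun [DecidableEq V] {L : ℕ} (s : ℝ) (P : Fin L → Sub V) : Prop :=
  ∀ i, Free s (P i) ∨ ∃ Q0 Q1 : Sub V, Avail s P i Q0 ∧ Avail s P i Q1 ∧
    ((∃ x, Branch (P i) Q0 Q1 x) ∨ OrSplit (P i) Q0 Q1 ∨ AndSplit (P i) Q0 Q1)

end Pool.Agent.H8.CB
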