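import Pool.Agent.H8.CB.Base
import Pool.Agent.H8.CB.Stmt

/-!
# Row Snd: soundness of the rules

Proofs. `complete_of_free`: if `∅ ∈ Q.1` then `E = ∅ ⊆ Z`; if `∅ ∈ Q.2` then `T = ∅` is disjoint
from `Z`; otherwise by definition.
`complete_branch`: let `Z` be given. If `x ∈ Z` apply completeness of `Q1` to `Z`: either a
`D ∈ Q1.1` with `D ⊆ Z`, then `E.erase x ⊆ D ⊆ Z` for some `E ∈ Q.1`, and `E ⊆ Z` because `x ∈ Z`;
or a `D ∈ Q1.2` disjoint from `Z`, then `T ⊆ D` for some `T ∈ Q.2`. If `x ∉ Z` use `Q0`: `D ⊆ Z`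
gives `E ⊆ D`, and `D` disjoint from `Z` gives `T.erase x ⊆ D`, so `T` is disjoint from `Z` since
`x ∉ Z`.
`complete_or`: if `Z` contains a member of `Q0.1` or `Q1.1` it contains a member of `Q.1`;
otherwise it misses `D0 ∈ Q0.2` and `D1 ∈ Q1.2`, hence their union, hence some `T ∈ Q.2`.
`complete_and`: dual. `complete_run`: strong induction on `i` (`Fin.induction` or
`i.val` with `Nat.strong_induction_on`): an available subproblem is complete, being free or an
earlier `P j`.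
-/

namespace Pool.Agent.H8.CB

variable {V : Type}

theorem complete_of_free {s : ℝ} {Q : Sub V} (h : Free s Q) : Complete Q := by
  intro Z
  rcases h with h | h | h
  · exact Or.inl ⟨∅, h, Finset.empty_subset Z⟩
  · exact Or.inr ⟨∅, h, Finset.disjoint_empty_left Z⟩
  · exact h.1 Z

variable [DecidableEq V]

theorem complete_branch {Q Q0 Q1 : Sub V} {x : V} (h : Branch Q Q0 Q1 x)
    (h0 : Complete Q0) (h1 : Complete Q1) : Complete Q := by
  intro Z
  obtain ⟨b1, b2, b3, b4⟩ := h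
  by_cases hx : x ∈ Z
  · rcases h1 Z with ⟨D, hD, hDZ⟩ | ⟨D, hD, hDZ⟩
    · obtain ⟨E, hE, hED⟩ := b3 D hD
      refine Or.inl ⟨E, hE, fun y hy => ?_⟩
      by_cases hyx : y = x
      · rw [hyx]; exact hx
      · exact hDZ (hED (Finset.mem_erase.2 ⟨hyx, hy⟩))
    · obtain ⟨T, hT, _, hTD⟩ := b4 D hD
      exact Or.inr ⟨T, hT, Finset.disjoint_of_subset_left hTD hDZ⟩
  · rcases h0 Z with ⟨D, hD, hDZ⟩ | ⟨D, hD, hDZ⟩
    · obtain ⟨E, hE, _, hED⟩ := b1 D hD
      exact Or.inl ⟨E, hE, hED.trans hDZ⟩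
    · obtain ⟨T, hT, hTD⟩ := b2 D hD
      refine Or.inr ⟨T, hT, ?_⟩
      rw [Finset.disjoint_left]
      intro y hy hyZ
      by_cases hyx : y = x
      · rw [hyx] at hyZ; exact hx hyZ
      · exact Finset.disjoint_left.1 hDZ (hTD (Finset.mem_erase.2 ⟨hyx, hy⟩)) hyZ

theorem complete_or {Q Q0 Q1 : Sub V} (h : OrSplit Q Q0 Q1)
    (h0 : Complete Q0) (h1 : Complete Q1) : Complete Q := by
  intro Z
  obtain ⟨_, b1, b2⟩ := h
  rcases h0 Z with ⟨D, hD, hDZ⟩ | ⟨D0, hD0, hDZ0⟩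
  · obtain ⟨E, hE, hED⟩ := b1 D (Finset.mem_union_left _ hD)
    exact Or.inl ⟨E, hE, hED.trans hDZ⟩
  rcases h1 Z with ⟨D, hD, hDZ⟩ | ⟨D1, hD1, hDZ1⟩
  · obtain ⟨E, hE, hED⟩ := b1 D (Finset.mem_union_right _ hD)
    exact Or.inl ⟨E, hE, hED.trans hDZ⟩
  obtain ⟨T, hT, hTD⟩ := b2 D0 hD0 D1 hD1
  exact Or.inr ⟨T, hT, Finset.disjoint_of_subset_left hTD (Finset.disjoint_union_left.2 ⟨hDZ0, hDZ1⟩)⟩

theorem complete_and {Q Q0 Q1 : Sub V} (h : AndSplit Q Q0 Q1)
    (h0 : Complete Q0) (h1 : Complete Q1) : Complete Q := by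
  intro Z
  obtain ⟨_, b1, b2⟩ := h
  rcases h0 Z with ⟨D0, hD0, hDZ0⟩ | ⟨D, hD, hDZ⟩
  · rcases h1 Z with ⟨D1, hD1, hDZ1⟩ | ⟨D, hD, hDZ⟩
    · obtain ⟨E, hE, hED⟩ := b1 D0 hD0 D1 hD1
      exact Or.inl ⟨E, hE, hED.trans (Finset.union_subset hDZ0 hDZ1)⟩
    · obtain ⟨T, hT, hTD⟩ := b2 D (Finset.mem_union_right _ hD)
      exact Or.inr ⟨T, hT, Finset.disjoint_of_subset_left hTD hDZ⟩
  · obtain ⟨T, hT, hTD⟩ := b2 D (Finset.mem_union_left _ hD)
    exact Or.inr ⟨T, hT, Finset.disjoint_of_subset_left hTD hDZ⟩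

theorem complete_run {L : ℕ} {s : ℝ} {P : Fin L → Sub V} (h : IsRun s P) (i : Fin L) :
    Complete (P i) := by
  obtain ⟨k, hk⟩ : ∃ k : ℕ, k = i.val := ⟨_, rfl⟩
  induction k using Nat.strong_induction_on generalizing i with
  | _ k ih =>
    rcases h i with h1 | ⟨Q0, Q1, hQ0, hQ1, hr⟩
    · exact complete_of_free h1
    · have hav : ∀ Q : Sub V, Avail s P i Q → Complete Q := by
        intro Q hQ
        rcases hQ with hf | ⟨j, hj, rfl⟩
        · exact complete_of_free hf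
        · exact ih j.val (by rw [hk]; exact hj) j rfl
      have c0 := hav Q0 hQ0
      have c1 := hav Q1 hQ1
      rcases hr with ⟨x, hx⟩ | hx | hx
      · exact complete_branch hx c0 c1
      · exact complete_or hx c0 c1
      · exact complete_and hx c0 c1

/-- an available subproblem is complete -/
theorem complete_avail {L : ℕ} {s : ℝ} {P : Fin L → Sub V} (h : IsRun s P) {i : Fin L} {Q : Sub V}
    (hQ : Avail s P i Q) : Complete Q := by
  rcases hQ with hf | ⟨j, _, rfl⟩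
  · exact complete_of_free hf
  · exact complete_run h j

end Pool.Agent.H8.CB

/-!
# Row Cmp: compatibility is preserved

`compat_root`: `ov Z ⟨∅, ∅⟩ = Z`. A member `mint s i g ⊆ Z` of `AA m` makes the group `(s,i)` full,
since `cell s (i,a) (g a)` lies on the line `(i,a)`. If `maxt g` is disjoint from `Z`, then no group
`(s,i)` is full: the line `(i, g s i)` consists of cells of `maxt g`.
`compat_zero`: let `D ∈ Q0.1`, `D ⊆ Z`; take `E ∈ Q.1` with `x ∉ E`, `E ⊆ D`; then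
`E ⊆ Z.erase x`, so `F (ov (Z.erase x) ρ)`, and `ov (Z.erase x) ρ = ov Z (zer ρ {x})`. Let `D ∈ Q0.2`
be disjoint from `Z`; take `T ∈ Q.2` with `T.erase x ⊆ D`; `T` is disjoint from `Z.erase x`, so
`¬ F (ov (Z.erase x) ρ)`.
`compat_one`: the same with `insert x Z` instead of `Z.erase x`; under the hypothesis
`x ∉ ρ.S ∨ x ∈ ρ.O` one has `ov (insert x Z) ρ = ov Z (one ρ x)`.
`compat_or`: `Q0` is on vertices outside `Y`, `Q1` on vertices of `Y`, and `Q1.2` is nonempty. Let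
`D ∈ Q0.1`, `D ⊆ Z`; then `D ⊆ Z \ Y`, `E ⊆ D` for some `E ∈ Q.1`, so `F (ov (Z \ Y) ρ)`, and
`ov (Z \ Y) ρ = ov Z (zer ρ Y)`. Let `D ∈ Q0.2` be disjoint from `Z`, and `D1 ∈ Q1.2`, `D1 ⊆ Y`: then
`D ∪ D1` is disjoint from `Z \ Y`, it contains some `T ∈ Q.2`, so `¬ F (ov (Z \ Y) ρ)`.
`compat_and`: `∅ ∈ Q1.1`. For `D ∈ Q0.1`, `D ⊆ Z` take `E ∈ Q.1` with `E ⊆ D ∪ ∅`; for `D ∈ Q0.2`
take `T ∈ Q.2` with `T ⊆ D`.
`eqv`: for `Z`, completeness gives `E ∈ Q.1`, `E ⊆ Z`, and then both sides hold, or `T ∈ Q.2`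
disjoint from `Z`, and then both sides fail.
`OrSplit.symm`, `AndSplit.symm`: swap the roles.
-/

namespace Pool.Agent.H8.CB

variable {m : ℕ}

theorem compat_root : Compat (AA m, XX m) ⟨∅, ∅⟩ := by
  intro Z
  have e : ov Z ⟨∅, ∅⟩ = Z := by
    ext x
    simp [ov]
  rw [e]
  constructor
  · intro D hD hDZ
    have hD' : D ∈ AA m := hD
    unfold AA at hD'
    rw [Finset.mem_image] at hD'
    obtain ⟨⟨s, i, g⟩, _, rfl⟩ := hD'
    refine ⟨s, i, fun a => ⟨cell s (i, a) (g a), hDZ ?_, cd_cell s _ _⟩⟩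
    exact Finset.mem_image.2 ⟨a, Finset.mem_univ a, rfl⟩
  · intro D hD hDZ hF
    have hD' : D ∈ XX m := hD
    unfold XX at hD'
    rw [Finset.mem_image] at hD'
    obtain ⟨g, _, rfl⟩ := hD'
    obtain ⟨s, i, hfull⟩ := hF
    obtain ⟨x, hx, hxs⟩ := hfull (g s i)
    have hxm : x ∈ maxt g := by
      unfold maxt
      rw [Finset.mem_filter]
      refine ⟨Finset.mem_univ x, s, ?_⟩
      rw [hxs]
    exact Finset.disjoint_left.1 hDZ hxm hx

theorem compat_zero {Q Q0 Q1 : Sub (W m)} {x : W m} {ρ : St m} (h : Branch Q Q0 Q1 x)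
    (hc : Compat Q ρ) (hx : x ∉ ρ.O) : Compat Q0 (zer ρ {x}) := by
  intro Z
  have e : ov Z (zer ρ {x}) = ov (Z.erase x) ρ := by
    ext y
    simp only [ov, zer, Finset.mem_union, Finset.mem_sdiff, Finset.mem_singleton, Finset.mem_erase]
    tauto
  rw [e]
  constructor
  · intro D hD hDZ
    obtain ⟨E, hE, hxE, hED⟩ := h.1 D hD
    refine (hc (Z.erase x)).1 E hE ?_
    intro y hy
    refine Finset.mem_erase.2 ⟨?_, hDZ (hED hy)⟩
    rintro rfl
    exact hxE hy
  · intro D hD hDZ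
    obtain ⟨T, hT, hTD⟩ := h.2.1 D hD
    refine (hc (Z.erase x)).2 T hT ?_
    rw [Finset.disjoint_left] at hDZ ⊢
    intro y hy hyZ
    rw [Finset.mem_erase] at hyZ
    exact hDZ (hTD (Finset.mem_erase.2 ⟨hyZ.1, hy⟩)) hyZ.2

theorem compat_one {Q Q0 Q1 : Sub (W m)} {x : W m} {ρ : St m} (h : Branch Q Q0 Q1 x)
    (hc : Compat Q ρ) (hx : x ∉ ρ.S ∨ x ∈ ρ.O) : Compat Q1 (one ρ x) := by
  intro Z
  have e : ov Z (one ρ x) = ov (insert x Z) ρ := by
    ext y
    simp only [ov, one, Finset.mem_union, Finset.mem_sdiff, Finset.mem_insert]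
    by_cases hyx : y = x
    · subst hyx
      tauto
    · tauto
  rw [e]
  constructor
  · intro D hD hDZ
    obtain ⟨E, hE, hED⟩ := h.2.2.1 D hD
    refine (hc (insert x Z)).1 E hE ?_
    intro y hy
    rw [Finset.mem_insert]
    by_cases hyx : y = x
    · exact Or.inl hyx
    · exact Or.inr (hDZ (hED (Finset.mem_erase.2 ⟨hyx, hy⟩)))
  · intro D hD hDZ
    obtain ⟨T, hT, hxT, hTD⟩ := h.2.2.2 D hD
    refine (hc (insert x Z)).2 T hT ?_
    rw [Finset.disjoint_left] at hDZ ⊢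
    intro y hy hyZ
    rw [Finset.mem_insert] at hyZ
    rcases hyZ with rfl | hyZ
    · exact hxT hy
    · exact hDZ (hTD hy) hyZ

theorem compat_or {Q Q0 Q1 : Sub (W m)} {ρ : St m} (h : OrSplit Q Q0 Q1) (hc : Compat Q ρ)
    {Y : Finset (W m)}
    (h0 : ∀ D : Finset (W m), (D ∈ Q0.1 ∨ D ∈ Q0.2) → Disjoint D Y)
    (h1 : ∀ D : Finset (W m), (D ∈ Q1.1 ∨ D ∈ Q1.2) → D ⊆ Y)
    (hne : Q1.2.Nonempty) : Compat Q0 (zer ρ Y) := by
  intro Z
  have e : ov Z (zer ρ Y) = ov (Z \ Y) ρ := by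
    ext y
    simp only [ov, zer, Finset.mem_union, Finset.mem_sdiff]
    tauto
  rw [e]
  obtain ⟨_, ha, hb⟩ := h
  constructor
  · intro D hD hDZ
    obtain ⟨E, hE, hED⟩ := ha D (Finset.mem_union_left _ hD)
    refine (hc (Z \ Y)).1 E hE ?_
    intro y hy
    rw [Finset.mem_sdiff]
    exact ⟨hDZ (hED hy), Finset.disjoint_left.1 (h0 D (Or.inl hD)) (hED hy)⟩
  · intro D hD hDZ
    obtain ⟨D1, hD1⟩ := hne
    obtain ⟨T, hT, hTD⟩ := hb D hD D1 hD1
    refine (hc (Z \ Y)).2 T hT ?_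
    rw [Finset.disjoint_left] at hDZ ⊢
    intro y hy hyZ
    rw [Finset.mem_sdiff] at hyZ
    rcases Finset.mem_union.1 (hTD hy) with hyD | hyD
    · exact hDZ hyD hyZ.1
    · exact hyZ.2 (h1 D1 (Or.inr hD1) hyD)

theorem compat_and {Q Q0 Q1 : Sub (W m)} {ρ : St m} (h : AndSplit Q Q0 Q1) (hc : Compat Q ρ)
    (he : ∅ ∈ Q1.1) : Compat Q0 ρ := by
  intro Z
  obtain ⟨_, ha, hb⟩ := h
  constructor
  · intro D hD hDZ
    obtain ⟨E, hE, hED⟩ := ha D hD ∅ he
    rw [Finset.union_empty] at hED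
    exact (hc Z).1 E hE (hED.trans hDZ)
  · intro D hD hDZ
    obtain ⟨T, hT, hTD⟩ := hb D (Finset.mem_union_left _ hD)
    exact (hc Z).2 T hT (Finset.disjoint_of_subset_left hTD hDZ)

theorem eqv {Q : Sub (W m)} {ρ ρ' : St m} (hQ : Complete Q) (h : Compat Q ρ) (h' : Compat Q ρ')
    (Z : Finset (W m)) : F (ov Z ρ) ↔ F (ov Z ρ') := by
  rcases hQ Z with ⟨E, hE, hEZ⟩ | ⟨T, hT, hTZ⟩
  · exact ⟨fun _ => (h' Z).1 E hE hEZ, fun _ => (h Z).1 E hE hEZ⟩
  · exact ⟨fun hh => absurd hh ((h Z).2 T hT hTZ), fun hh => absurd hh ((h' Z).2 T hT hTZ)⟩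

theorem OrSplit.symm {V : Type} [DecidableEq V] {Q Q0 Q1 : Sub V} (h : OrSplit Q Q0 Q1) :
    OrSplit Q Q1 Q0 := by
  obtain ⟨h1, h2, h3⟩ := h
  refine ⟨fun D0 hD0 D1 hD1 => (h1 D1 hD1 D0 hD0).symm, ?_, ?_⟩
  · intro D hD
    rw [Finset.union_comm] at hD
    exact h2 D hD
  · intro D0 hD0 D1 hD1
    obtain ⟨T, hT, hTD⟩ := h3 D1 hD1 D0 hD0
    exact ⟨T, hT, by rwa [Finset.union_comm]⟩

theorem AndSplit.symm {V : Type} [DecidableEq V] {Q Q0 Q1 : Sub V} (h : AndSplit Q Q0 Q1) :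
    AndSplit Q Q1 Q0 := by
  obtain ⟨h1, h2, h3⟩ := h
  refine ⟨fun D0 hD0 D1 hD1 => (h1 D1 hD1 D0 hD0).symm, ?_, ?_⟩
  · intro D0 hD0 D1 hD1
    obtain ⟨T, hT, hTD⟩ := h2 D1 hD1 D0 hD0
    exact ⟨T, hT, by rwa [Finset.union_comm]⟩
  · intro D hD
    rw [Finset.union_comm] at hD
    exact h3 D hD

end Pool.Agent.H8.CB

/-!
# Row Inv: the invariant is preserved

`good_root`: nothing is hit, `cnt = 0`; for the second clause take `a := i`.

`good_zer`: `O` is unchanged, so `Hit`, `Blk` are unchanged. If `cd x s = r` with `r` unhit and not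
blocked and the other line of `x ∈ Y` is not blocked, and `x ∉ ρ.S`, then `x` would be a core cell.
So the set counted by `cnt` does not change.

`good_zero` (the cell `x`, `¬ ans t ρ x`; so `x ∉ ρ.O`). If `x ∈ ρ.S`, then `zer ρ {x}` has the same
`S`. Let `x ∉ ρ.S`, and let `r` be unhit, not blocked. If `cd x s ≠ r` or the other line of `x` is
blocked, then the set counted by `cnt` does not change. Otherwise both lines of `x` are not blocked,
so `¬ ans t ρ x` and `¬ Hit ρ.O s (cd x s)` give `cnt ρ s r ≠ t s r`, hence `cnt ρ s r < t s r`, and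
the new `cnt` is at most `cnt ρ s r + 1`.

`good_one` (`ans t ρ x`). If `x ∈ ρ.O` then `x ∈ ρ.S` and `one ρ x` has the same `S`, `O`. Otherwise
`x` is on no blocked line. Second clause: let `(i,a)` be unhit by `ρ.O`. If `cd x s ≠ (i,a)` it is
still unhit. If `cd x s = (i,a)` then `(i,a)` is not blocked, so there is `b ≠ a` with `(i,b)` unhit
by `ρ.O`, and it is still unhit (`hit_insert`). Third clause: let `r` be unhit by `insert x O` and not
blocked for `insert x O`. Then `cd x s ≠ r`, `r` is unhit for `O`, and not blocked for `O` by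
`blk_mono`. The new set counted is contained in the old one: a `y ∈ insert x S` with `cd y s = r` is
not `x`, and if its other line is not blocked for `insert x O` it is not blocked for `O`
(`blk_mono`).
-/

namespace Pool.Agent.H8.CB

variable {m : ℕ}

theorem good_root (t : Bool → R m → ℕ) : Good t ⟨∅, ∅⟩ := by
  refine ⟨Finset.Subset.refl _, fun s i => ⟨i, ?_⟩, fun s r _ _ => ?_⟩
  · rintro ⟨x, hx, _⟩
    simp at hx
  · unfold cnt
    simp

theorem good_zer {t : Bool → R m → ℕ} {ρ : St m} (h : Good t ρ) {Y : Finset (W m)}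
    (hY : ∀ x ∈ Y, ¬ Core ρ x) : Good t (zer ρ Y) := by
  classical
  obtain ⟨h1, h2, h3⟩ := h
  refine ⟨h1.trans Finset.subset_union_left, h2, fun s r hr hb => ?_⟩
  refine le_trans ?_ (h3 s r hr hb)
  unfold cnt
  refine Finset.card_le_card ?_
  intro x hx
  rw [Finset.mem_filter] at hx ⊢
  obtain ⟨hx1, hx2, hx3⟩ := hx
  refine ⟨?_, hx2, hx3⟩
  by_contra hxS
  rcases Finset.mem_union.1 hx1 with h4 | h4
  · exact hxS h4
  · refine hY x h4 ⟨hxS, fun s' => ?_, s, ?_⟩
    · by_cases hs : s' = s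
      · rw [hs, hx2]
        exact hb
      · have hs' : s' = !s := by
          cases s <;> cases s' <;> simp_all
        rw [hs']
        exact hx3
    · rw [hx2]
      exact hr

theorem good_zero {t : Bool → R m → ℕ} {ρ : St m} (h : Good t ρ) {x : W m}
    (hx : ¬ ans t ρ x) : Good t (zer ρ {x}) := by
  classical
  obtain ⟨h1, h2, h3⟩ := h
  refine ⟨h1.trans Finset.subset_union_left, h2, fun s r hr hb => ?_⟩
  have h4 := h3 s r hr hb
  by_cases hc : x ∉ ρ.S ∧ cd x s = r ∧ ¬ Blk ρ.O (!s) (cd x (!s))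
  · obtain ⟨hc1, hc2, hc3⟩ := hc
    have hne : cnt ρ s r ≠ t s r := by
      intro heq
      refine hx (Or.inr ⟨hc1, fun s' => ?_, s, ?_, ?_⟩)
      · by_cases hs : s' = s
        · rw [hs, hc2]
          exact hb
        · have hs' : s' = !s := by
            cases s <;> cases s' <;> simp_all
          rw [hs']
          exact hc3
      · rw [hc2]
        exact hr
      · rw [hc2]
        exact heq
    have h5 : cnt (zer ρ {x}) s r ≤ cnt ρ s r + 1 := by
      unfold cnt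
      have h6 : (zer ρ {x}).S.filter (fun y => cd y s = r ∧ ¬ Blk (zer ρ {x}).O (!s) (cd y (!s))) ⊆
          insert x (ρ.S.filter (fun y => cd y s = r ∧ ¬ Blk ρ.O (!s) (cd y (!s)))) := by
        intro y hy
        rw [Finset.mem_filter] at hy
        rw [Finset.mem_insert, Finset.mem_filter]
        rcases Finset.mem_union.1 hy.1 with h7 | h7
        · exact Or.inr ⟨h7, hy.2⟩
        · exact Or.inl (Finset.mem_singleton.1 h7)
      exact (Finset.card_le_card h6).trans (Finset.card_insert_le _ _)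
    omega
  · refine le_trans ?_ h4
    unfold cnt
    refine Finset.card_le_card ?_
    intro y hy
    rw [Finset.mem_filter] at hy ⊢
    refine ⟨?_, hy.2⟩
    rcases Finset.mem_union.1 hy.1 with h7 | h7
    · exact h7
    · by_contra h8
      rw [Finset.mem_singleton] at h7
      rw [h7] at hy h8
      exact hc ⟨h8, hy.2.1, hy.2.2⟩

theorem good_one {t : Bool → R m → ℕ} {ρ : St m} (h : Good t ρ) {x : W m}
    (hx : ans t ρ x) : Good t (one ρ x) := by
  classical
  by_cases hxO : x ∈ ρ.O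
  · have h1 : one ρ x = ρ := by
      have h2 : insert x ρ.S = ρ.S := Finset.insert_eq_of_mem (h.1 hxO)
      have h3 : insert x ρ.O = ρ.O := Finset.insert_eq_of_mem hxO
      unfold one
      rw [h2, h3]
    rw [h1]
    exact h
  · obtain ⟨h1, h2, h3⟩ := h
    rcases hx with hx | ⟨hxS, hxb, _⟩
    · exact absurd hx hxO
    · refine ⟨Finset.insert_subset_insert x h1, fun s i => ?_, fun s r hr hb => ?_⟩
      · obtain ⟨a, ha⟩ := h2 s i
        by_cases hcd : cd x s = (i, a)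
        · have h4 := hxb s
          rw [hcd] at h4
          have h5 : ∃ b, b ≠ a ∧ ¬ Hit ρ.O s (i, b) := by
            by_contra hcon
            push Not at hcon
            exact h4 ⟨ha, hcon⟩
          obtain ⟨b, hb1, hb2⟩ := h5
          refine ⟨b, ?_⟩
          show ¬ Hit (insert x ρ.O) s (i, b)
          rw [hit_insert, hcd]
          rintro (h6 | h6)
          · exact hb1 (Prod.mk.inj h6).2.symm
          · exact hb2 h6
        · refine ⟨a, ?_⟩
          show ¬ Hit (insert x ρ.O) s (i, a)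
          rw [hit_insert]
          rintro (h6 | h6)
          · exact hcd h6
          · exact ha h6
      · have hr' : ¬ Hit (insert x ρ.O) s r := hr
        rw [hit_insert, not_or] at hr'
        have hb' : ¬ Blk ρ.O s r := fun h4 => hb (blk_mono hxb h4)
        refine le_trans ?_ (h3 s r hr'.2 hb')
        unfold cnt
        refine Finset.card_le_card ?_
        intro y hy
        rw [Finset.mem_filter] at hy ⊢
        obtain ⟨hy1, hy2, hy3⟩ := hy
        refine ⟨?_, hy2, fun h4 => hy3 (blk_mono hxb h4)⟩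
        rcases Finset.mem_insert.1 hy1 with h5 | h5
        · rw [h5] at hy2
          exact absurd hy2 hr'.1
        · exact h5

end Pool.Agent.H8.CB
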