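import Pool.Agent.H8.CB.Base

/-!
# Row Mk: minterms of the restricted function

`mk_full`: let `κ a` (for `a ∈ U ρ.O s i`) be an unread cell on the line `(i, a)`. For
`E = image κ (U ρ.O s i)` the group `(s, i)` is full for `ov E ρ`: a line `(i, a)` is hit by `ρ.O`,
or `a ∈ U` and it is hit by `κ a ∈ E \ ρ.S`.
`mk_min`: let moreover `c` be such that for every group `j` of the other side the line `(j, c j)` is
not hit by `ρ.O` and by no `κ a`. Let `D ⊆ E` and `F (ov D ρ)`. `ov D ρ ⊆ D ∪ ρ.O`. The full group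
is not a group `j` of the other side (the line `(j, c j)` is not hit by `E ∪ ρ.O`), and it is not a
group `(s, i')` with `i' ≠ i` (some line of it is not hit by `ρ.O`, by `h1`, and all cells of `E` are
on lines of the group `i`). So it is `(s, i)`: for `a ∈ U` the line `(i, a)` is not hit by `ρ.O`, so
it is hit by `D`, and the only cell of `E` on the line `(i, a)` is `κ a`. So `κ a ∈ D`; `E ⊆ D`.
`exists_line`: from `h1`, by choice, applied to the side `!s`.
-/

namespace Pool.Agent.H8.CB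

variable {m k h T : ℕ}

private theorem Mk_memU {O : Finset (W m)} {s : Bool} {i a : Fin m} :
    a ∈ U O s i ↔ ¬ Hit O s (i, a) := by
  unfold U
  simp

theorem mk_full {ρ : St m} {s : Bool} {i : Fin m} {κ : Fin m → W m}
    (hκ : ∀ a ∈ U ρ.O s i, cd (κ a) s = (i, a) ∧ κ a ∉ ρ.S) :
    F (ov ((U ρ.O s i).image κ) ρ) := by
  refine ⟨s, i, fun a => ?_⟩
  by_cases ha : a ∈ U ρ.O s i
  · refine ⟨κ a, ?_, (hκ a ha).1⟩
    unfold ov
    exact Finset.mem_union_left _ (Finset.mem_sdiff.2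
      ⟨Finset.mem_image_of_mem _ ha, (hκ a ha).2⟩)
  · have h1 : Hit ρ.O s (i, a) := by
      by_contra h
      exact ha (Mk_memU.2 h)
    obtain ⟨x, hx, hx'⟩ := h1
    refine ⟨x, ?_, hx'⟩
    unfold ov
    exact Finset.mem_union_right _ hx

theorem mk_min {ρ : St m} (h1 : ∀ s i, ∃ a, ¬ Hit ρ.O s (i, a)) {s : Bool} {i : Fin m}
    {κ : Fin m → W m} (hκ : ∀ a ∈ U ρ.O s i, cd (κ a) s = (i, a) ∧ κ a ∉ ρ.S)
    {c : Fin m → Fin m} (hc : ∀ j, ¬ Hit ρ.O (!s) (j, c j))
    (hcκ : ∀ a ∈ U ρ.O s i, ∀ j, cd (κ a) (!s) ≠ (j, c j))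
    {D : Finset (W m)} (hD : D ⊆ (U ρ.O s i).image κ) (hF : F (ov D ρ)) :
    D = (U ρ.O s i).image κ := by
  have key : ∀ x ∈ ov D ρ, x ∈ D ∨ x ∈ ρ.O := by
    intro x hx
    unfold ov at hx
    rcases Finset.mem_union.1 hx with h | h
    · exact Or.inl (Finset.mem_sdiff.1 h).1
    · exact Or.inr h
  have hDκ : ∀ x ∈ D, ∃ a ∈ U ρ.O s i, κ a = x := by
    intro x hx
    obtain ⟨a, ha, hax⟩ := Finset.mem_image.1 (hD hx)
    exact ⟨a, ha, hax⟩
  obtain ⟨s', i', hf⟩ := hF
  by_cases hs : s' = s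
  · subst hs
    have hi : i' = i := by
      obtain ⟨a, ha⟩ := h1 s' i'
      obtain ⟨x, hx, hx'⟩ := hf a
      rcases key x hx with h | h
      · obtain ⟨b, hb, hbx⟩ := hDκ x h
        rw [← hbx, (hκ b hb).1] at hx'
        exact (congrArg Prod.fst hx').symm
      · exact absurd ⟨x, h, hx'⟩ ha
    subst hi
    refine Finset.Subset.antisymm hD fun y hy => ?_
    obtain ⟨a, ha, hay⟩ := Finset.mem_image.1 hy
    obtain ⟨x, hx, hx'⟩ := hf a
    rcases key x hx with h | h
    · obtain ⟨b, hb, hbx⟩ := hDκ x h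
      rw [← hbx, (hκ b hb).1] at hx'
      have hba : b = a := congrArg Prod.snd hx'
      rw [← hay, ← hba, hbx]
      exact h
    · exact absurd ⟨x, h, hx'⟩ (Mk_memU.1 ha)
  · have hs' : s' = !s := by
      cases s <;> cases s' <;> simp_all
    subst hs'
    obtain ⟨x, hx, hx'⟩ := hf (c i')
    rcases key x hx with h | h
    · obtain ⟨b, hb, hbx⟩ := hDκ x h
      rw [← hbx] at hx'
      exact absurd hx' (hcκ b hb i')
    · exact absurd ⟨x, h, hx'⟩ (hc i')

theorem exists_line {O : Finset (W m)} (h1 : ∀ s i, ∃ a, ¬ Hit O s (i, a)) (s : Bool) :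
    ∃ c : Fin m → Fin m, ∀ j, ¬ Hit O (!s) (j, c j) :=
  ⟨fun j => (h1 (!s) j).choose, fun j => (h1 (!s) j).choose_spec⟩

end Pool.Agent.H8.CB

/-!
# Row Mx: maxterms of the restricted function

Let `g` choose in every group `(s, i)` a line `(i, g s i)` that is not hit by `ρ.O`.
`mx_zero`: for `Z = (maxt g)ᶜ` no group is full for `ov Z ρ ⊆ Z ∪ ρ.O`: every cell of the line
`(i, g s i)` is in `maxt g`.
`mx_min`: let `D ⊆ maxt g` and `¬ F (ov Dᶜ ρ)`, and let the group `(s, i)` be open. The group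
`(s, i)` is not full for `ov Dᶜ ρ`, so there is `b` such that the line `(i, b)` is not hit by
`ov Dᶜ ρ = (Dᶜ \ ρ.S) ∪ ρ.O`: it is not hit by `ρ.O` and all its unread cells are in `D`. It is not
blocked (`not_blk_of_open`). By `fre_avoid` for `c := g (!s)` (with `m ^ 2 / 2 > 0`) there is a cell
`z ∈ fre ρ s (i, b)` with `(cd z (!s)).2 ≠ g (!s) (cd z (!s)).1`. As `z ∈ D ⊆ maxt g` we get
`(cd z s).2 = g s (cd z s).1`, i.e. `b = g s i`. So every unread cell of the line `(i, g s i)` is in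
`D`.
-/

namespace Pool.Agent.H8.CB

variable {m k h T : ℕ}

theorem mx_zero {ρ : St m} {g : Bool → Fin m → Fin m} (hg : ∀ s i, ¬ Hit ρ.O s (i, g s i)) :
    ¬ F (ov (maxt g)ᶜ ρ) := by
  rintro ⟨s, i, hfull⟩
  obtain ⟨x, hx, hxs⟩ := hfull (g s i)
  unfold ov at hx
  rcases Finset.mem_union.1 hx with h | h
  · have h1 := (Finset.mem_sdiff.1 h).1
    rw [Finset.mem_compl] at h1
    apply h1
    unfold maxt
    rw [Finset.mem_filter]
    refine ⟨Finset.mem_univ _, s, ?_⟩
    rw [hxs]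
  · exact hg s i ⟨x, h, hxs⟩

theorem mx_min (hp : Par m k h T) {t : Bool → R m → ℕ} {ρ : St m} (ht : ∀ s r, t s r < h)
    (hgood : Good t ρ) {g : Bool → Fin m → Fin m}
    {D : Finset (W m)} (hD : D ⊆ maxt g) (hF : ¬ F (ov Dᶜ ρ)) {s : Bool} {i : Fin m}
    (ho : 2 ≤ (U ρ.O s i).card) {x : W m} (hx : cd x s = (i, g s i)) (hxS : x ∉ ρ.S) : x ∈ D := by
  classical
  have hnf : ¬ Full (ov Dᶜ ρ) s i := fun h => hF ⟨s, i, h⟩
  unfold Full at hnf
  push Not at hnf
  obtain ⟨b, hb⟩ := hnf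
  have hu : ¬ Hit ρ.O s (i, b) := fun h => hb (h.mono (by unfold ov; exact Finset.subset_union_right))
  have hbl : ¬ Blk ρ.O s (i, b) := not_blk_of_open ho b
  have h1 := fre_avoid hp ht hgood hu hbl (g (!s))
  have h2 : 0 < m ^ 2 / 2 := by
    have h3 : 5 ≤ m := by have := hp.hk; have := hp.hm; omega
    have h4 : 5 ^ 2 ≤ m ^ 2 := Nat.pow_le_pow_left h3 2
    omega
  obtain ⟨z, hz⟩ := Finset.card_pos.1 (lt_of_lt_of_le h2 h1)
  obtain ⟨hz1, hz2⟩ := Finset.mem_filter.1 hz
  unfold fre at hz1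
  obtain ⟨hz3, hz4, hz5⟩ := (Finset.mem_filter.1 hz1).2
  have hov : ∀ y : W m, y ∉ ρ.S → y ∉ D → y ∈ ov Dᶜ ρ := by
    intro y hy hyD
    unfold ov
    exact Finset.mem_union_left _ (Finset.mem_sdiff.2 ⟨Finset.mem_compl.2 hyD, hy⟩)
  have hzD : z ∈ D := by
    by_contra hzD
    exact hb ⟨z, hov z hz4 hzD, hz3⟩
  have hzm := hD hzD
  unfold maxt at hzm
  obtain ⟨s', hs'⟩ := (Finset.mem_filter.1 hzm).2
  have hss : s' = s := by
    by_contra hne
    have h6 : s' = !s := by
      cases s <;> cases s' <;> simp_all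
    rw [h6] at hs'
    exact hz2 hs'
  rw [hss, hz3] at hs'
  have hbg : b = g s i := hs'
  by_contra hxD
  apply hb
  refine ⟨x, hov x hxS hxD, ?_⟩
  rw [hx, hbg]

end Pool.Agent.H8.CB

/-!
# Row Mn1: the first side of a compatible complete subproblem is large

`empty_one`: if `∅ ∈ Q.1` then `F (ov ∅ ρ)`, and `ov ∅ ρ ⊆ ρ.O`; but no group is full for `ρ.O`.
`empty_two`: if `∅ ∈ Q.2` then `¬ F (ov univ ρ)`. By `exists_rich` there is an open group `(s, i)`;
its unhit lines are not blocked and have unread cells (`fre_avoid`), so `F (ov univ ρ)`.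
`card_one`: by `exists_rich` for `s = false` there is `i` with `m ≤ |U| + k`, `U = U ρ.O false i`
(so it is open). Let `c` be from `exists_line`. For `a ∈ U` let
`G a = (fre ρ s (i,a)).filter (fun x => (cd x (!s)).2 ≠ c (cd x (!s)).1)`, with at least
`m ^ 2 / 2` elements by `fre_avoid`. For every `κ` with `κ a ∈ G a` for `a ∈ U` the set
`E = U.image κ` has `F (ov E ρ)` (`mk_full`). So there is no `T ∈ Q.2` disjoint from `E` (`Compat`),
and by completeness there is `D ∈ Q.1` with `D ⊆ E`; then `F (ov D ρ)` (`Compat` with `Z = D`), so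
`D = E` by `mk_min`: `E ∈ Q.1`. The map `κ ↦ U.image κ` is injective on `U.pi G` (or on
`Fintype.piFinset` with a fixed value outside `U`), because `κ a` is the only element of `E` on the
line `(i, a)`. So `Q.1.card ≥ ∏ a ∈ U, (G a).card ≥ (m ^ 2 / 2) ^ |U| ≥ (m ^ 2 / 2) ^ (m - k)`.
-/

namespace Pool.Agent.H8.CB

variable {m k h T : ℕ}

theorem empty_one {Q : Sub (W m)} {ρ : St m} (h1 : ∀ s i, ∃ a, ¬ Hit ρ.O s (i, a))
    (hc : Compat Q ρ) : ∅ ∉ Q.1 := by
  intro h
  obtain ⟨s, i, hi⟩ := (hc ∅).1 ∅ h (Finset.Subset.refl _)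
  obtain ⟨a, ha⟩ := h1 s i
  refine ha ((hi a).mono ?_)
  intro x hx
  rcases Finset.mem_union.1 (ov_subset ∅ ρ hx) with h2 | h2
  · exact absurd h2 (Finset.notMem_empty _)
  · exact h2

private theorem Mn1_fre {ρ : St m} {s : Bool} {r : R m} {x : W m} (hx : x ∈ fre ρ s r) :
    cd x s = r ∧ x ∉ ρ.S := by
  classical
  unfold fre at hx
  have h := (Finset.mem_filter.1 hx).2
  exact ⟨h.1, h.2.1⟩

theorem empty_two (hp : Par m k h T) {t : Bool → R m → ℕ} {ρ : St m} (ht : ∀ s r, t s r < h)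
    (hg : Good t ρ) (hO : ρ.O.card ≤ T) {Q : Sub (W m)} (hc : Compat Q ρ) : ∅ ∉ Q.2 := by
  classical
  intro h
  refine (hc Finset.univ).2 ∅ h (Finset.disjoint_empty_left _) ?_
  obtain ⟨i, hi⟩ := exists_rich hp hO false
  have hk := hp.hk
  have hm := hp.hm
  have hU : 2 ≤ (U ρ.O false i).card := by omega
  have hex : ∀ a : Fin m, ∃ x : W m, a ∈ U ρ.O false i → cd x false = (i, a) ∧ x ∉ ρ.S := by
    intro a
    by_cases ha : a ∈ U ρ.O false i
    · have h1 := fre_avoid hp ht hg (mem_U.1 ha) (not_blk_of_open hU a) (fun j => j)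
      have h2 : 0 < m ^ 2 / 2 := by
        have h3 : 1280 * 1280 ≤ m ^ 2 := by
          rw [pow_two]
          exact Nat.mul_le_mul (by omega) (by omega)
        omega
      obtain ⟨x, hx⟩ := Finset.card_pos.1 (lt_of_lt_of_le h2 h1)
      exact ⟨x, fun _ => Mn1_fre (Finset.mem_filter.1 hx).1⟩
    · exact ⟨((i, i), (i, i)), fun h => absurd h ha⟩
  choose κ hκ using hex
  exact F_mono (ov_mono (Finset.subset_univ _) ρ) (mk_full hκ)

theorem card_one (hp : Par m k h T) {t : Bool → R m → ℕ} {ρ : St m} (ht : ∀ s r, t s r < h)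
    (hg : Good t ρ) (hO : ρ.O.card ≤ T) {Q : Sub (W m)} (hQ : Complete Q) (hc : Compat Q ρ) :
    (m ^ 2 / 2) ^ (m - k) ≤ Q.1.card := by
  classical
  obtain ⟨i, hi⟩ := exists_rich hp hO false
  obtain ⟨c, hcl⟩ := exists_line hg.2.1 false
  have hk := hp.hk
  have hm := hp.hm
  have hU : 2 ≤ (U ρ.O false i).card := by omega
  set G : Fin m → Finset (W m) := fun a => (fre ρ false (i, a)).filter
    (fun x => (cd x (!false)).2 ≠ c (cd x (!false)).1) with hGdef
  have hG : ∀ a ∈ U ρ.O false i, m ^ 2 / 2 ≤ (G a).card := fun a ha =>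
    fre_avoid hp ht hg (mem_U.1 ha) (not_blk_of_open hU a) c
  set x0 : W m := ((i, i), (i, i)) with hx0
  set H : Fin m → Finset (W m) := fun a => if a ∈ U ρ.O false i then G a else {x0} with hH
  have hcard : (m ^ 2 / 2) ^ (m - k) ≤ (Fintype.piFinset H).card := by
    rw [Fintype.card_piFinset]
    have h1 : ∏ a ∈ U ρ.O false i, (H a).card = ∏ a, (H a).card := by
      refine Finset.prod_subset (Finset.subset_univ _) ?_
      intro a _ ha
      simp only [hH]
      rw [if_neg ha, Finset.card_singleton]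
    rw [← h1]
    have h2 : (m ^ 2 / 2) ^ (U ρ.O false i).card ≤ ∏ a ∈ U ρ.O false i, (H a).card := by
      rw [← Finset.prod_const]
      refine Finset.prod_le_prod' ?_
      intro a ha
      simp only [hH]
      rw [if_pos ha]
      exact hG a ha
    refine le_trans (Nat.pow_le_pow_right ?_ (by omega)) h2
    have h3 : 1280 * 1280 ≤ m ^ 2 := by
      rw [pow_two]
      exact Nat.mul_le_mul (by omega) (by omega)
    omega
  have hmem : ∀ κ ∈ Fintype.piFinset H, ∀ a ∈ U ρ.O false i, κ a ∈ G a := by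
    intro κ hκ a ha
    have h1 := Fintype.mem_piFinset.1 hκ a
    simp only [hH] at h1
    rwa [if_pos ha] at h1
  have hout : ∀ κ ∈ Fintype.piFinset H, ∀ a, a ∉ U ρ.O false i → κ a = x0 := by
    intro κ hκ a ha
    have h1 := Fintype.mem_piFinset.1 hκ a
    simp only [hH] at h1
    rw [if_neg ha] at h1
    exact Finset.mem_singleton.1 h1
  have hcell : ∀ κ ∈ Fintype.piFinset H, ∀ a ∈ U ρ.O false i,
      cd (κ a) false = (i, a) ∧ κ a ∉ ρ.S := fun κ hκ a ha =>
    Mn1_fre (Finset.mem_filter.1 (hmem κ hκ a ha)).1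
  refine le_trans hcard (Finset.card_le_card_of_injOn
    (fun κ => (U ρ.O false i).image κ) ?_ ?_)
  · intro κ hκ
    have hκ' : κ ∈ Fintype.piFinset H := hκ
    have hE := mk_full (hcell κ hκ')
    rcases hQ ((U ρ.O false i).image κ) with ⟨D, hD, hDE⟩ | ⟨D, hD, hDE⟩
    · have hF := (hc D).1 D hD (Finset.Subset.refl _)
      have h2 := mk_min hg.2.1 (hcell κ hκ') hcl (fun a ha j hj => by
        have h3 := (Finset.mem_filter.1 (hmem κ hκ' a ha)).2
        rw [hj] at h3
        exact h3 rfl) hDE hF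
      rw [h2] at hD
      exact hD
    · exact absurd hE ((hc _).2 D hD hDE)
  · intro κ hκ κ' hκ' he
    have h1 : κ ∈ Fintype.piFinset H := hκ
    have h2 : κ' ∈ Fintype.piFinset H := hκ'
    have he' : (U ρ.O false i).image κ = (U ρ.O false i).image κ' := he
    funext a
    by_cases ha : a ∈ U ρ.O false i
    · have h3 : κ a ∈ (U ρ.O false i).image κ' := by
        rw [← he']
        exact Finset.mem_image_of_mem _ ha
      obtain ⟨b, hb, hba⟩ := Finset.mem_image.1 h3
      have h4 := (hcell κ h1 a ha).1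
      have h5 := (hcell κ' h2 b hb).1
      rw [hba, h4] at h5
      have h6 : a = b := congrArg Prod.snd h5
      rw [← hba, h6]
    · rw [hout κ h1 a ha, hout κ' h2 a ha]

end Pool.Agent.H8.CB

/-!
# Row Mn2: the second side of a compatible complete subproblem is large

Let `G` be the set of all `g : Bool → Fin m → Fin m` with `g s i ∈ U ρ.O s i` for all `s, i`; it has
`∏ s, ∏ i, |U ρ.O s i|` elements (`Fintype.piFinset` twice, or functions on `Bool × Fin m`). All
factors are at least `1` (second clause of `Good`), and for every `s` at least `m - 2 * k` of the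
factors are at least `m / 2` (`poor_card`; if `m ≤ 2 * |U|` then `m / 2 ≤ |U|`). So
`|G| ≥ (m / 2) ^ (2 * (m - 2 * k))`.
For `g ∈ G` and `Z = (maxt g)ᶜ` we have `¬ F (ov Z ρ)` (`mx_zero`), so by `Compat` no member of `Q.1`
is contained in `Z`, and by completeness there is `D = D g ∈ Q.2` disjoint from `Z`, i.e.
`D ⊆ maxt g`. By `Compat` (with `Dᶜ`) `¬ F (ov Dᶜ ρ)`.
`g ↦ D g` is injective on `G`: let `D g = D g'`. In a group `(s, i)` that is not open, `|U| = 1`,
so `g s i = g' s i`. In an open group let `r = (i, g s i)`; it is not hit and not blocked; take by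
`fre_avoid` (with `c := g' (!s)`) a cell `x ∈ fre ρ s r` with `(cd x (!s)).2 ≠ g' (!s) (cd x (!s)).1`.
By `mx_min` `x ∈ D g = D g' ⊆ maxt g'`, so `(cd x s).2 = g' s (cd x s).1`, i.e. `g s i = g' s i`.
Hence `|G| ≤ Q.2.card` (`Finset.card_le_card_of_injOn`).
-/

namespace Pool.Agent.H8.CB

variable {m k h T : ℕ}

theorem card_two (hp : Par m k h T) {t : Bool → R m → ℕ} {ρ : St m} (ht : ∀ s r, t s r < h)
    (hg : Good t ρ) (hO : ρ.O.card ≤ T) {Q : Sub (W m)} (hQ : Complete Q) (hc : Compat Q ρ) :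
    (m / 2) ^ (2 * (m - 2 * k)) ≤ Q.2.card := by
  classical
  have hm : 1280 ≤ m := by
    have h1 := hp.hk
    have h2 := hp.hm
    omega
  have hm2 : 1 ≤ m / 2 := by omega
  have hU1 : ∀ s i, 1 ≤ (U ρ.O s i).card := fun s i => by
    obtain ⟨a, ha⟩ := hg.2.1 s i
    exact Finset.card_pos.2 ⟨a, mem_U.2 ha⟩
  have hprod : ∀ s, (m / 2) ^ (m - 2 * k) ≤ ∏ i : Fin m, (U ρ.O s i).card := by
    intro s
    have hpoor := poor_card hp hO s
    have hsplit : (Finset.univ.filter (fun i : Fin m => 2 * (U ρ.O s i).card < m)).card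
        + (Finset.univ.filter (fun i : Fin m => ¬ 2 * (U ρ.O s i).card < m)).card = m := by
      rw [Finset.card_filter_add_card_filter_not]
      simp
    calc (m / 2) ^ (m - 2 * k)
        ≤ (m / 2) ^ (Finset.univ.filter (fun i : Fin m => ¬ 2 * (U ρ.O s i).card < m)).card :=
          Nat.pow_le_pow_right hm2 (by omega)
      _ ≤ ∏ i ∈ Finset.univ.filter (fun i : Fin m => ¬ 2 * (U ρ.O s i).card < m),
            (U ρ.O s i).card := by
          apply Finset.pow_card_le_prod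
          intro i hi
          have := (Finset.mem_filter.1 hi).2
          omega
      _ ≤ ∏ i : Fin m, (U ρ.O s i).card :=
          Finset.prod_le_prod_of_subset_of_one_le' (Finset.filter_subset _ _)
            (fun i _ _ => hU1 s i)
  let G : Finset (Bool → Fin m → Fin m) :=
    Fintype.piFinset (fun s => Fintype.piFinset (fun i => U ρ.O s i))
  have hGcard : (m / 2) ^ (2 * (m - 2 * k)) ≤ G.card := by
    have e : G.card = (∏ i : Fin m, (U ρ.O true i).card) * ∏ i : Fin m, (U ρ.O false i).card := by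
      simp only [G, Fintype.card_piFinset, Fintype.prod_bool]
    rw [e, mul_comm 2, pow_mul, sq]
    exact Nat.mul_le_mul (hprod true) (hprod false)
  have hGmem : ∀ g ∈ G, ∀ s i, g s i ∈ U ρ.O s i := by
    intro g hgG s i
    have h1 := Fintype.mem_piFinset.1 hgG s
    exact Fintype.mem_piFinset.1 h1 i
  have hD : ∀ g ∈ G, ∃ D ∈ Q.2, D ⊆ maxt g ∧ ¬ F (ov Dᶜ ρ) := by
    intro g hgG
    have hz : ¬ F (ov (maxt g)ᶜ ρ) := mx_zero (fun s i => mem_U.1 (hGmem g hgG s i))
    rcases hQ (maxt g)ᶜ with ⟨E, hE, hEZ⟩ | ⟨D, hD, hDZ⟩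
    · exact absurd ((hc _).1 E hE hEZ) hz
    · refine ⟨D, hD, ?_, (hc Dᶜ).2 D hD disjoint_compl_right⟩
      intro x hx
      by_contra hxm
      exact Finset.disjoint_left.1 hDZ hx (Finset.mem_compl.2 hxm)
  choose! D hD1 hD2 hD3 using hD
  refine hGcard.trans (Finset.card_le_card_of_injOn D (fun g hgG => hD1 g hgG) ?_)
  intro g hgG g' hgG' hDD
  have hgG : g ∈ G := hgG
  have hgG' : g' ∈ G := hgG'
  funext s i
  by_cases ho : 2 ≤ (U ρ.O s i).card
  · have hu : ¬ Hit ρ.O s (i, g s i) := mem_U.1 (hGmem g hgG s i)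
    have hb : ¬ Blk ρ.O s (i, g s i) := not_blk_of_open ho _
    have hf := fre_avoid hp ht hg hu hb (g' (!s))
    have hpos : 0 < m ^ 2 / 2 := by
      apply Nat.div_pos _ (by norm_num)
      nlinarith
    obtain ⟨x, hx⟩ := Finset.card_pos.1 (lt_of_lt_of_le hpos hf)
    rw [Finset.mem_filter, fre, Finset.mem_filter] at hx
    obtain ⟨⟨-, hx1, hx2, -⟩, hx3⟩ := hx
    have hxD : x ∈ D g := mx_min hp ht hg (hD2 g hgG) (hD3 g hgG) ho hx1 hx2
    rw [hDD] at hxD
    have hxm := hD2 g' hgG' hxD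
    rw [maxt, Finset.mem_filter] at hxm
    obtain ⟨-, s', hs'⟩ := hxm
    rcases Bool.eq_or_eq_not s' s with rfl | rfl
    · rw [hx1] at hs'
      exact hs'
    · exact absurd hs' hx3
  · have h1 : (U ρ.O s i).card ≤ 1 := by omega
    exact Finset.card_le_one.1 h1 _ (hGmem g hgG s i) _ (hGmem g' hgG' s i)

end Pool.Agent.H8.CB

/-!
# Row Hts: equivalent states have the same hit lines in open groups

Suppose that `r = (i, a)` is not hit by `ρ'.O`. Let `c j` be such that the line `(j, c j)` of the other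
side is not hit by `ρ'.O` (`exists_line`, for `ρ'`). For every `b ≠ a` such that `(i, b)` is not hit by
`ρ.O`, this line is not blocked for `ρ` (`not_blk_of_open`), so by `fre_avoid` (for `ρ`, and
`0 < m ^ 2 / 2`) there is an unread cell `κ b` of `ρ` on the line `(i, b)` with
`cd (κ b) (!s) ≠ (j, c j)` for all `j`. Let `Z` be the set of these cells. `F (ov Z ρ)` holds: the group
`(s, i)` is full, since `(i, a)` is hit by `ρ.O`. But `¬ F (ov Z ρ')`: `ov Z ρ' ⊆ Z ∪ ρ'.O`; the group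
`(s, i)` is not full, since `(i, a)` is not hit by `ρ'.O` and the cells of `Z` are on the lines `(i, b)`,
`b ≠ a`; a group `(s, i')`, `i' ≠ i`, is not full, since some line of it is not hit by `ρ'.O`, and `Z`
has no cells on it; a group `(!s, j)` is not full because of the line `(j, c j)`.
-/

namespace Pool.Agent.H8.CB

variable {m k h T : ℕ}

open Classical in
theorem Hts_ex (hp : Par m k h T) {t : Bool → R m → ℕ} {ρ : St m}
    (ht : ∀ s r, t s r < h) (hg : Good t ρ) {s : Bool} {i : Fin m}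
    (ho : 2 ≤ (U ρ.O s i).card) (c : Fin m → Fin m) (b : Fin m) :
    ∃ x : W m, b ∈ U ρ.O s i → (cd x s = (i, b) ∧ x ∉ ρ.S ∧
      (cd x (!s)).2 ≠ c (cd x (!s)).1) := by
  by_cases hb : b ∈ U ρ.O s i
  · have hu := mem_U.1 hb
    have hnb := not_blk_of_open ho b
    have h1 := fre_avoid hp ht hg hu hnb c
    have hm : 1280 ≤ m := by
      have := hp.hk
      have := hp.hm
      omega
    have h2 : 0 < m ^ 2 / 2 := by
      have : 2 ≤ m ^ 2 := by nlinarith
      omega
    obtain ⟨x, hx⟩ := Finset.card_pos.1 (lt_of_lt_of_le h2 h1)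
    rw [Finset.mem_filter] at hx
    have h3 := fre_core hu hnb hx.1
    exact ⟨x, fun _ => ⟨h3.2, h3.1.1, hx.2⟩⟩
  · exact ⟨((i, b), (i, b)), fun h => absurd h hb⟩

theorem hit_of_equiv (hp : Par m k h T) {t : Bool → R m → ℕ} {ρ ρ' : St m}
    (ht : ∀ s r, t s r < h) (hg : Good t ρ) (h1' : ∀ s i, ∃ a, ¬ Hit ρ'.O s (i, a))
    (he : ∀ Z, F (ov Z ρ) → F (ov Z ρ')) {s : Bool} {i a : Fin m}
    (ho : 2 ≤ (U ρ.O s i).card) (hh : Hit ρ.O s (i, a)) : Hit ρ'.O s (i, a) := by
  by_contra hcon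
  obtain ⟨c, hc⟩ := exists_line h1' s
  choose κ hκ using Hts_ex hp ht hg ho c
  have hF : F (ov ((U ρ.O s i).image κ) ρ) :=
    mk_full (fun b hb => ⟨(hκ b hb).1, (hκ b hb).2.1⟩)
  obtain ⟨s', i', hfull⟩ := he _ hF
  have key : ∀ r, ¬ Hit ρ'.O s' r → Hit (ov ((U ρ.O s i).image κ) ρ') s' r →
      ∃ b ∈ U ρ.O s i, cd (κ b) s' = r := by
    intro r h1 h2
    rcases hit_union.1 (h2.mono (ov_subset _ _)) with h3 | h3
    · obtain ⟨x, hx, hxr⟩ := h3
      obtain ⟨b, hb, rfl⟩ := Finset.mem_image.1 hx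
      exact ⟨b, hb, hxr⟩
    · exact absurd h3 h1
  by_cases hs : s' = s
  · subst hs
    by_cases hi : i' = i
    · subst hi
      obtain ⟨b, hb, hb2⟩ := key _ hcon (hfull a)
      rw [(hκ b hb).1] at hb2
      have : b = a := congrArg Prod.snd hb2
      subst this
      exact mem_U.1 hb hh
    · obtain ⟨a', ha'⟩ := h1' s' i'
      obtain ⟨b, hb, hb2⟩ := key _ ha' (hfull a')
      rw [(hκ b hb).1] at hb2
      exact hi (congrArg Prod.fst hb2).symm
  · have hs' : s' = !s := by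
      cases s <;> cases s' <;> simp_all
    subst hs'
    obtain ⟨b, hb, hb2⟩ := key _ (hc i') (hfull (c i'))
    have h3 := (hκ b hb).2.2
    rw [hb2] at h3
    exact h3 rfl


end Pool.Agent.H8.CB

/-!
# Row Mtm: two core cells on different unhit lines of one group lie in a common minterm

If `F (ov {x, y} ρ)` take `E = {x, y}`: a proper subset `D` of `{x, y}` is contained in `{x}` or in
`{y}`, so `¬ F (ov D ρ)` by `single`. Otherwise let `i = (cd x s).1`. For every group `j` of the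
side `!s` there is a line `(j, c j)` that is not hit by `ov {x, y} ρ`, so it is not hit by `ρ.O` and
contains neither `x` nor `y` (`x, y ∉ ρ.S`, so they belong to `ov {x, y} ρ`). The group `(s, i)` is
open (`open_of_not_blk`), so its unhit lines are not blocked. Define `κ a` for `a ∈ U ρ.O s i`: `κ a = x`
if `(i, a) = cd x s`, `κ a = y` if `(i, a) = cd y s`, and otherwise a cell of `fre ρ s (i, a)` whose
other line is not of the form `(j, c j)` (`fre_avoid`). Then `E = image κ U` contains `x` and `y`, and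
`mk_full`, `mk_min` apply.
-/

namespace Pool.Agent.H8.CB

variable {m k h T : ℕ}

theorem Mtm_cell (hp : Par m k h T) {t : Bool → R m → ℕ} {ρ : St m}
    (ht : ∀ s r, t s r < h) (hg : Good t ρ) {s : Bool} {r : R m} (hu : ¬ Hit ρ.O s r)
    (hb : ¬ Blk ρ.O s r) (c : Fin m → Fin m) :
    ∃ z : W m, cd z s = r ∧ z ∉ ρ.S ∧ ∀ j, cd z (!s) ≠ (j, c j) := by
  classical
  have h1 := fre_avoid hp ht hg hu hb c
  have hm : 1280 ≤ m := by
    have h2 := hp.hk
    have h3 := hp.hm
    omega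
  have h2 : 0 < m ^ 2 / 2 := by
    have h3 : 1280 ^ 2 ≤ m ^ 2 := Nat.pow_le_pow_left hm 2
    omega
  obtain ⟨z, hz⟩ := Finset.card_pos.1 (lt_of_lt_of_le h2 h1)
  obtain ⟨hz1, hz2⟩ := Finset.mem_filter.1 hz
  unfold fre at hz1
  replace hz1 := Finset.mem_filter.1 hz1
  refine ⟨z, hz1.2.1, hz1.2.2.1, fun j hj => hz2 ?_⟩
  rw [hj]

theorem exists_minterm (hp : Par m k h T) {t : Bool → R m → ℕ} {ρ : St m}
    (ht : ∀ s r, t s r < h) (hg : Good t ρ) {x y : W m} {s : Bool} (hx : Core ρ x)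
    (hy : Core ρ y) (hxs : ¬ Hit ρ.O s (cd x s)) (hys : ¬ Hit ρ.O s (cd y s))
    (h1 : (cd x s).1 = (cd y s).1) (hne : cd x s ≠ cd y s) :
    ∃ E : Finset (W m), x ∈ E ∧ y ∈ E ∧ F (ov E ρ) ∧ ∀ D, D ⊆ E → F (ov D ρ) → D = E := by
  classical
  have hone := hg.2.1
  by_cases hF : F (ov {x, y} ρ)
  · refine ⟨{x, y}, Finset.mem_insert_self _ _, by simp, hF, fun D hD hFD => ?_⟩
    have hxD : x ∈ D := by
      by_contra hxD
      refine single hone hy.2.1 (Z := D) (fun z hz => ?_) hFD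
      have h2 := hD hz
      rw [Finset.mem_insert] at h2
      rcases h2 with h2 | h2
      · exact absurd (h2 ▸ hz) hxD
      · exact h2
    have hyD : y ∈ D := by
      by_contra hyD
      refine single hone hx.2.1 (Z := D) (fun z hz => ?_) hFD
      have h2 := hD hz
      rw [Finset.mem_insert, Finset.mem_singleton] at h2
      rcases h2 with h2 | h2
      · rw [h2]
        exact Finset.mem_singleton_self _
      · exact absurd (h2 ▸ hz) hyD
    refine Finset.Subset.antisymm hD (fun z hz => ?_)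
    rw [Finset.mem_insert, Finset.mem_singleton] at hz
    rcases hz with hz | hz
    · rw [hz]
      exact hxD
    · rw [hz]
      exact hyD
  · have hex : ∀ j : Fin m, ∃ a, ¬ Hit (ov {x, y} ρ) (!s) (j, a) := by
      intro j
      by_contra hcon
      push Not at hcon
      exact hF ⟨!s, j, hcon⟩
    choose c hc using hex
    have hc' : ∀ j, ¬ Hit ρ.O (!s) (j, c j) := fun j h => hc j (hit_ov_of h)
    have hxov : x ∈ ov {x, y} ρ := by
      unfold ov
      rw [Finset.mem_union, Finset.mem_sdiff]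
      exact Or.inl ⟨Finset.mem_insert_self _ _, hx.1⟩
    have hyov : y ∈ ov {x, y} ρ := by
      unfold ov
      rw [Finset.mem_union, Finset.mem_sdiff]
      exact Or.inl ⟨by simp, hy.1⟩
    have hcx : ∀ j, cd x (!s) ≠ (j, c j) := fun j h => hc j ⟨x, hxov, h⟩
    have hcy : ∀ j, cd y (!s) ≠ (j, c j) := fun j h => hc j ⟨y, hyov, h⟩
    have hop : 2 ≤ (U ρ.O s (cd x s).1).card := open_of_not_blk hxs (hx.2.1 s)
    have hz : ∀ a, ∃ z : W m, (((cd x s).1, a) = cd x s → z = x) ∧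
        (((cd x s).1, a) = cd y s → z = y) ∧ (a ∈ U ρ.O s (cd x s).1 →
          cd z s = ((cd x s).1, a) ∧ z ∉ ρ.S ∧ ∀ j, cd z (!s) ≠ (j, c j)) := by
      intro a
      by_cases h2 : ((cd x s).1, a) = cd x s
      · exact ⟨x, fun _ => rfl, fun h3 => absurd (h2.symm.trans h3) hne,
          fun _ => ⟨h2.symm, hx.1, hcx⟩⟩
      · by_cases h3 : ((cd x s).1, a) = cd y s
        · exact ⟨y, fun h4 => absurd h4 h2, fun _ => rfl, fun _ => ⟨h3.symm, hy.1, hcy⟩⟩
        · by_cases ha : a ∈ U ρ.O s (cd x s).1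
          · obtain ⟨z, hz1, hz2, hz3⟩ := Mtm_cell hp ht hg (mem_U.1 ha)
              (not_blk_of_open hop a) c
            exact ⟨z, fun h4 => absurd h4 h2, fun h4 => absurd h4 h3, fun _ => ⟨hz1, hz2, hz3⟩⟩
          · exact ⟨x, fun h4 => absurd h4 h2, fun h4 => absurd h4 h3, fun h4 => absurd h4 ha⟩
    choose κ hκx hκy hκ using hz
    have ex : ((cd x s).1, (cd x s).2) = cd x s := rfl
    have ey : ((cd x s).1, (cd y s).2) = cd y s := by
      rw [h1]
    refine ⟨(U ρ.O s (cd x s).1).image κ, ?_, ?_, ?_, ?_⟩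
    · rw [Finset.mem_image]
      refine ⟨(cd x s).2, mem_U.2 ?_, hκx _ ex⟩
      rw [ex]
      exact hxs
    · rw [Finset.mem_image]
      refine ⟨(cd y s).2, mem_U.2 ?_, hκy _ ey⟩
      rw [ey]
      exact hys
    · exact mk_full fun a ha => ⟨(hκ a ha).1, (hκ a ha).2.1⟩
    · intro D hD hFD
      exact mk_min hone (fun a ha => ⟨(hκ a ha).1, (hκ a ha).2.1⟩) hc'
        (fun a ha => (hκ a ha).2.2) hD hFD

end Pool.Agent.H8.CB
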