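import Pool.Agent.H8.CB.Base
import Pool.Agent.H8.CB.Rules
import Pool.Agent.H8.CB.Terms

/-!
# Row Cnn: the core cells are connected

Call `x` good for `(s, i)` if `Core ρ x`, `¬ Hit ρ.O s (cd x s)` and `(cd x s).1 = i`.
(1) If `x`, `y` are good for the same `(s, i)` then `p x ↔ p y`: if `cd x s ≠ cd y s` this is `hp`.
If `cd x s = cd y s`: this line is unhit and not blocked, so (`open_of_not_blk`) there is another unhit
line `(i, b)` in the group, it is not blocked (`not_blk_of_open`), so it has a core cell `z`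
(`fre2_card`, `fre_core`), and `p x ↔ p z ↔ p y` by `hp`.
(2) Let `x` be good for `(false, i)` and `y` good for `(false, i')`. The lines of `x` and of `y` on the
side `false` are unhit and not blocked. By `fre2_card` each of them has more than `m ^ 2 / 2` core
cells whose other line is not hit; since at most `m` cells of a line have their other line in a given
group `j`, these cells involve more than `m / 2` groups `j` of the side `true`
(`Finset.card_le_mul_card_image`). So there is a common group `j`, with cells `x'` on the line of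
`x`, `y'` on the line of `y`, both good for `(true, j)`. So `p x ↔ p x' ↔ p y' ↔ p y` by (1).
(3) Let `x` be any core cell. It is good for some `(s, i)`. If `s = false` fine. If `s = true` then the
line `cd x true` has (by `fre2_card`) a core cell `x'` whose other line is not hit, so `x'` is good for
`(true, i)` and for `(false, i')` with some `i'`; and `p x ↔ p x'` by (1). So every core cell is
equivalent to one that is good for some `(false, i)`, and (2) finishes the proof.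
-/

namespace Pool.Agent.H8.CB

variable {m k h T : ℕ}

/-- two core cells that are good for the same group -/
theorem connected_one (hpar : Par m k h T) {t : Bool → R m → ℕ} {ρ : St m} (ht : ∀ s r, t s r < h)
    (hg : Good t ρ) (hO : ρ.O.card ≤ T) {p : W m → Prop}
    (hp : ∀ (x y : W m) (s : Bool), Core ρ x → Core ρ y → ¬ Hit ρ.O s (cd x s) →
      ¬ Hit ρ.O s (cd y s) → (cd x s).1 = (cd y s).1 → cd x s ≠ cd y s → (p x ↔ p y))
    (x y : W m) (s : Bool) (hx : Core ρ x) (hy : Core ρ y) (hhx : ¬ Hit ρ.O s (cd x s))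
    (hhy : ¬ Hit ρ.O s (cd y s)) (hxy : (cd x s).1 = (cd y s).1) : p x ↔ p y := by
  classical
  by_cases he : cd x s = cd y s
  · have h2 : 2 ≤ (U ρ.O s (cd x s).1).card := open_of_not_blk hhx (hx.2.1 s)
    obtain ⟨b, hb, hne⟩ := Finset.exists_mem_ne (show 1 < (U ρ.O s (cd x s).1).card by omega)
      (cd x s).2
    have hbh : ¬ Hit ρ.O s ((cd x s).1, b) := mem_U.1 hb
    have hbb : ¬ Blk ρ.O s ((cd x s).1, b) := not_blk_of_open h2 b
    have hc := fre2_card hpar ht hg hO hbh hbb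
    have hpos : 0 < ((fre ρ s ((cd x s).1, b)).filter
        (fun x => ¬ Hit ρ.O (!s) (cd x (!s)))).card := by
      rcases Nat.eq_zero_or_pos ((fre ρ s ((cd x s).1, b)).filter
        (fun x => ¬ Hit ρ.O (!s) (cd x (!s)))).card with h0 | h0
      · rw [h0] at hc
        omega
      · exact h0
    obtain ⟨z, hz⟩ := Finset.card_pos.1 hpos
    obtain ⟨hzc, hzs⟩ := fre_core hbh hbb (Finset.mem_filter.1 hz).1
    have hz1 : ¬ Hit ρ.O s (cd z s) := by rw [hzs]; exact hbh
    have hz2 : cd x s ≠ cd z s := by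
      rw [hzs]
      intro hh
      apply hne
      rw [hh]
    have hz3 : (cd x s).1 = (cd z s).1 := by rw [hzs]
    have e1 := hp x z s hx hzc hhx hz1 hz3 hz2
    have e2 := hp y z s hy hzc hhy hz1 (hxy ▸ hz3) (he ▸ hz2)
    exact e1.trans e2.symm
  · exact hp x y s hx hy hhx hhy hxy he

open Classical in
/-- the groups of the other side met by the core cells of a line -/
theorem connected_img (hpar : Par m k h T) {t : Bool → R m → ℕ} {ρ : St m} (ht : ∀ s r, t s r < h)
    (hg : Good t ρ) (hO : ρ.O.card ≤ T) {s : Bool} {r : R m} (hu : ¬ Hit ρ.O s r)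
    (hb : ¬ Blk ρ.O s r) :
    m < 2 * (((fre ρ s r).filter (fun x => ¬ Hit ρ.O (!s) (cd x (!s)))).image
      (fun x => (cd x (!s)).1)).card := by
  have hc := fre2_card hpar ht hg hO hu hb
  have hle := Finset.card_le_mul_card_image (f := fun x : W m => (cd x (!s)).1)
    ((fre ρ s r).filter (fun x => ¬ Hit ρ.O (!s) (cd x (!s)))) m (by
      intro j _
      have hinj : (((fre ρ s r).filter (fun x => ¬ Hit ρ.O (!s) (cd x (!s)))).filter
          (fun x => (cd x (!s)).1 = j)).card ≤ (Finset.univ : Finset (Fin m)).card := by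
        apply Finset.card_le_card_of_injOn (fun x => (cd x (!s)).2)
        · intro x _
          exact Finset.mem_coe.2 (Finset.mem_univ _)
        · intro a ha b hb' hab
          have ha' := Finset.mem_filter.1 (Finset.mem_coe.1 ha)
          have hb'' := Finset.mem_filter.1 (Finset.mem_coe.1 hb')
          have ca := (fre_core hu hb (Finset.mem_filter.1 ha'.1).1).2
          have cb := (fre_core hu hb (Finset.mem_filter.1 hb''.1).1).2
          apply eq_of_cd s (ca.trans cb.symm)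
          apply Prod.ext
          · exact ha'.2.trans hb''.2.symm
          · exact hab
      simpa using hinj)
  have h1 : m * m < 2 * (m * (((fre ρ s r).filter
      (fun x => ¬ Hit ρ.O (!s) (cd x (!s)))).image (fun x => (cd x (!s)).1)).card) := by
    calc m * m = m ^ 2 := by ring
      _ < 2 * ((fre ρ s r).filter (fun x => ¬ Hit ρ.O (!s) (cd x (!s)))).card := hc
      _ ≤ _ := Nat.mul_le_mul_left 2 hle
  have h2 : m * m < m * (2 * (((fre ρ s r).filter
      (fun x => ¬ Hit ρ.O (!s) (cd x (!s)))).image (fun x => (cd x (!s)).1)).card) := by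
    calc m * m < _ := h1
      _ = _ := by ring
  exact Nat.lt_of_mul_lt_mul_left h2

/-- two core cells on unhit rows -/
theorem connected_two (hpar : Par m k h T) {t : Bool → R m → ℕ} {ρ : St m} (ht : ∀ s r, t s r < h)
    (hg : Good t ρ) (hO : ρ.O.card ≤ T) {p : W m → Prop}
    (hp : ∀ (x y : W m) (s : Bool), Core ρ x → Core ρ y → ¬ Hit ρ.O s (cd x s) →
      ¬ Hit ρ.O s (cd y s) → (cd x s).1 = (cd y s).1 → cd x s ≠ cd y s → (p x ↔ p y))
    (x y : W m) (hx : Core ρ x) (hy : Core ρ y) (hhx : ¬ Hit ρ.O false (cd x false))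
    (hhy : ¬ Hit ρ.O false (cd y false)) : p x ↔ p y := by
  classical
  have hA := connected_img hpar ht hg hO hhx (hx.2.1 false)
  have hB := connected_img hpar ht hg hO hhy (hy.2.1 false)
  have hnd : ¬ Disjoint
      (((fre ρ false (cd x false)).filter (fun x => ¬ Hit ρ.O (!false) (cd x (!false)))).image
        (fun x => (cd x (!false)).1))
      (((fre ρ false (cd y false)).filter (fun x => ¬ Hit ρ.O (!false) (cd x (!false)))).image
        (fun x => (cd x (!false)).1)) := by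
    intro hd
    have h1 := Finset.card_union_of_disjoint hd
    have h2 := Finset.card_le_univ
      ((((fre ρ false (cd x false)).filter (fun x => ¬ Hit ρ.O (!false) (cd x (!false)))).image
        (fun x => (cd x (!false)).1)) ∪
      (((fre ρ false (cd y false)).filter (fun x => ¬ Hit ρ.O (!false) (cd x (!false)))).image
        (fun x => (cd x (!false)).1)))
    rw [Fintype.card_fin] at h2
    omega
  obtain ⟨j, hj1, hj2⟩ := Finset.not_disjoint_iff.1 hnd
  obtain ⟨x', hx', ex'⟩ := Finset.mem_image.1 hj1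
  obtain ⟨y', hy', ey'⟩ := Finset.mem_image.1 hj2
  have hx1 := Finset.mem_filter.1 hx'
  have hy1 := Finset.mem_filter.1 hy'
  obtain ⟨cx, lx⟩ := fre_core hhx (hx.2.1 false) hx1.1
  obtain ⟨cy, ly⟩ := fre_core hhy (hy.2.1 false) hy1.1
  have e1 := connected_one hpar ht hg hO hp x x' false hx cx hhx (by rw [lx]; exact hhx)
    (by rw [lx])
  have e2 := connected_one hpar ht hg hO hp x' y' (!false) cx cy hx1.2 hy1.2
    (ex'.trans ey'.symm)
  have e3 := connected_one hpar ht hg hO hp y' y false cy hy (by rw [ly]; exact hhy) hhy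
    (by rw [ly])
  exact (e1.trans e2).trans e3

/-- every core cell is equivalent to one on an unhit row -/
theorem connected_three (hpar : Par m k h T) {t : Bool → R m → ℕ} {ρ : St m}
    (ht : ∀ s r, t s r < h)
    (hg : Good t ρ) (hO : ρ.O.card ≤ T) {p : W m → Prop}
    (hp : ∀ (x y : W m) (s : Bool), Core ρ x → Core ρ y → ¬ Hit ρ.O s (cd x s) →
      ¬ Hit ρ.O s (cd y s) → (cd x s).1 = (cd y s).1 → cd x s ≠ cd y s → (p x ↔ p y))
    (x : W m) (hx : Core ρ x) :
    ∃ x' : W m, Core ρ x' ∧ ¬ Hit ρ.O false (cd x' false) ∧ (p x ↔ p x') := by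
  classical
  obtain ⟨s, hs⟩ := hx.2.2
  cases s with
  | false => exact ⟨x, hx, hs, Iff.rfl⟩
  | true =>
    have hc := fre2_card hpar ht hg hO hs (hx.2.1 true)
    have hpos : 0 < ((fre ρ true (cd x true)).filter
        (fun x => ¬ Hit ρ.O (!true) (cd x (!true)))).card := by
      rcases Nat.eq_zero_or_pos ((fre ρ true (cd x true)).filter
        (fun x => ¬ Hit ρ.O (!true) (cd x (!true)))).card with h0 | h0
      · rw [h0] at hc
        omega
      · exact h0
    obtain ⟨z, hz⟩ := Finset.card_pos.1 hpos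
    have hz1 := Finset.mem_filter.1 hz
    obtain ⟨cz, lz⟩ := fre_core hs (hx.2.1 true) hz1.1
    refine ⟨z, cz, hz1.2, ?_⟩
    exact connected_one hpar ht hg hO hp x z true hx cz hs (by rw [lz]; exact hs) (by rw [lz])

theorem connected (hpar : Par m k h T) {t : Bool → R m → ℕ} {ρ : St m} (ht : ∀ s r, t s r < h)
    (hg : Good t ρ) (hO : ρ.O.card ≤ T) {p : W m → Prop}
    (hp : ∀ (x y : W m) (s : Bool), Core ρ x → Core ρ y → ¬ Hit ρ.O s (cd x s) →
      ¬ Hit ρ.O s (cd y s) → (cd x s).1 = (cd y s).1 → cd x s ≠ cd y s → (p x ↔ p y)) :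
    ∀ x y : W m, Core ρ x → Core ρ y → (p x ↔ p y) := by
  intro x y hx hy
  obtain ⟨x', cx, hx', ex⟩ := connected_three hpar ht hg hO hp x hx
  obtain ⟨y', cy, hy', ey⟩ := connected_three hpar ht hg hO hp y hy
  exact (ex.trans (connected_two hpar ht hg hO hp x' y' cx cy hx' hy')).trans ey.symm

end Pool.Agent.H8.CB

/-!
# Row Cro: splitting as a disjunction

`core_or`: let `x, y` be core cells on different unhit lines of a group `(s, i)`, and `E` the
minterm of `exists_minterm`. Since `F (ov E ρ)`, `E` is not disjoint from any `T ∈ Q.2`. If `E` were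
disjoint from `D0 ∈ Q0.2` and from `D1 ∈ Q1.2`, it would be disjoint from the `T ⊆ D0 ∪ D1` of
`OrSplit`. So by completeness of `Q0` and of `Q1` there is `D ∈ Q0.1` or `D ∈ Q1.1` with `D ⊆ E`;
it contains some `E' ∈ Q.1`, so `F (ov D ρ)` (`Compat` with `Z = D`), so `D = E`. Hence `x` and `y`
both occur in `Q0`, or both occur in `Q1`, and then (`Apart`) both do not occur in `Q0`. So
`connected` applies to `p x := Occ Q0 x`: either all core cells occur in `Q0`, and then none occurs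
in `Q1` (`Apart`), or none occurs in `Q0`.
`or_ne`: if `Q1.2 = ∅` then completeness of `Q1` with `Z = ∅` gives `E = ∅ ∈ Q1.1`, so by
`OrSplit` `∅ ∈ Q.1`.
-/

namespace Pool.Agent.H8.CB

variable {m k h T : ℕ}

/-- the vertex `x` occurs in the subproblem `Q` -/
def Occ {V : Type} (Q : Sub V) (x : V) : Prop := ∃ D, (D ∈ Q.1 ∨ D ∈ Q.2) ∧ x ∈ D

private theorem Cro_apart {V : Type} {Q0 Q1 : Sub V} (h : Apart Q0 Q1) {x : V} (h0 : Occ Q0 x)
    (h1 : Occ Q1 x) : False := by
  obtain ⟨D0, hD0, hx0⟩ := h0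
  obtain ⟨D1, hD1, hx1⟩ := h1
  exact (Finset.disjoint_left.1 (h D0 hD0 D1 hD1)) hx0 hx1

theorem core_or (hp : Par m k h T) {t : Bool → R m → ℕ} {ρ : St m} (ht : ∀ s r, t s r < h)
    (hg : Good t ρ) (hO : ρ.O.card ≤ T) {Q Q0 Q1 : Sub (W m)} (hs : OrSplit Q Q0 Q1)
    (h0 : Complete Q0) (h1 : Complete Q1) (hc : Compat Q ρ) :
    (∀ x, Core ρ x → ¬ Occ Q1 x) ∨ (∀ x, Core ρ x → ¬ Occ Q0 x) := by
  obtain ⟨hap, hs1, hs2⟩ := hs
  have key : ∀ (x y : W m) (s : Bool), Core ρ x → Core ρ y → ¬ Hit ρ.O s (cd x s) →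
      ¬ Hit ρ.O s (cd y s) → (cd x s).1 = (cd y s).1 → cd x s ≠ cd y s →
      (Occ Q0 x ↔ Occ Q0 y) := by
    intro x y s hx hy hxs hys h1' hne
    obtain ⟨E, hxE, hyE, hFE, hmin⟩ := exists_minterm hp ht hg hx hy hxs hys h1' hne
    have hfin : ∃ D, (D ∈ Q0.1 ∨ D ∈ Q1.1) ∧ D ⊆ E := by
      rcases h0 E with ⟨D, hD, hDE⟩ | ⟨D0, hD0, hd0⟩
      · exact ⟨D, Or.inl hD, hDE⟩
      · rcases h1 E with ⟨D, hD, hDE⟩ | ⟨D1, hD1, hd1⟩
        · exact ⟨D, Or.inr hD, hDE⟩
        · exfalso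
          obtain ⟨T', hT', hsub⟩ := hs2 D0 hD0 D1 hD1
          refine (hc E).2 T' hT' ?_ hFE
          exact Finset.disjoint_of_subset_left hsub (Finset.disjoint_union_left.2 ⟨hd0, hd1⟩)
    obtain ⟨D, hD, hDE⟩ := hfin
    obtain ⟨E', hE', hE'D⟩ := hs1 D (Finset.mem_union.2 hD)
    have hDeq := hmin D hDE ((hc D).1 E' hE' hE'D)
    subst hDeq
    rcases hD with hD | hD
    · exact ⟨fun _ => ⟨D, Or.inl hD, hyE⟩, fun _ => ⟨D, Or.inl hD, hxE⟩⟩
    · exact ⟨fun h => (Cro_apart hap h ⟨D, Or.inl hD, hxE⟩).elim,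
        fun h => (Cro_apart hap h ⟨D, Or.inl hD, hyE⟩).elim⟩
  have hconn := connected hp ht hg hO (p := fun x => Occ Q0 x) key
  by_cases hex : ∃ x, Core ρ x ∧ Occ Q0 x
  · obtain ⟨x0, hx0, ho⟩ := hex
    exact Or.inl fun x hx hx1 => Cro_apart hap ((hconn x0 x hx0 hx).1 ho) hx1
  · exact Or.inr fun x hx hx1 => hex ⟨x, hx, hx1⟩

theorem or_ne {V : Type} [DecidableEq V] {Q Q0 Q1 : Sub V} (hs : OrSplit Q Q0 Q1)
    (h1 : Complete Q1) (he : ∅ ∉ Q.1) : Q1.2.Nonempty := by
  rcases h1 ∅ with ⟨E, hE, hE0⟩ | ⟨T', hT', _⟩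
  · exfalso
    obtain ⟨E', hE', hsub⟩ := hs.2.1 E (Finset.mem_union_right _ hE)
    have h2 : E' = ∅ := Finset.subset_empty.1 (hsub.trans hE0)
    rw [h2] at hE'
    exact he hE'
  · exact ⟨T', hT'⟩

end Pool.Agent.H8.CB

/-!
# Row Cra: splitting as a conjunction

`pair`: let `x`, `y` be core cells that lie on unhit lines `(s, r)`, `(s', r')` with either different
`(s, r.1) ≠ (s', r'.1)`. Choose `g` with all `(i, g s i)` not hit (`h1` of `Good`, by choice) such that
`g s r.1 = r.2` and `g s' r'.1 = r'.2`. Both groups are open (`open_of_not_blk`). Let `Z = (maxt g)ᶜ`;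
`¬ F (ov Z ρ)` (`mx_zero`). If both `Q0` and `Q1` had a member of the first side contained in `Z`,
then by `AndSplit` so had `Q`, and `F (ov Z ρ)` by `Compat`. So by completeness there is
`D ∈ Q0.2 ∪ Q1.2` disjoint from `Z`, i.e. `D ⊆ maxt g`. It contains some `T ∈ Q.2`, which is disjoint
from `Dᶜ`, so `¬ F (ov Dᶜ ρ)`, and `mx_min` gives `x ∈ D`, `y ∈ D`. So `x`, `y` both occur in `Q0` or
both occur in `Q1`, whence `Occ Q0 x ↔ Occ Q0 y` (`Apart`).
`core_and`: the same for `x`, `y` on different unhit lines of the same group `(s, i)`: by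
`exists_rich` for the side `!s` (and `k < m - 1`) there is an open group of the side `!s`; it has an unhit
line, which is not blocked and has a core cell `z` (`fre_avoid` or `fre2_card`, `fre_core`). By `pair`
`Occ Q0 x ↔ Occ Q0 z ↔ Occ Q0 y`. So `connected` applies to `p := Occ Q0`; conclude as in `core_or`.
`and_empty`: let no core cell occur in `Q1`, and suppose `∅ ∉ Q1.1`. Completeness of `Q1` for
`Z = ∅` gives `D ∈ Q1.2`. By `AndSplit` it contains some `T ∈ Q.2`, so `¬ F (ov Dᶜ ρ)` (`Compat`).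
But `D` contains no core cell. Let `(s, i)` be an open group (`exists_rich`). Each of its lines is
hit by `ρ.O` or it is unhit and not blocked and has a core cell (`fre_avoid`, `fre_core`), which is
in `Dᶜ \ ρ.S`. So the group is full for `ov Dᶜ ρ`, a contradiction.
-/

namespace Pool.Agent.H8.CB

variable {m k h T : ℕ}

theorem Cra_cell (hp : Par m k h T) {t : Bool → R m → ℕ} {ρ : St m} (ht : ∀ s r, t s r < h)
    (hg : Good t ρ) {s : Bool} {r : R m} (hu : ¬ Hit ρ.O s r) (hb : ¬ Blk ρ.O s r) :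
    ∃ z, Core ρ z ∧ cd z s = r := by
  have h1 := fre_avoid hp ht hg hu hb id
  have h2 : 0 < m ^ 2 / 2 := by
    have h3 : 5 ≤ m := by have := hp.hk; have := hp.hm; omega
    have h4 : 5 ^ 2 ≤ m ^ 2 := Nat.pow_le_pow_left h3 2
    omega
  obtain ⟨z, hz⟩ := Finset.card_pos.1 (lt_of_lt_of_le h2 h1)
  exact ⟨z, fre_core hu hb (Finset.mem_filter.1 hz).1⟩

theorem Cra_rich (hp : Par m k h T) {O : Finset (W m)} (hO : O.card ≤ T) (s : Bool) :
    ∃ i : Fin m, 2 ≤ (U O s i).card := by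
  obtain ⟨i, hi⟩ := exists_rich hp hO s
  have := hp.hk
  have := hp.hm
  exact ⟨i, by omega⟩

theorem Cra_open (hp : Par m k h T) {t : Bool → R m → ℕ} {ρ : St m} (ht : ∀ s r, t s r < h)
    (hg : Good t ρ) (hO : ρ.O.card ≤ T) (s : Bool) :
    ∃ z, Core ρ z ∧ ¬ Hit ρ.O s (cd z s) := by
  obtain ⟨i, hi⟩ := Cra_rich hp hO s
  obtain ⟨a, ha⟩ := Finset.card_pos.1 (lt_of_lt_of_le (by norm_num : 0 < 2) hi)
  have hu := mem_U.1 ha
  obtain ⟨z, hz, hzr⟩ := Cra_cell hp ht hg hu (not_blk_of_open hi a)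
  exact ⟨z, hz, by rw [hzr]; exact hu⟩

theorem Cra_part (hp : Par m k h T) {t : Bool → R m → ℕ} {ρ : St m} (ht : ∀ s r, t s r < h)
    (hg : Good t ρ) {Q : Sub (W m)} (hc : Compat Q ρ) {g : Bool → Fin m → Fin m}
    {D : Finset (W m)} (hD : Disjoint D (maxt g)ᶜ) (hT : ∃ T ∈ Q.2, T ⊆ D) {x : W m}
    (hx : Core ρ x) {s : Bool} (hxs : ¬ Hit ρ.O s (cd x s))
    (hgx : g s (cd x s).1 = (cd x s).2) : x ∈ D := by
  obtain ⟨T', hT', hTD⟩ := hT
  have hD' : D ⊆ maxt g := by
    intro z hz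
    by_contra hz2
    exact Finset.disjoint_left.1 hD hz (Finset.mem_compl.2 hz2)
  have hF : ¬ F (ov Dᶜ ρ) := by
    refine (hc Dᶜ).2 T' hT' ?_
    refine Finset.disjoint_left.2 fun z hz hz2 => ?_
    exact (Finset.mem_compl.1 hz2) (hTD hz)
  refine mx_min hp ht hg hD' hF (open_of_not_blk hxs (hx.2.1 s)) ?_ hx.1
  rw [hgx]

theorem Cra_apart {V : Type} {Q0 Q1 : Sub V} (hs : Apart Q0 Q1) {x : V} (h0 : Occ Q0 x)
    (h1 : Occ Q1 x) : False := by
  obtain ⟨D0, hD0, hx0⟩ := h0
  obtain ⟨D1, hD1, hx1⟩ := h1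
  exact Finset.disjoint_left.1 (hs D0 hD0 D1 hD1) hx0 hx1

theorem pair (hp : Par m k h T) {t : Bool → R m → ℕ} {ρ : St m} (ht : ∀ s r, t s r < h)
    (hg : Good t ρ) {Q Q0 Q1 : Sub (W m)} (hs : AndSplit Q Q0 Q1)
    (h0 : Complete Q0) (h1 : Complete Q1) (hc : Compat Q ρ) {x y : W m} (hx : Core ρ x)
    (hy : Core ρ y) {s s' : Bool} (hxs : ¬ Hit ρ.O s (cd x s)) (hys : ¬ Hit ρ.O s' (cd y s'))
    (hne : s ≠ s' ∨ (cd x s).1 ≠ (cd y s').1) : Occ Q0 x ↔ Occ Q0 y := by
  classical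
  choose g0 hg0 using hg.2.1
  set g : Bool → Fin m → Fin m := fun s₁ i =>
    if s₁ = s ∧ i = (cd x s).1 then (cd x s).2 else
      if s₁ = s' ∧ i = (cd y s').1 then (cd y s').2 else g0 s₁ i with hgdef
  have hgg : ∀ s₁ i, ¬ Hit ρ.O s₁ (i, g s₁ i) := by
    intro s₁ i
    simp only [hgdef]
    split_ifs with h2 h3
    · rw [h2.1, h2.2]; exact hxs
    · rw [h3.1, h3.2]; exact hys
    · exact hg0 s₁ i
  have hgx : g s (cd x s).1 = (cd x s).2 := by
    simp only [hgdef]
    rw [if_pos ⟨trivial, trivial⟩]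
  have hgy : g s' (cd y s').1 = (cd y s').2 := by
    simp only [hgdef]
    have hn : ¬ (s' = s ∧ (cd y s').1 = (cd x s).1) := by
      rintro ⟨h2, h3⟩
      rcases hne with h4 | h4
      · exact h4 h2.symm
      · exact h4 h3.symm
    rw [if_neg hn, if_pos ⟨trivial, trivial⟩]
  have hz := mx_zero hgg
  rcases h0 (maxt g)ᶜ with ⟨E0, hE0, hE0Z⟩ | ⟨D, hD, hDZ⟩
  · rcases h1 (maxt g)ᶜ with ⟨E1, hE1, hE1Z⟩ | ⟨D, hD, hDZ⟩
    · exfalso
      obtain ⟨E, hE, hEs⟩ := hs.2.1 E0 hE0 E1 hE1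
      exact hz ((hc (maxt g)ᶜ).1 E hE (hEs.trans (Finset.union_subset hE0Z hE1Z)))
    · have hT := hs.2.2 D (Finset.mem_union_right _ hD)
      have hxD := Cra_part hp ht hg hc hDZ hT hx hxs hgx
      have hyD := Cra_part hp ht hg hc hDZ hT hy hys hgy
      constructor
      · intro h2; exact (Cra_apart hs.1 h2 ⟨D, Or.inr hD, hxD⟩).elim
      · intro h2; exact (Cra_apart hs.1 h2 ⟨D, Or.inr hD, hyD⟩).elim
  · have hT := hs.2.2 D (Finset.mem_union_left _ hD)
    have hxD := Cra_part hp ht hg hc hDZ hT hx hxs hgx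
    have hyD := Cra_part hp ht hg hc hDZ hT hy hys hgy
    exact ⟨fun _ => ⟨D, Or.inr hD, hyD⟩, fun _ => ⟨D, Or.inr hD, hxD⟩⟩

theorem core_and (hp : Par m k h T) {t : Bool → R m → ℕ} {ρ : St m} (ht : ∀ s r, t s r < h)
    (hg : Good t ρ) (hO : ρ.O.card ≤ T) {Q Q0 Q1 : Sub (W m)} (hs : AndSplit Q Q0 Q1)
    (h0 : Complete Q0) (h1 : Complete Q1) (hc : Compat Q ρ) :
    (∀ x, Core ρ x → ¬ Occ Q1 x) ∨ (∀ x, Core ρ x → ¬ Occ Q0 x) := by
  have hcon : ∀ x y : W m, Core ρ x → Core ρ y → (Occ Q0 x ↔ Occ Q0 y) := by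
    refine connected hp ht hg hO ?_
    intro x y s hx hy hxs hys _ _
    obtain ⟨z, hz, hzs⟩ := Cra_open hp ht hg hO (!s)
    have e1 := pair hp ht hg hs h0 h1 hc hx hz hxs hzs (Or.inl (by cases s <;> simp))
    have e2 := pair hp ht hg hs h0 h1 hc hy hz hys hzs (Or.inl (by cases s <;> simp))
    exact e1.trans e2.symm
  by_cases hex : ∃ x, Core ρ x ∧ Occ Q0 x
  · obtain ⟨x, hx, hxo⟩ := hex
    left
    intro y hy hyo
    exact Cra_apart hs.1 ((hcon x y hx hy).1 hxo) hyo
  · right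
    intro x hx hxo
    exact hex ⟨x, hx, hxo⟩

theorem and_empty (hp : Par m k h T) {t : Bool → R m → ℕ} {ρ : St m} (ht : ∀ s r, t s r < h)
    (hg : Good t ρ) (hO : ρ.O.card ≤ T) {Q Q0 Q1 : Sub (W m)} (hs : AndSplit Q Q0 Q1)
    (h1 : Complete Q1) (hc : Compat Q ρ) (hno : ∀ x, Core ρ x → ¬ Occ Q1 x) : ∅ ∈ Q1.1 := by
  by_contra he
  rcases h1 ∅ with ⟨E, hE, hE0⟩ | ⟨D, hD, -⟩
  · exact he (by rw [← Finset.subset_empty.1 hE0]; exact hE)
  · obtain ⟨T', hT', hTD⟩ := hs.2.2 D (Finset.mem_union_right _ hD)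
    have hF : ¬ F (ov Dᶜ ρ) := by
      refine (hc Dᶜ).2 T' hT' ?_
      refine Finset.disjoint_left.2 fun z hz hz2 => ?_
      exact (Finset.mem_compl.1 hz2) (hTD hz)
    apply hF
    obtain ⟨i, hi⟩ := Cra_rich hp hO false
    refine ⟨false, i, fun a => ?_⟩
    by_cases hh : Hit ρ.O false (i, a)
    · exact hit_ov_of hh
    · obtain ⟨z, hz, hzr⟩ := Cra_cell hp ht hg hh (not_blk_of_open hi a)
      refine ⟨z, ?_, hzr⟩
      unfold ov
      refine Finset.mem_union_left _ (Finset.mem_sdiff.2 ⟨?_, hz.1⟩)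
      refine Finset.mem_compl.2 fun hzD => ?_
      exact hno z hz ⟨D, Or.inr hD, hzD⟩

end Pool.Agent.H8.CB
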