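import Pool.Agent.H8.CB.Base
import Pool.Agent.H8.CB.Rules
import Pool.Agent.H8.CB.Terms

/-!
# Row Sys: the play is determined by the final set of ones

A `Sys` describes a deterministic way to walk through the nodes `Fin L`: at a node and a state it
either queries a cell (and goes on to `c1` or `c0`), or it makes a move without query, which
may set some unread cells to zero. The play stops when `T` ones have been found.

`step_mono`: each step enlarges `S` and `O`; for the answers `ans t` a cell of `S \ O` never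
enters `O`: in the query step with answer `ans t ρ x` true, `x ∈ ρ.O` or `x ∉ ρ.S`.
`play_mono`: iterate.
`play_eq`: let `O'` be the set of ones of `play (ans t) L`. By induction on `n ≤ L` the two plays
agree at time `n`: in a query step (the number of ones is not `T`) with query `x`, if
`ans t ρ x` then `x` is in the set of ones at time `n + 1`, hence `x ∈ O'` (`play_mono`); if not
then `x ∉ ρ.O` and `x` is in `S \ O` at time `n + 1`, hence at time `L`, so `x ∉ O'`.
(`Function.iterate_succ_apply'`.)
-/

namespace Pool.Agent.H8.CB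

variable {m : ℕ}

structure Sys (m L T : ℕ) where
  qry : Fin L → St m → Option (W m)
  c1 : Fin L → Fin L
  c0 : Fin L → Fin L
  mv : Fin L → St m → Fin L × Finset (W m)

open Classical in
/-- one step of the play with answers `g`. -/
noncomputable def Sys.step {L T : ℕ} (σ : Sys m L T) (g : St m → W m → Prop)
    (p : Fin L × St m) : Fin L × St m :=
  if p.2.O.card = T then p else
    match σ.qry p.1 p.2 with
    | some x => if g p.2 x then (σ.c1 p.1, one p.2 x) else (σ.c0 p.1, zer p.2 {x})
    | none => ((σ.mv p.1 p.2).1, zer p.2 (σ.mv p.1 p.2).2)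

/-- the play from the node `i0` with the empty state, after `n` steps. -/
noncomputable def Sys.play {L T : ℕ} (σ : Sys m L T) (i0 : Fin L) (g : St m → W m → Prop)
    (n : ℕ) : Fin L × St m := (σ.step g)^[n] (i0, ⟨∅, ∅⟩)

theorem Sys.play_succ {L T : ℕ} (σ : Sys m L T) (i0 : Fin L) (g : St m → W m → Prop) (n : ℕ) :
    σ.play i0 g (n + 1) = σ.step g (σ.play i0 g n) := by
  unfold Sys.play
  rw [Function.iterate_succ_apply']

theorem Sys.step_mono {L T : ℕ} (σ : Sys m L T) (t : Bool → R m → ℕ) (p : Fin L × St m) :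
    p.2.S ⊆ (σ.step (ans t) p).2.S ∧ p.2.O ⊆ (σ.step (ans t) p).2.O ∧
    (p.2.O ⊆ p.2.S → (σ.step (ans t) p).2.O ⊆ (σ.step (ans t) p).2.S) ∧
    ∀ x, x ∈ p.2.S → x ∉ p.2.O → x ∉ (σ.step (ans t) p).2.O := by
  classical
  unfold Sys.step
  split_ifs with hT
  · exact ⟨Finset.Subset.refl _, Finset.Subset.refl _, fun h => h, fun x _ h => h⟩
  · cases hq : σ.qry p.1 p.2 with
    | none =>
      simp only [zer]
      exact ⟨Finset.subset_union_left, Finset.Subset.refl _,
        fun h => h.trans Finset.subset_union_left, fun x _ h => h⟩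
    | some x =>
      simp only
      split_ifs with ha
      · simp only [one]
        refine ⟨Finset.subset_insert _ _, Finset.subset_insert _ _,
          fun h => Finset.insert_subset_insert _ h, fun y hy hy' => ?_⟩
        intro h
        rw [Finset.mem_insert] at h
        rcases h with h | h
        · subst h
          rcases ha with ha | ha
          · exact hy' ha
          · exact ha.1 hy
        · exact hy' h
      · simp only [zer]
        exact ⟨Finset.subset_union_left, Finset.Subset.refl _,
          fun h => h.trans Finset.subset_union_left, fun x _ h => h⟩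

theorem Sys.play_mono {L T : ℕ} (σ : Sys m L T) (i0 : Fin L) (t : Bool → R m → ℕ) {n n' : ℕ}
    (hn : n ≤ n') :
    (σ.play i0 (ans t) n).2.S ⊆ (σ.play i0 (ans t) n').2.S ∧
    (σ.play i0 (ans t) n).2.O ⊆ (σ.play i0 (ans t) n').2.O ∧
    (∀ x, x ∈ (σ.play i0 (ans t) n).2.S → x ∉ (σ.play i0 (ans t) n).2.O →
      x ∉ (σ.play i0 (ans t) n').2.O) := by
  induction n', hn using Nat.le_induction with
  | base => exact ⟨Finset.Subset.refl _, Finset.Subset.refl _, fun x _ h => h⟩
  | succ k hk ih =>
    obtain ⟨h1, h2, h3⟩ := ih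
    obtain ⟨g1, g2, _, g4⟩ := σ.step_mono t (σ.play i0 (ans t) k)
    rw [Sys.play_succ]
    exact ⟨h1.trans g1, h2.trans g2, fun x hx hx' => g4 x (h1 hx) (h3 x hx hx')⟩

theorem Sys.play_eq {L T : ℕ} (σ : Sys m L T) (i0 : Fin L) (t : Bool → R m → ℕ) {n : ℕ}
    (hn : n ≤ L) :
    σ.play i0 (fun _ x => x ∈ (σ.play i0 (ans t) L).2.O) n = σ.play i0 (ans t) n := by
  classical
  induction n with
  | zero => rfl
  | succ n ih =>
    have hn' : n ≤ L := by omega
    have hmono := σ.play_mono i0 t hn
    rw [Sys.play_succ, ih hn', Sys.play_succ]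
    rw [Sys.play_succ] at hmono
    obtain ⟨_, m2, m3⟩ := hmono
    set p := σ.play i0 (ans t) n with hp
    set O' := (σ.play i0 (ans t) L).2.O with hO
    unfold Sys.step at m2 m3 ⊢
    split_ifs with hT
    · rfl
    · rw [if_neg hT] at m2 m3
      cases hq : σ.qry p.1 p.2 with
      | none => rfl
      | some x =>
        rw [hq] at m2 m3
        simp only at m2 m3 ⊢
        by_cases ha : ans t p.2 x
        · rw [if_pos ha] at m2 m3
          have hx : x ∈ O' := m2 (Finset.mem_insert_self _ _)
          rw [if_pos ha, if_pos hx]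
        · rw [if_neg ha] at m2 m3
          have hx : x ∉ O' := by
            apply m3 x
            · simp only [zer]
              exact Finset.mem_union_right _ (Finset.mem_singleton_self _)
            · simp only [zer]
              exact fun h => ha (Or.inl h)
          rw [if_neg ha, if_neg hx]

end Pool.Agent.H8.CB

/-!
# Row Fib: few clocks lead to a given set of ones

`first`: let `p n = σ.play i0 (ans t) n` and `x ∈ (p L).2.O`. As `x ∉ (p 0).2.O = ∅` there is a
(least) `n < L` with `x ∉ (p n).2.O` and `x ∈ (p (n + 1)).2.O`. The step from `n` to `n + 1` is then a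
query of `x` with answer `ans t` true (`Sys.step`, `one`), and since `x ∉ (p n).2.O` the second case
of `ans` holds: for some side `s` the line `cd x s` is not hit by `(p n).2.O` and
`cnt (p n).2 s (cd x s) = t s (cd x s)`.

`fiber`: fix `O'` with `O'.card = T`. Let `q n = σ.play i0 (fun _ x => x ∈ O') n`. For every `t` of the
fiber `q n = p n` for `n ≤ L` (`Sys.play_eq`). For `x ∈ O'` let `N x` be the least `n` with
`x ∈ (q (n + 1)).2.O` (`Nat.find`; if there is no such `n` the fiber is empty or use a default), and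
`val x s = cnt (q (N x)).2 s (cd x s)`; these depend on `O'` only. For `t` in the fiber and `x ∈ O'`
there is by `first` a side `w x` with `t (w x) (cd x (w x)) = val x (w x)`, and the line
`cd x (w x)` is not hit by `(q (N x)).2.O`. The pairs `(w x, cd x (w x))`, `x ∈ O'`, are distinct:
if they are equal for `x ≠ x'` and, say, `N x < N x'` (they are different, because one step adds at
most one cell to `O`), then `x ∈ (q (N x')).2.O` hits the line, a contradiction.
So the fiber is contained in the union over all `w : O' → Bool` with distinct pairs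
`ℓ x = (w x, cd x (w x))` of the sets `{t | ∀ x ∈ O', t (ℓ x).1 (ℓ x).2 = val x (w x)}`. Each of these
sets has at most `h ^ (2 * m ^ 2 - T)` elements: the values of `t : Bool × R m → Fin h` are
prescribed on `T` of the `2 * m ^ 2` arguments (`Fintype.piFinset`, `Fintype.card_piFinset`,
`Finset.prod_ite` or injectivity of the restriction to the other arguments). There are `2 ^ T`
functions `w` (`Finset.card_biUnion_le`).
-/

namespace Pool.Agent.H8.CB

variable {m : ℕ}

theorem Sys.step_new {L T : ℕ} (σ : Sys m L T) (g : St m → W m → Prop) (p : Fin L × St m)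
    {x : W m} (h0 : x ∉ p.2.O) (h1 : x ∈ (σ.step g p).2.O) :
    g p.2 x ∧ (σ.step g p).2.O = insert x p.2.O := by
  classical
  unfold Sys.step at h1 ⊢
  split_ifs at h1 ⊢ with hc
  · exact absurd h1 h0
  · cases hq : σ.qry p.1 p.2 with
    | none =>
      rw [hq] at h1
      exact absurd h1 h0
    | some y =>
      rw [hq] at h1
      by_cases hg : g p.2 y
      · simp only [hg, if_true, one] at h1 ⊢
        rcases Finset.mem_insert.1 h1 with h | h
        · subst h
          exact ⟨hg, rfl⟩
        · exact absurd h h0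
      · simp only [hg, if_false, zer] at h1
        exact absurd h1 h0

theorem Sys.first {L T : ℕ} (σ : Sys m L T) (i0 : Fin L) (t : Bool → R m → ℕ) {x : W m}
    (hx : x ∈ (σ.play i0 (ans t) L).2.O) :
    ∃ n, n < L ∧ x ∉ (σ.play i0 (ans t) n).2.O ∧ x ∈ (σ.play i0 (ans t) (n + 1)).2.O ∧
      ∃ s, ¬ Hit (σ.play i0 (ans t) n).2.O s (cd x s) ∧
        cnt (σ.play i0 (ans t) n).2 s (cd x s) = t s (cd x s) := by
  set P : ℕ → Prop := fun n => x ∈ (σ.play i0 (ans t) n).2.O with hP
  have hex : ∃ n, P n := ⟨L, hx⟩
  classical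
  have hN := Nat.find_spec hex
  have hle : Nat.find hex ≤ L := Nat.find_min' hex hx
  have h0 : ¬ P 0 := by
    simp [hP, Sys.play]
  have hne : Nat.find hex ≠ 0 := by
    intro h
    rw [h] at hN
    exact h0 hN
  obtain ⟨n, hn⟩ := Nat.exists_eq_succ_of_ne_zero hne
  have hnot : ¬ P n := Nat.find_min hex (by omega)
  have hyes : P (n + 1) := by
    rw [hn] at hN
    exact hN
  have hs : x ∈ (σ.step (ans t) (σ.play i0 (ans t) n)).2.O := by
    rw [← Sys.play_succ]
    exact hyes
  obtain ⟨ha, -⟩ := σ.step_new (ans t) (σ.play i0 (ans t) n) hnot hs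
  refine ⟨n, by omega, hnot, hyes, ?_⟩
  rcases ha with ha | ha
  · exact absurd ha hnot
  · exact ha.2.2

open Classical in
/-- functions with prescribed values. -/
theorem card_presc {h : ℕ} (O' : Finset (W m)) (w : {x // x ∈ O'} → Bool)
    (hw : Function.Injective (fun x : {x // x ∈ O'} => ((w x, cd x.1 (w x)) : Bool × R m)))
    (val : W m → Bool → ℕ) :
    (Finset.univ.filter (fun t : Bool → R m → Fin h =>
      ∀ x : {x // x ∈ O'}, (t (w x) (cd x.1 (w x)) : ℕ) = val x.1 (w x))).card ≤
      h ^ (2 * m ^ 2 - O'.card) := by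
  set Q : Finset (Bool × R m) :=
    Finset.univ.image (fun x : {x // x ∈ O'} => ((w x, cd x.1 (w x)) : Bool × R m)) with hQ
  have hQc : Q.card = O'.card := by
    rw [hQ, Finset.card_image_of_injective _ hw, Finset.card_univ, Fintype.card_coe]
  have hcard : Fintype.card ({p // ¬ p ∈ Q} → Fin h) = h ^ (2 * m ^ 2 - O'.card) := by
    rw [Fintype.card_fun, Fintype.card_fin, Fintype.card_subtype_compl, Fintype.card_coe, hQc]
    congr 2
    rw [Fintype.card_prod, Fintype.card_bool, Fintype.card_prod, Fintype.card_fin]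
    ring
  rw [← hcard, ← Finset.card_univ]
  refine Finset.card_le_card_of_injOn (fun t p => t p.1.1 p.1.2) (fun _ _ => Finset.mem_coe.2 (Finset.mem_univ _)) ?_
  intro t ht t' ht' htt
  have ht1 := (Finset.mem_filter.1 (Finset.mem_coe.1 ht)).2
  have ht2 := (Finset.mem_filter.1 (Finset.mem_coe.1 ht')).2
  funext s r
  by_cases hp : (s, r) ∈ Q
  · obtain ⟨x, -, hx⟩ := Finset.mem_image.1 hp
    have h1 : w x = s := congrArg Prod.fst hx
    have h2 : cd x.1 (w x) = r := congrArg Prod.snd hx
    have e1 := ht1 x
    have e2 := ht2 x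
    rw [h2, h1] at e1 e2
    exact Fin.ext (e1.trans e2.symm)
  · have := congrFun htt ⟨(s, r), hp⟩
    exact this

open Classical in
theorem Sys.fiber {L T h : ℕ} (σ : Sys m L T) (i0 : Fin L) (O' : Finset (W m))
    (hO' : O'.card = T) :
    (Finset.univ.filter (fun t : Bool → R m → Fin h =>
      (σ.play i0 (ans (fun s r => ((t s r : Fin h) : ℕ))) L).2.O = O')).card ≤
      2 ^ T * h ^ (2 * m ^ 2 - T) := by
  set q : ℕ → Fin L × St m := fun n => σ.play i0 (fun _ x => x ∈ O') n with hq
  set N : W m → ℕ := fun x => sInf {n | x ∈ (q (n + 1)).2.O} with hNdef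
  set val : W m → Bool → ℕ := fun x s => cnt (q (N x)).2 s (cd x s) with hval
  set A : Finset ({x // x ∈ O'} → Bool) := Finset.univ.filter (fun w =>
    Function.Injective (fun x : {x // x ∈ O'} => ((w x, cd x.1 (w x)) : Bool × R m))) with hA
  have hsub : (Finset.univ.filter (fun t : Bool → R m → Fin h =>
      (σ.play i0 (ans (fun s r => ((t s r : Fin h) : ℕ))) L).2.O = O')) ⊆
      A.biUnion (fun w => Finset.univ.filter (fun t : Bool → R m → Fin h =>
        ∀ x : {x // x ∈ O'}, (t (w x) (cd x.1 (w x)) : ℕ) = val x.1 (w x))) := by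
    intro t ht
    have htO := (Finset.mem_filter.1 ht).2
    set τ : Bool → R m → ℕ := fun s r => ((t s r : Fin h) : ℕ) with hτ
    have hqp : ∀ n, n ≤ L → q n = σ.play i0 (ans τ) n := by
      intro n hn
      have := Sys.play_eq σ i0 τ hn
      rw [htO] at this
      exact this
    have hkey : ∀ x ∈ O', N x < L ∧ x ∉ (q (N x)).2.O ∧ x ∈ (q (N x + 1)).2.O ∧
        ∃ s, ¬ Hit (q (N x)).2.O s (cd x s) ∧ τ s (cd x s) = val x s := by
      intro x hx
      have hxL : x ∈ (σ.play i0 (ans τ) L).2.O := by
        rw [htO]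
        exact hx
      obtain ⟨n, hnL, hn0, hn1, s, hs1, hs2⟩ := Sys.first σ i0 τ hxL
      have hmem : n ∈ {n | x ∈ (q (n + 1)).2.O} := by
        show x ∈ (q (n + 1)).2.O
        rw [hqp (n + 1) (by omega)]
        exact hn1
      have hle : N x ≤ n := Nat.sInf_le hmem
      have hin : x ∈ (q (N x + 1)).2.O := Nat.sInf_mem ⟨n, hmem⟩
      have hEq : N x = n := by
        by_contra hne
        have hlt : N x + 1 ≤ n := by omega
        rw [hqp (N x + 1) (by omega)] at hin
        exact hn0 ((Sys.play_mono σ i0 τ hlt).2.1 hin)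
      refine ⟨by omega, ?_, hin, s, ?_, ?_⟩
      · rw [hEq, hqp n (by omega)]
        exact hn0
      · rw [hEq, hqp n (by omega)]
        exact hs1
      · rw [hval]
        show _ = cnt (q (N x)).2 s (cd x s)
        rw [hEq, hqp n (by omega)]
        exact hs2.symm
    have hmono : ∀ a b, a ≤ b → b ≤ L → (q a).2.O ⊆ (q b).2.O := by
      intro a b hab hb
      rw [hqp a (by omega), hqp b hb]
      exact (Sys.play_mono σ i0 τ hab).2.1
    choose! w hw using (fun x : W m => fun hx : x ∈ O' => (hkey x hx).2.2.2)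
    have hdist : ∀ x ∈ O', ∀ x' ∈ O', N x < N x' → (w x, cd x (w x)) ≠ (w x', cd x' (w x')) := by
      intro x hx x' hx' hlt heq
      have h1 : w x = w x' := congrArg Prod.fst heq
      have h2 : cd x (w x) = cd x' (w x') := congrArg Prod.snd heq
      have h3 := (hw x' hx').1
      apply h3
      refine ⟨x, hmono (N x + 1) (N x') hlt (hkey x' hx').1.le (hkey x hx).2.2.1, ?_⟩
      rw [← h1]
      rw [h2, h1]
    have hinj : Function.Injective
        (fun x : {x // x ∈ O'} => ((w x.1, cd x.1 (w x.1)) : Bool × R m)) := by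
      intro x x' hxx
      by_contra hne
      have hne' : x.1 ≠ x'.1 := fun h => hne (Subtype.ext h)
      rcases lt_trichotomy (N x.1) (N x'.1) with hlt | heq | hgt
      · exact hdist x.1 x.2 x'.1 x'.2 hlt hxx
      · have a1 := (hkey x.1 x.2).2.1
        have a2 := (hkey x.1 x.2).2.2.1
        have b1 := (hkey x'.1 x'.2).2.1
        have b2 := (hkey x'.1 x'.2).2.2.1
        rw [← heq] at b1 b2
        have hsucc : q (N x.1 + 1) = σ.step (fun _ x => x ∈ O') (q (N x.1)) :=
          Sys.play_succ σ i0 (fun _ x => x ∈ O') (N x.1)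
        rw [hsucc] at a2 b2
        obtain ⟨-, hins⟩ := σ.step_new (fun _ x => x ∈ O') (q (N x.1)) a1 a2
        rw [hins] at b2
        rcases Finset.mem_insert.1 b2 with h | h
        · exact hne' h.symm
        · exact b1 h
      · exact hdist x'.1 x'.2 x.1 x.2 hgt hxx.symm
    refine Finset.mem_biUnion.2 ⟨fun x => w x.1, ?_, ?_⟩
    · rw [hA]
      exact Finset.mem_filter.2 ⟨Finset.mem_univ _, hinj⟩
    · exact Finset.mem_filter.2 ⟨Finset.mem_univ _, fun x => (hw x.1 x.2).2⟩
  refine (Finset.card_le_card hsub).trans (Finset.card_biUnion_le.trans ?_)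
  have hb : ∀ w ∈ A, (Finset.univ.filter (fun t : Bool → R m → Fin h =>
        ∀ x : {x // x ∈ O'}, (t (w x) (cd x.1 (w x)) : ℕ) = val x.1 (w x))).card ≤
        h ^ (2 * m ^ 2 - T) := by
    intro w hw
    rw [← hO']
    exact card_presc O' w (Finset.mem_filter.1 hw).2 val
  refine (Finset.sum_le_card_nsmul _ _ _ hb).trans ?_
  rw [smul_eq_mul]
  refine Nat.mul_le_mul_right _ ?_
  have hAc : A.card ≤ Fintype.card ({x // x ∈ O'} → Bool) := by
    rw [hA]
    exact Finset.card_le_univ _
  rw [Fintype.card_fun, Fintype.card_bool, Fintype.card_coe, hO'] at hAc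
  exact hAc

end Pool.Agent.H8.CB

/-!
# Row Nod: few sets of ones belong to one node

Let `𝒮` be a set of sets `O` each of which belongs to a state compatible with the same complete
subproblem `Q`. If `𝒮` is empty nothing is to prove. Otherwise fix `O₀ ∈ 𝒮` with its state `ρ₀`. For
`O ∈ 𝒮` with its state `ρ`, `eqv` gives `F (ov Z ρ) ↔ F (ov Z ρ₀)` for all `Z`. Let
`c s = {i | ¬ 2 ≤ (U O s i).card}`, at most `k` groups (`closed_card`). For `x ∈ O` and a side `s` the
line `cd x s` is hit by `O`; if its group is open then it is hit by `O₀` (`hit_of_equiv`). So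
`O ⊆ M c`, where `M c` is the set of the cells `x` such that for both sides `s` the line `cd x s` is
hit by `O₀` or `(cd x s).1 ∈ c s`. At most `T` lines of each side are hit by `O₀` (`card_hit`), and at
most `k * m` lines have their group in `c s`, so `(M c).card ≤ (T + k * m) ^ 2 ≤ (2 * m * k) ^ 2`
(a cell is determined by its two lines; `T = (m - 1) * k ≤ m * k`). So `O` is an element of
`(M c).powersetCard T`, which has at most `((2 * m * k) ^ 2).choose T` elements
(`Finset.card_powersetCard`, `Nat.choose_le_choose`). The number of the `c : Bool → Finset (Fin m)`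
is `(2 ^ m) ^ 2 = 4 ^ m`. Use `Finset.card_biUnion_le` over all the `c` with at most `k` elements in
each `c s`.
-/

namespace Pool.Agent.H8.CB

variable {m k h T : ℕ}

theorem node_card (hp : Par m k h T) {Q : Sub (W m)} (hQ : Complete Q)
    (𝒮 : Finset (Finset (W m)))
    (hS : ∀ O ∈ 𝒮, ∃ (ρ : St m) (t : Bool → R m → ℕ), ρ.O = O ∧ (∀ s r, t s r < h) ∧ Good t ρ ∧
      O.card = T ∧ Compat Q ρ) :
    𝒮.card ≤ 4 ^ m * ((2 * m * k) ^ 2).choose T := by
  classical
  rcases 𝒮.eq_empty_or_nonempty with h0 | ⟨O₀, hO₀⟩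
  · rw [h0]; simp
  obtain ⟨ρ₀, t₀, hρ₀, ht₀, hg₀, hc₀, hC₀⟩ := hS O₀ hO₀
  set L : (Bool → Finset (Fin m)) → Bool → Finset (R m) :=
    fun c s => Finset.univ.filter (fun r : R m => Hit O₀ s r ∨ r.1 ∈ c s) with hL
  set M : (Bool → Finset (Fin m)) → Finset (W m) :=
    fun c => Finset.univ.filter (fun x : W m => ∀ s, cd x s ∈ L c s) with hM
  have hTm : T ≤ m * k := by
    rw [hp.hT]
    exact Nat.mul_le_mul_right _ (Nat.sub_le _ _)
  have hLc : ∀ c : Bool → Finset (Fin m), (∀ s, (c s).card ≤ k) → ∀ s, (L c s).card ≤ 2 * m * k := by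
    intro c hc s
    have h1 : L c s ⊆ (Finset.univ.filter (fun r : R m => Hit O₀ s r)) ∪ ((c s) ×ˢ Finset.univ) := by
      intro r hr
      rw [hL, Finset.mem_filter] at hr
      rw [Finset.mem_union]
      rcases hr.2 with h2 | h2
      · left
        rw [Finset.mem_filter]
        exact ⟨Finset.mem_univ _, h2⟩
      · right
        rw [Finset.mem_product]
        exact ⟨h2, Finset.mem_univ _⟩
    have h2 := (Finset.card_le_card h1).trans (Finset.card_union_le _ _)
    have h3 := card_hit O₀ s
    rw [Finset.card_product, Finset.card_univ, Fintype.card_fin] at h2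
    have h4 : (c s).card * m ≤ k * m := Nat.mul_le_mul_right _ (hc s)
    have h5 : (Finset.univ.filter (fun r : R m => Hit O₀ s r)).card ≤ T := by
      refine le_trans ?_ (h3.trans hc₀.le)
      apply le_of_eq
      congr
    calc (L c s).card ≤ T + k * m := by omega
      _ ≤ m * k + k * m := by omega
      _ = 2 * m * k := by ring
  have hMc : ∀ c : Bool → Finset (Fin m), (∀ s, (c s).card ≤ k) → (M c).card ≤ (2 * m * k) ^ 2 := by
    intro c hc
    have h1 : M c ⊆ (L c false) ×ˢ (L c true) := by
      intro x hx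
      rw [hM, Finset.mem_filter] at hx
      rw [Finset.mem_product]
      exact ⟨by simpa [cd] using hx.2 false, by simpa [cd] using hx.2 true⟩
    have h2 := Finset.card_le_card h1
    rw [Finset.card_product] at h2
    rw [sq]
    exact h2.trans (Nat.mul_le_mul (hLc c hc false) (hLc c hc true))
  have hsub : 𝒮 ⊆ ((Finset.univ : Finset (Bool → Finset (Fin m))).filter
      (fun c => ∀ s, (c s).card ≤ k)).biUnion (fun c => (M c).powersetCard T) := by
    intro O hO
    obtain ⟨ρ, t, hρ, ht, hg, hc, hC⟩ := hS O hO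
    rw [Finset.mem_biUnion]
    refine ⟨fun s => Finset.univ.filter (fun i : Fin m => ¬ 2 ≤ (U O s i).card), ?_, ?_⟩
    · rw [Finset.mem_filter]
      refine ⟨Finset.mem_univ _, fun s => ?_⟩
      have h1 : ∀ s i, ∃ a, ¬ Hit O s (i, a) := by
        have := hg.2.1
        rw [hρ] at this
        exact this
      have h2 := closed_card hp h1 hc.le s
      refine le_trans ?_ h2
      apply le_of_eq
      congr
    · rw [Finset.mem_powersetCard]
      refine ⟨?_, hc⟩
      intro x hx
      rw [hM, Finset.mem_filter]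
      refine ⟨Finset.mem_univ _, fun s => ?_⟩
      rw [hL, Finset.mem_filter]
      refine ⟨Finset.mem_univ _, ?_⟩
      by_cases h2 : 2 ≤ (U O s (cd x s).1).card
      · left
        have hh : Hit ρ.O s ((cd x s).1, (cd x s).2) := by
          rw [hρ]
          exact ⟨x, hx, rfl⟩
        have ho : 2 ≤ (U ρ.O s (cd x s).1).card := by
          rw [hρ]
          exact h2
        have := hit_of_equiv hp ht hg hg₀.2.1 (fun Z hF => (eqv hQ hC hC₀ Z).1 hF) ho hh
        rw [hρ₀] at this
        exact this
      · right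
        rw [Finset.mem_filter]
        exact ⟨Finset.mem_univ _, h2⟩
  refine (Finset.card_le_card hsub).trans (Finset.card_biUnion_le.trans ?_)
  have h1 : ∀ c ∈ (Finset.univ : Finset (Bool → Finset (Fin m))).filter
      (fun c => ∀ s, (c s).card ≤ k), ((M c).powersetCard T).card ≤ ((2 * m * k) ^ 2).choose T := by
    intro c hc
    rw [Finset.mem_filter] at hc
    rw [Finset.card_powersetCard]
    exact Nat.choose_le_choose T (hMc c hc.2)
  refine (Finset.sum_le_card_nsmul _ _ _ h1).trans ?_
  rw [smul_eq_mul]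
  apply Nat.mul_le_mul_right
  refine (Finset.card_filter_le _ _).trans ?_
  rw [Finset.card_univ, Fintype.card_fun, Fintype.card_finset, Fintype.card_fin, Fintype.card_bool]
  rw [← pow_mul, mul_comm, pow_mul]
  norm_num

end Pool.Agent.H8.CB
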