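import Pool.Agent.H8.CB.Rules
import Pool.Agent.H8.CB.Terms
import Pool.Agent.H8.CB.Split
import Pool.Agent.H8.CB.Walk
import Pool.Agent.H8.CB.Arith

/-!
# Assembly: the core lower bound
-/

namespace Pool.Agent.H8.CB

variable {m k h T L : ℕ}

theorem not_free (hp : Par m k h T) {s : ℝ} (hs1 : s ≤ (((m ^ 2 / 2) ^ (m - k) : ℕ) : ℝ))
    (hs2 : s ≤ (((m / 2) ^ (2 * (m - 2 * k)) : ℕ) : ℝ)) {t : Bool → R m → ℕ} {ρ : St m}
    (ht : ∀ s r, t s r < h) (hg : Good t ρ) (hO : ρ.O.card ≤ T) {Q : Sub (W m)} (hQ : Complete Q)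
    (hc : Compat Q ρ) : ¬ Free s Q := by
  rintro (h1 | h1 | ⟨-, h1 | h1⟩)
  · exact empty_one hg.2.1 hc h1
  · exact empty_two hp ht hg hO hc h1
  · have h2 := card_one hp ht hg hO hQ hc
    have h3 : (((m ^ 2 / 2) ^ (m - k) : ℕ) : ℝ) ≤ (Q.1.card : ℝ) := by exact_mod_cast h2
    linarith
  · have h2 := card_two hp ht hg hO hQ hc
    have h3 : (((m / 2) ^ (2 * (m - 2 * k)) : ℕ) : ℝ) ≤ (Q.2.card : ℝ) := by exact_mod_cast h2
    linarith

/-- no core cell occurs in `Q` -/
def NoCore (Q : Sub (W m)) (ρ : St m) : Prop := ∀ y, Core ρ y → ¬ Occ Q y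

open Classical in
theorem core_bound (hp : Par m k h T) {s : ℝ} (hs1 : s ≤ (((m ^ 2 / 2) ^ (m - k) : ℕ) : ℝ))
    (hs2 : s ≤ (((m / 2) ^ (2 * (m - 2 * k)) : ℕ) : ℝ)) {P : Fin L → Sub (W m)}
    (hrun : IsRun s P) (i0 : Fin L) (hi0 : P i0 = (AA m, XX m)) : 2 ^ T ≤ L * 2 ^ (2 * m) := by
  have hm0 : 0 < m := by have := hp.hm; have := hp.hk; omega
  haveI : NeZero m := ⟨by omega⟩
  haveI : Nonempty (W m) := ⟨((0, 0), (0, 0))⟩
  haveI : Nonempty (Fin L) := ⟨i0⟩
  have hcomp : ∀ i, Complete (P i) := fun i => complete_run hrun i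
  -- choose the data
  have e1 : ∀ i, ∃ q : Sub (W m) × Sub (W m), Free s (P i) ∨ (Avail s P i q.1 ∧ Avail s P i q.2 ∧
      ((∃ x, Branch (P i) q.1 q.2 x) ∨ OrSplit (P i) q.1 q.2 ∨ AndSplit (P i) q.1 q.2)) := by
    intro i
    rcases hrun i with h1 | ⟨Q0, Q1, h1, h2, h3⟩
    · exact ⟨(P i, P i), Or.inl h1⟩
    · exact ⟨(Q0, Q1), Or.inr ⟨h1, h2, h3⟩⟩
  choose q hq using e1
  have e2 : ∀ i, ∃ x : W m, (∃ y, Branch (P i) (q i).1 (q i).2 y) →
      Branch (P i) (q i).1 (q i).2 x := by
    intro i
    by_cases hB : ∃ y, Branch (P i) (q i).1 (q i).2 y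
    · obtain ⟨y, hy⟩ := hB
      exact ⟨y, fun _ => hy⟩
    · exact ⟨Classical.arbitrary _, fun h' => absurd h' hB⟩
  choose x hx using e2
  have e3 : ∀ (i : Fin L) (Q : Sub (W m)), ∃ j : Fin L, Avail s P i Q → ¬ Free s Q →
      (j < i ∧ P j = Q) := by
    intro i Q
    by_cases hA : ∃ j, j < i ∧ P j = Q
    · obtain ⟨j, hj⟩ := hA
      exact ⟨j, fun _ _ => hj⟩
    · refine ⟨i, fun h1 h2 => ?_⟩
      rcases h1 with h1 | h1
      · exact absurd h1 h2
      · exact absurd h1 hA
  choose nx hnx using e3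
  let V' : Sub (W m) → Finset (W m) := fun Q => Finset.univ.filter (fun y => Occ Q y)
  let σ : Sys m L T :=
    { qry := fun i _ => if Branch (P i) (q i).1 (q i).2 (x i) then some (x i) else none
      c1 := fun i => nx i (q i).2
      c0 := fun i => nx i (q i).1
      mv := fun i ρ =>
        if OrSplit (P i) (q i).1 (q i).2 then
          (if NoCore (q i).2 ρ then (nx i (q i).1, V' (q i).2)
            else (nx i (q i).2, V' (q i).1))
        else
          (if NoCore (q i).2 ρ then (nx i (q i).1, ∅)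
            else (nx i (q i).2, ∅)) }
  -- the invariant of the play
  have hstep : ∀ (t : Bool → R m → ℕ), (∀ s r, t s r < h) → ∀ p : Fin L × St m,
      (Good t p.2 ∧ Compat (P p.1) p.2 ∧ p.2.O.card ≤ T) →
      (Good t (σ.step (ans t) p).2 ∧ Compat (P (σ.step (ans t) p).1) (σ.step (ans t) p).2 ∧
        (σ.step (ans t) p).2.O.card ≤ T) ∧
      (p.2.O.card = T ∨ (σ.step (ans t) p).1 < p.1) := by
    intro t ht p ⟨hg, hc, hO⟩
    obtain ⟨i, ρ⟩ := p
    simp only at hg hc hO
    by_cases hT : ρ.O.card = T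
    · have : σ.step (ans t) (i, ρ) = (i, ρ) := by simp [Sys.step, hT]
      rw [this]
      exact ⟨⟨hg, hc, hO⟩, Or.inl hT⟩
    have hO' : ρ.O.card + 1 ≤ T := by omega
    have hnf : ¬ Free s (P i) := not_free hp hs1 hs2 ht hg hO (hcomp i) hc
    obtain ⟨a0, a1, hr⟩ := (hq i).resolve_left hnf
    have k0 : Complete (q i).1 := complete_avail hrun a0
    have k1 : Complete (q i).2 := complete_avail hrun a1
    -- a helper: moving to a subproblem
    have mov : ∀ (Q : Sub (W m)) (ρ' : St m), Avail s P i Q → Complete Q → Good t ρ' →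
        Compat Q ρ' → ρ'.O.card ≤ T →
        (Good t ρ' ∧ Compat (P (nx i Q)) ρ' ∧ ρ'.O.card ≤ T) ∧ (nx i Q) < i := by
      intro Q ρ' ha hk hg' hc' hO'
      have hf : ¬ Free s Q := not_free hp hs1 hs2 ht hg' hO' hk hc'
      obtain ⟨hlt, hPQ⟩ := hnx i Q ha hf
      exact ⟨⟨hg', by rw [hPQ]; exact hc', hO'⟩, hlt⟩
    by_cases hB : Branch (P i) (q i).1 (q i).2 (x i)
    · -- branching
      by_cases hA : ans t ρ (x i)
      · have e : σ.step (ans t) (i, ρ) = (nx i (q i).2, one ρ (x i)) := by
          simp [Sys.step, hT, σ, hB, hA]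
        rw [e]
        have hx' : (x i) ∉ ρ.S ∨ (x i) ∈ ρ.O := by
          rcases hA with h1 | h1
          · exact Or.inr h1
          · exact Or.inl h1.1
        have := mov (q i).2 (one ρ (x i)) a1 k1 (good_one hg hA) (compat_one hB hc hx')
          (by
            show (insert (x i) ρ.O).card ≤ T
            exact (Finset.card_insert_le _ _).trans hO')
        exact ⟨this.1, Or.inr this.2⟩
      · have e : σ.step (ans t) (i, ρ) = (nx i (q i).1, zer ρ {x i}) := by
          simp [Sys.step, hT, σ, hB, hA]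
        rw [e]
        have hx' : (x i) ∉ ρ.O := fun h1 => hA (Or.inl h1)
        have := mov (q i).1 (zer ρ {x i}) a0 k0 (good_zero hg hA) (compat_zero hB hc hx') hO
        exact ⟨this.1, Or.inr this.2⟩
    · have hr' : OrSplit (P i) (q i).1 (q i).2 ∨ AndSplit (P i) (q i).1 (q i).2 := by
        rcases hr with h1 | h1
        · exact absurd (hx i h1) hB
        · exact h1
      have hne1 : ∅ ∉ (P i).1 := empty_one hg.2.1 hc
      have hV : ∀ (Q0 Q1 : Sub (W m)), Apart Q0 Q1 →
          (∀ D : Finset (W m), (D ∈ Q0.1 ∨ D ∈ Q0.2) → Disjoint D (V' Q1)) ∧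
          (∀ D : Finset (W m), (D ∈ Q1.1 ∨ D ∈ Q1.2) → D ⊆ V' Q1) := by
        intro Q0 Q1 hap
        refine ⟨fun D hD => ?_, fun D hD y hy => ?_⟩
        · rw [Finset.disjoint_left]
          intro y hy hy'
          simp only [V', Finset.mem_filter, Finset.mem_univ, true_and] at hy'
          obtain ⟨D1, hD1, hyD1⟩ := hy'
          exact (Finset.disjoint_left.mp (hap D hD D1 hD1)) hy hyD1
        · simp only [V', Finset.mem_filter, Finset.mem_univ, true_and]
          exact ⟨D, hD, hy⟩
      by_cases hOr : OrSplit (P i) (q i).1 (q i).2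
      · by_cases hcore : NoCore (q i).2 ρ
        · have e : σ.step (ans t) (i, ρ) = (nx i (q i).1, zer ρ (V' (q i).2)) := by
            simp [Sys.step, hT, σ, hB, hOr, hcore]
          rw [e]
          obtain ⟨v0, v1⟩ := hV _ _ hOr.1
          have := mov (q i).1 (zer ρ (V' (q i).2)) a0 k0
            (good_zer hg (by
              intro y hy hcy
              simp only [V', Finset.mem_filter, Finset.mem_univ, true_and] at hy
              exact hcore y hcy hy))
            (compat_or hOr hc v0 v1 (or_ne hOr k1 hne1)) hO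
          exact ⟨this.1, Or.inr this.2⟩
        · have e : σ.step (ans t) (i, ρ) = (nx i (q i).2, zer ρ (V' (q i).1)) := by
            simp [Sys.step, hT, σ, hB, hOr, hcore]
          rw [e]
          have hcore' : ∀ y, Core ρ y → ¬ Occ (q i).1 y :=
            (core_or hp ht hg hO hOr k0 k1 hc).resolve_left hcore
          have hOr' := hOr.symm
          obtain ⟨v0, v1⟩ := hV _ _ hOr'.1
          have := mov (q i).2 (zer ρ (V' (q i).1)) a1 k1
            (good_zer hg (by
              intro y hy hcy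
              simp only [V', Finset.mem_filter, Finset.mem_univ, true_and] at hy
              exact hcore' y hcy hy))
            (compat_or hOr' hc v0 v1 (or_ne hOr' k0 hne1)) hO
          exact ⟨this.1, Or.inr this.2⟩
      · have hAnd : AndSplit (P i) (q i).1 (q i).2 := hr'.resolve_left hOr
        have hz : zer ρ ∅ = ρ := by simp [zer]
        by_cases hcore : NoCore (q i).2 ρ
        · have e : σ.step (ans t) (i, ρ) = (nx i (q i).1, ρ) := by
            simp [Sys.step, hT, σ, hB, hOr, hcore, hz]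
          rw [e]
          have := mov (q i).1 ρ a0 k0 hg
            (compat_and hAnd hc (and_empty hp ht hg hO hAnd k1 hc hcore)) hO
          exact ⟨this.1, Or.inr this.2⟩
        · have e : σ.step (ans t) (i, ρ) = (nx i (q i).2, ρ) := by
            simp [Sys.step, hT, σ, hB, hOr, hcore, hz]
          rw [e]
          have hcore' : ∀ y, Core ρ y → ¬ Occ (q i).1 y :=
            (core_and hp ht hg hO hAnd k0 k1 hc).resolve_left hcore
          have hAnd' := hAnd.symm
          have := mov (q i).2 ρ a1 k1 hg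
            (compat_and hAnd' hc (and_empty hp ht hg hO hAnd' k0 hc hcore')) hO
          exact ⟨this.1, Or.inr this.2⟩
  -- iterate
  have hplay : ∀ (t : Bool → R m → ℕ), (∀ s r, t s r < h) → ∀ n,
      (Good t (σ.play i0 (ans t) n).2 ∧ Compat (P (σ.play i0 (ans t) n).1)
        (σ.play i0 (ans t) n).2 ∧ (σ.play i0 (ans t) n).2.O.card ≤ T) ∧
      ((σ.play i0 (ans t) n).2.O.card = T ∨ ((σ.play i0 (ans t) n).1 : ℕ) + n ≤ i0) := by
    intro t ht n
    induction n with
    | zero =>
      refine ⟨⟨good_root t, ?_, ?_⟩, Or.inr ?_⟩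
      · show Compat (P i0) _
        rw [hi0]
        exact compat_root
      · show (∅ : Finset (W m)).card ≤ T
        simp
      · show (i0 : ℕ) + 0 ≤ i0
        omega
    | succ n ih =>
      have h1 := hstep t ht _ ih.1
      rw [Sys.play_succ]
      refine ⟨h1.1, ?_⟩
      rcases ih.2 with h2 | h2
      · left
        have : σ.step (ans t) (σ.play i0 (ans t) n) = σ.play i0 (ans t) n := by
          simp [Sys.step, h2]
        rw [this]; exact h2
      · rcases h1.2 with h3 | h3
        · left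
          have : σ.step (ans t) (σ.play i0 (ans t) n) = σ.play i0 (ans t) n := by
            simp [Sys.step, h3]
          rw [this]; exact h3
        · right
          have : ((σ.step (ans t) (σ.play i0 (ans t) n)).1 : ℕ) <
            ((σ.play i0 (ans t) n).1 : ℕ) := h3
          omega
  have hend : ∀ (t : Bool → R m → ℕ), (∀ s r, t s r < h) →
      (σ.play i0 (ans t) L).2.O.card = T := by
    intro t ht
    rcases (hplay t ht L).2 with h1 | h1
    · exact h1
    · have := i0.isLt; omega
  -- counting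
  let fin : (Bool → R m → Fin h) → Finset (W m) := fun t =>
    (σ.play i0 (ans (fun s r => ((t s r : Fin h) : ℕ))) L).2.O
  let 𝒪 : Finset (Finset (W m)) := Finset.univ.image fin
  let nd : Finset (W m) → Fin L := fun O => (σ.play i0 (fun _ y => y ∈ O) L).1
  have hcardO : 𝒪.card ≤ L * (4 ^ m * ((2 * m * k) ^ 2).choose T) := by
    have h1 : 𝒪.card ≤ ∑ v : Fin L, (𝒪.filter (fun O => nd O = v)).card := by
      rw [← Finset.card_eq_sum_card_fiberwise (f := nd) (t := Finset.univ)
        (fun _ _ => by simp)]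
    refine h1.trans ?_
    have h2 : ∀ v : Fin L, (𝒪.filter (fun O => nd O = v)).card ≤
        4 ^ m * ((2 * m * k) ^ 2).choose T := by
      intro v
      refine node_card hp (hcomp v) _ ?_
      intro O hOm
      rw [Finset.mem_filter] at hOm
      obtain ⟨hO1, hO2⟩ := hOm
      simp only [𝒪, Finset.mem_image, Finset.mem_univ, true_and] at hO1
      obtain ⟨t, rfl⟩ := hO1
      set t' : Bool → R m → ℕ := fun s r => ((t s r : Fin h) : ℕ) with ht'
      have htl : ∀ s r, t' s r < h := fun s r => (t s r).isLt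
      have heq := σ.play_eq i0 t' (le_refl L)
      refine ⟨(σ.play i0 (ans t') L).2, t', rfl, htl, (hplay t' htl L).1.1, hend t' htl, ?_⟩
      have h3 : (σ.play i0 (ans t') L).1 = v := by
        rw [← hO2]
        show _ = (σ.play i0 (fun _ y => y ∈ fin t) L).1
        rw [show fin t = (σ.play i0 (ans t') L).2.O from rfl, heq]
      rw [← h3]
      exact (hplay t' htl L).1.2.1
    refine (Finset.sum_le_sum (fun v _ => h2 v)).trans ?_
    rw [Finset.sum_const, Finset.card_univ, Fintype.card_fin, smul_eq_mul]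
  have htot : h ^ (2 * m ^ 2) ≤ 𝒪.card * (2 ^ T * h ^ (2 * m ^ 2 - T)) := by
    have h1 : (Finset.univ : Finset (Bool → R m → Fin h)).card ≤
        𝒪.card * (2 ^ T * h ^ (2 * m ^ 2 - T)) := by
      rw [mul_comm]
      refine Finset.card_le_mul_card_image (f := fin) Finset.univ _ ?_
      intro O hOm
      simp only [Finset.mem_image, Finset.mem_univ, true_and] at hOm
      obtain ⟨t, rfl⟩ := hOm
      exact σ.fiber i0 (fin t) (hend _ (fun s r => (t s r).isLt))
    have h2 : (Finset.univ : Finset (Bool → R m → Fin h)).card = h ^ (2 * m ^ 2) := by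
      rw [Finset.card_univ, Fintype.card_fun, Fintype.card_fun, Fintype.card_bool,
        Fintype.card_fin, card_R, ← pow_mul]
      ring_nf
    rw [← h2]; exact h1
  refine num hp (htot.trans ?_)
  exact Nat.mul_le_mul_right _ hcardO

end Pool.Agent.H8.CB
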