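import Pool.Agent.H8.CB.Mai
import Pool.Agent.H8.CB.Dual
import Pool.Agent.H8.CB.Arith

/-!
# The theorem
-/

namespace Pool.Agent.H8.CB

theorem cached (ε : ℝ) (hε : 0 < ε) : ∃ c : ℝ, 0 < c ∧ ∀ N₀ : ℕ,
    ∃ (V : Type) (_ : Fintype V) (_ : DecidableEq V) (A X : Finset (Finset V)) (N : ℕ),
      IsTr A X ∧ IsTr X A ∧ N = A.card + X.card ∧ N₀ ≤ N ∧
      ∀ (L : ℕ) (P : Fin L → Sub V), IsRun ((N : ℝ) ^ (1 - ε)) P → (∃ i, P i = (A, X)) →
        Real.exp (c * (Real.log N / Real.log (Real.log N)) ^ 2) ≤ (L : ℝ) := by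
  obtain ⟨K₁, hK₁⟩ := exists_nat_ge (8 / ε)
  set K : ℕ := max 256 K₁ with hKdef
  have hK : 256 ≤ K := le_max_left _ _
  have hK2 : 8 ≤ ε * K := by
    have h1 : (K₁ : ℝ) ≤ K := by exact_mod_cast le_max_right 256 K₁
    have h2 : 8 / ε ≤ (K : ℝ) := hK₁.trans h1
    rw [div_le_iff₀ hε] at h2
    linarith
  obtain ⟨k₀, hk₀⟩ := sides hε hK hK2
  have hKpos : (0 : ℝ) < K := by
    have : 0 < K := by omega
    exact_mod_cast this
  refine ⟨Real.log 2 / (36 * K), by positivity, fun N₀ => ?_⟩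
  set k : ℕ := max (max 5 k₀) N₀ with hk
  have hk5 : 5 ≤ k := (le_max_left 5 k₀).trans (le_max_left _ _)
  have hkk : k₀ ≤ k := (le_max_right 5 k₀).trans (le_max_left _ _)
  have hkN : N₀ ≤ k := le_max_right _ _
  set m : ℕ := K * k with hm
  have hkm : 256 * k ≤ m := Nat.mul_le_mul_right k hK
  have hm2 : 1280 ≤ m := by omega
  have hXX : (XX m).card = m ^ (2 * m) := card_XX (by omega)
  have hAA : (AA m).card ≤ 2 * (m * (m ^ 2) ^ m) := card_AA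
  set N : ℕ := (AA m).card + (XX m).card with hN
  have hN1 : m ^ (2 * m) ≤ N := by omega
  have hN2 : N ≤ m ^ (2 * m + 2) := by
    have e1 : (m ^ 2) ^ m = m ^ (2 * m) := by rw [← pow_mul]
    have e2 : m ^ (2 * m + 2) = m ^ (2 * m) * m ^ 2 := by rw [pow_add]
    rw [hN, hXX, e2]
    rw [e1] at hAA
    have e3 : 2 * (m * m ^ (2 * m)) + m ^ (2 * m) = m ^ (2 * m) * (2 * m + 1) := by ring
    have e4 : 2 * m + 1 ≤ m ^ 2 := by nlinarith
    calc (AA m).card + m ^ (2 * m) ≤ 2 * (m * m ^ (2 * m)) + m ^ (2 * m) := by omega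
      _ = m ^ (2 * m) * (2 * m + 1) := e3
      _ ≤ m ^ (2 * m) * m ^ 2 := Nat.mul_le_mul_left _ e4
  have hmN : m ≤ N := by
    refine le_trans ?_ hN1
    calc m = m ^ 1 := (pow_one m).symm
      _ ≤ m ^ (2 * m) := Nat.pow_le_pow_right (by omega) (by omega)
  refine ⟨W m, inferInstance, inferInstance, AA m, XX m, N, isTr_AA (by omega), isTr_XX, rfl,
    by omega, fun L P hrun hex => ?_⟩
  obtain ⟨i0, hi0⟩ := hex
  obtain ⟨s1, s2⟩ := hk₀ k m N hkk rfl hN2 (by omega)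
  have hp : Par m k (m ^ 2 / 4) ((m - 1) * k) := ⟨hk5, hkm, rfl, rfl⟩
  have hb := core_bound hp s1 s2 hrun i0 hi0
  exact final_bound hK hk5 rfl hN1 hN2 hb

end Pool.Agent.H8.CB
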